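import Pool.Agent.Lib.MP_c67b86_co.OC.SpecB

/-!
# MP_c67b86_co, module ALP: no connected set avoiding `W` and `x₀` with fewer than `nc` neighbours
-/

set_option autoImplicit false

namespace Pool.Agent.Lib.MPc67b86.Q.OC

open Pool.Agent.Lib.MPc67b86

namespace ALPM

variable {V : Type}

theorem res_mono (G : SimpleGraph V) {A B : Set V} (h : A ⊆ B) : res G A ≤ res G B :=
  fun _ _ huv => ⟨huv.1, h huv.2.1, h huv.2.2⟩

theorem reach_mono {G : SimpleGraph V} {A B : Set V} (h : A ⊆ B) {u v : V}
    (huv : (res G A).Reachable u v) : (res G B).Reachable u v :=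
  huv.mono (res_mono G h)

theorem reach_mem {G : SimpleGraph V} {A : Set V} {u v : V} (hu : u ∈ A)
    (h : (res G A).Reachable u v) : v ∈ A := by
  obtain ⟨p⟩ := h
  induction p with
  | nil => exact hu
  | cons h p ih => exact ih h.2.2

/-- Leaving `D` is only possible through `nb G D`. -/
theorem mem_of_reach {G : SimpleGraph V} {D : Set V} {u v : V} (hu : u ∈ D)
    (h : (res G (nb G D)ᶜ).Reachable u v) : v ∈ D := by
  obtain ⟨p⟩ := h
  induction p with
  | nil => exact hu
  | cons h p ih =>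
    apply ih
    by_contra hb
    exact h.2.2 ⟨hb, _, hu, h.1⟩

theorem adj_of_reach {H : SimpleGraph V} {a b : V} (h : H.Reachable a b) (hab : a ≠ b) :
    ∃ w, H.Adj b w := by
  obtain ⟨p⟩ := h.symm
  cases p with
  | nil => exact absurd rfl hab
  | cons h _ => exact ⟨_, h⟩

/-- The fan case: a subdivision. -/
theorem fan_case (hTKS : SpecTKS) {nc : ℕ} [Finite V] {G : SimpleGraph V} {W : Finset V} {x₀ : V}
    {c : V → Bool} (h : Cas nc G W x₀ c) {D : Set V} {y z : V} (hx₀D : x₀ ∉ D)
    (hWD : ∀ w ∈ W, w ∉ D) (hy : y ∈ D) (hz : z ∈ D) (hyz : y ≠ z)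
    (hconn : (res G D).Reachable y z) {W' N' : Finset V} (hW' : W' ⊆ W)
    (hcard : W'.card + 2 = nc) (hadj : ∀ w ∈ W', w ∉ N' → G.Adj x₀ w)
    (hyx : G.Adj y x₀) (hzx : G.Adj z x₀) (hyW : ∀ w ∈ W', G.Adj y w ∧ G.Adj z w)
    (b : Fin N'.card → V) (I : Fin N'.card → Set V) (hb : Function.Injective b)
    (hbN : ∀ i, b i ∈ N') (hIN : ∀ i, ∀ v ∈ I i, v ∉ N') (hxI : ∀ i, x₀ ∉ I i)
    (hII : ∀ i j, i ≠ j → Disjoint (I i) (I j)) (hlk : ∀ i, Lk G x₀ (b i) (I i))
    (hID : ∀ i, ∀ v ∈ I i, v ∉ D) (hIW : ∀ i, ∀ v ∈ I i, v ∈ W' → v ∈ N') : TK nc G := by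
  classical
  have hx₀W' : x₀ ∉ W' := fun h' => h.x0 (hW' h')
  have hzx' : z ≠ x₀ := fun e => hx₀D (e ▸ hz)
  have hyx' : y ≠ x₀ := fun e => hx₀D (e ▸ hy)
  have hzW' : z ∉ W' := fun h' => hWD z (hW' h') hz
  have hyW' : y ∉ W' := fun h' => hWD y (hW' h') hy
  have hsurj : ∀ w ∈ N', ∃ i, b i = w := by
    have h1 : Finset.univ.image b = N' := by
      apply Finset.eq_of_subset_of_card_le
      · intro x hx
        obtain ⟨i, -, rfl⟩ := Finset.mem_image.1 hx
        exact hbN i
      · rw [Finset.card_image_of_injective _ hb, Finset.card_univ, Fintype.card_fin]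
    intro w hw
    rw [← h1] at hw
    obtain ⟨i, -, hi⟩ := Finset.mem_image.1 hw
    exact ⟨i, hi⟩
  have hR : (insert y (insert z (insert x₀ W'))).card = nc + 1 := by
    rw [Finset.card_insert_of_notMem, Finset.card_insert_of_notMem,
      Finset.card_insert_of_notMem hx₀W']
    · omega
    · simp only [Finset.mem_insert, not_or]
      exact ⟨hzx', hzW'⟩
    · simp only [Finset.mem_insert, not_or]
      exact ⟨hyz, hyx', hyW'⟩
  refine hTKS nc V G (insert y (insert z (insert x₀ W'))) (Option (Fin N'.card))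
    (fun j => j.elim y (fun _ => x₀)) (fun j => j.elim z b)
    (fun j => j.elim (D \ {y, z}) I) hR ?_ ?_ ?_ ?_
  · intro j v hv
    rw [Finset.mem_insert, Finset.mem_insert, Finset.mem_insert] at hv
    cases j with
    | none =>
      show v ∉ D \ {y, z}
      rintro ⟨hvD, hvyz⟩
      rcases hv with rfl | rfl | rfl | hv
      · exact hvyz (Or.inl rfl)
      · exact hvyz (Or.inr rfl)
      · exact hx₀D hvD
      · exact hWD v (hW' hv) hvD
    | some i =>
      show v ∉ I i
      intro hvI
      rcases hv with rfl | rfl | rfl | hv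
      · exact hID i _ hvI hy
      · exact hID i _ hvI hz
      · exact hxI i hvI
      · exact hIN i v hvI (hIW i v hvI hv)
  · intro j k hjk
    cases j with
    | none =>
      cases k with
      | none => exact absurd rfl hjk
      | some k =>
        show Disjoint (D \ {y, z}) (I k)
        exact Set.disjoint_left.2 fun v hv hv' => hID k v hv' hv.1
    | some j =>
      cases k with
      | none =>
        show Disjoint (I j) (D \ {y, z})
        exact Set.disjoint_left.2 fun v hv hv' => hID j v hv hv'.1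
      | some k =>
        show Disjoint (I j) (I k)
        exact hII j k fun e => hjk (by rw [e])
  · intro j
    cases j with
    | none =>
      show (res G (insert y (insert z (D \ {y, z})))).Reachable y z
      refine reach_mono ?_ hconn
      intro v hv
      by_cases h1 : v = y
      · exact Or.inl h1
      · by_cases h2 : v = z
        · exact Or.inr (Or.inl h2)
        · refine Or.inr (Or.inr ⟨hv, ?_⟩)
          rintro (h3 | h3)
          · exact h1 h3
          · exact h2 h3
    | some i => exact hlk i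
  · -- pairs
    have key : ∀ u v, (u = y ∨ u = z ∨ u = x₀ ∨ u ∈ W') → (v = y ∨ v = z ∨ v = x₀ ∨ v ∈ W') → u ≠ v →
        G.Adj u v ∨ ∃ j : Option (Fin N'.card),
          ((fun j : Option (Fin N'.card) => j.elim y (fun _ => x₀)) j = u ∧
            (fun j : Option (Fin N'.card) => j.elim z b) j = v) ∨
          ((fun j : Option (Fin N'.card) => j.elim y (fun _ => x₀)) j = v ∧
            (fun j : Option (Fin N'.card) => j.elim z b) j = u) := by
      have hxw : ∀ w ∈ W', G.Adj x₀ w ∨ ∃ i, b i = w := by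
        intro w hw
        by_cases hwN : w ∈ N'
        · exact Or.inr (hsurj w hwN)
        · exact Or.inl (hadj w hw hwN)
      intro u v hu hv huv
      rcases hu with rfl | rfl | rfl | hu <;> rcases hv with rfl | rfl | rfl | hv
      · exact absurd rfl huv
      · exact Or.inr ⟨none, Or.inl ⟨rfl, rfl⟩⟩
      · exact Or.inl hyx
      · exact Or.inl (hyW v hv).1
      · exact Or.inr ⟨none, Or.inr ⟨rfl, rfl⟩⟩
      · exact absurd rfl huv
      · exact Or.inl hzx
      · exact Or.inl (hyW v hv).2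
      · exact Or.inl hyx.symm
      · exact Or.inl hzx.symm
      · exact absurd rfl huv
      · rcases hxw v hv with h1 | ⟨i, hi⟩
        · exact Or.inl h1
        · exact Or.inr ⟨some i, Or.inl ⟨rfl, hi⟩⟩
      · exact Or.inl (hyW u hu).1.symm
      · exact Or.inl (hyW u hu).2.symm
      · rcases hxw u hu with h1 | ⟨i, hi⟩
        · exact Or.inl h1.symm
        · exact Or.inr ⟨some i, Or.inr ⟨rfl, hi⟩⟩
      · exact Or.inl (h.clq u (hW' hu) v (hW' hv) huv)
    intro u hu v hv huv
    rw [Finset.mem_insert, Finset.mem_insert, Finset.mem_insert] at hu hv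
    exact key u v hu hv huv

/-- The colouring at the end. -/
theorem colour {nc : ℕ} {G : SimpleGraph V} {W : Finset V} {x₀ : V} {c : V → Bool}
    (h : Cas nc G W x₀ c) {D : Set V} {u : V} (hu : u ∈ D) (hx₀D : x₀ ∉ D)
    (hWD : ∀ w ∈ W, w ∉ D) {W' : Finset V} (hW' : W' ⊆ W)
    (hnb : ∀ v, v ∉ D → ∀ a ∈ D, G.Adj a v → v = x₀ ∨ v ∈ W') {w₁ w₂ : V} (hw₁ : w₁ ∈ W)
    (hw₂ : w₂ ∈ W) (hw₁' : w₁ ∉ W') (hw₂' : w₂ ∉ W') (hne : w₁ ≠ w₂) (T : Finset V)
    (hT : T.card + 3 ≤ nc) (hTn : ∀ v, v ∉ D → G.Adj x₀ v → v ∈ T) (f : V → Fin nc)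
    (hf : IsCol G {u}ᶜ f) : Col nc G := by
  classical
  have hfW : ∀ a ∈ W, ∀ b ∈ W, a ≠ b → f a ≠ f b := by
    intro a ha b hb hab
    refine hf a ?_ b ?_ (h.clq a ha b hb hab)
    · intro e
      exact hWD a ha (e ▸ hu)
    · intro e
      exact hWD b hb (e ▸ hu)
  obtain ⟨r, hr⟩ : ∃ r : Fin nc, r ∉ insert (f w₁) (insert (f w₂) (T.image f)) := by
    by_contra hcon
    push Not at hcon
    have h1 : (Finset.univ : Finset (Fin nc)) ⊆ insert (f w₁) (insert (f w₂) (T.image f)) :=
      fun r _ => hcon r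
    have h2 := Finset.card_le_card h1
    rw [Finset.card_univ, Fintype.card_fin] at h2
    have h3 := Finset.card_insert_le (f w₁) (insert (f w₂) (T.image f))
    have h4 := Finset.card_insert_le (f w₂) (T.image f)
    have h5 : (T.image f).card ≤ T.card := Finset.card_image_le
    omega
  simp only [Finset.mem_insert, Finset.mem_image, not_or, not_exists, not_and] at hr
  obtain ⟨hr1, hr2, hr3⟩ := hr
  have hpq : f w₁ ≠ f w₂ := hfW w₁ hw₁ w₂ hw₂ hne
  let g : V → Fin nc := fun v => if v = x₀ then r else if v ∈ D then (if c v then f w₁ else f w₂)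
    else f v
  have gx : g x₀ = r := by simp [g]
  have gD : ∀ v ∈ D, g v = if c v then f w₁ else f w₂ := by
    intro v hv
    have h1 : v ≠ x₀ := fun e => hx₀D (e ▸ hv)
    simp only [g]
    rw [if_neg h1, if_pos hv]
  have gO : ∀ v, v ≠ x₀ → v ∉ D → g v = f v := by
    intro v h1 h2
    simp only [g]
    rw [if_neg h1, if_neg h2]
  have hgDr : ∀ v ∈ D, g v ≠ r := by
    intro v hv
    rw [gD v hv]
    split_ifs
    · exact fun e => hr1 e.symm
    · exact fun e => hr2 e.symm
  have hgDW : ∀ v ∈ D, ∀ w ∈ W', g v ≠ f w := by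
    intro v hv w hw
    rw [gD v hv]
    split_ifs
    · exact hfW w₁ hw₁ w (hW' hw) fun e => hw₁' (e ▸ hw)
    · exact hfW w₂ hw₂ w (hW' hw) fun e => hw₂' (e ▸ hw)
  have hgx : ∀ v, v ≠ x₀ → G.Adj x₀ v → g v ≠ r := by
    intro v hv1 hv2
    by_cases hvD : v ∈ D
    · exact hgDr v hvD
    · rw [gO v hv1 hvD]
      exact fun e => hr3 v (hTn v hvD hv2) e
  have hgd : ∀ a ∈ D, ∀ b, b ≠ x₀ → G.Adj a b → g a ≠ g b := by
    intro a ha b hb hab
    by_cases hbD : b ∈ D
    · have h1 : c a ≠ c b := h.bip a b (fun h' => hWD a h' ha) (fun e => hx₀D (e ▸ ha))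
        (fun h' => hWD b h' hbD) hb hab
      rw [gD a ha, gD b hbD]
      cases ha' : c a <;> cases hb' : c b
      · exact absurd (ha'.trans hb'.symm) h1
      · simpa using hpq.symm
      · simpa using hpq
      · exact absurd (ha'.trans hb'.symm) h1
    · rw [gO b hb hbD]
      rcases hnb b hbD a ha hab with h1 | h1
      · exact absurd h1 hb
      · exact hgDW a ha b h1
  refine ⟨g, fun a b hab => ?_⟩
  by_cases ha : a = x₀
  · subst ha
    rw [gx]
    exact (hgx b hab.ne' hab).symm
  · by_cases hb : b = x₀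
    · subst hb
      rw [gx]
      exact hgx a hab.ne hab.symm
    · by_cases haD : a ∈ D
      · exact hgd a haD b hb hab
      · by_cases hbD : b ∈ D
        · exact (hgd b hbD a ha hab.symm).symm
        · rw [gO a ha haD, gO b hb hbD]
          refine hf a ?_ b ?_ hab
          · intro e
            exact haD (e ▸ hu)
          · intro e
            exact hbD (e ▸ hu)

end ALPM

open ALPM in
theorem specALP (hTKS : SpecTKS) (hSEN : SpecSEN) (hTWO : SpecTWO) (hFAN : SpecFAN) : SpecALP := by
  classical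
  intro nc V _ G W x₀ c h D u u' hCn hu huu' hx₀D hWD hlt
  have hDS : ∀ v ∈ D, v ∉ nb G D := fun v hv hv' => hv'.1 hv
  have hBip : Bip G (insert x₀ W) c := by
    intro a b ha hb hab
    simp only [Finset.mem_insert, not_or] at ha hb
    exact h.bip a b ha.2 ha.1 hb.2 hb.1 hab
  obtain ⟨hcard, hSX, y, z, hy, hz, hcyz, hyz⟩ := hSEN nc V G (insert x₀ W) c h.cr hBip (nb G D) u u'
    hlt (hDS u hu) huu' (by
      intro x hx _ hr
      have h1 := mem_of_reach hu hr
      rcases Finset.mem_insert.1 hx with rfl | hx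
      · exact hx₀D h1
      · exact hWD x hx h1)
  have hyD : y ∈ D := mem_of_reach hu hy
  have hzD : z ∈ D := mem_of_reach hu hz
  have hne : y ≠ z := fun e => hcyz (by rw [e])
  have hconn : (res G D).Reachable y z := by
    obtain ⟨v, -, hv⟩ := hCn
    exact (hv y hyD).symm.trans (hv z hzD)
  by_cases hx₀S : x₀ ∈ nb G D
  swap
  · -- `S` is a clique
    have hSW : ∀ v ∈ nb G D, v ∈ W := by
      intro v hv
      rcases Finset.mem_insert.1 (by exact_mod_cast hSX hv : v ∈ insert x₀ W) with rfl | h1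
      · exact absurd hv hx₀S
      · exact h1
    have hfin : (nb G D).Finite := Set.toFinite _
    refine h.noTK (hTWO nc V G hfin.toFinset y z ?_ ?_ ?_ ?_ hne ?_ ?_)
    · rw [← Set.ncard_eq_toFinset_card _ hfin]
      exact hcard
    · intro v hv w hw hvw
      rw [Set.Finite.mem_toFinset] at hv hw
      exact h.clq v (hSW v hv) w (hSW w hw) hvw
    · rw [Set.Finite.mem_toFinset]
      exact hDS y hyD
    · rw [Set.Finite.mem_toFinset]
      exact hDS z hzD
    · intro v hv
      rw [Set.Finite.mem_toFinset] at hv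
      exact hyz v hv
    · refine reach_mono ?_ hconn
      intro v hv
      rw [Set.Finite.coe_toFinset]
      exact hDS v hv
  · -- `x₀ ∈ S`
    set W' : Finset V := W.filter (fun w => w ∈ nb G D) with hW'def
    have hW' : W' ⊆ W := Finset.filter_subset _ _
    have hW'S : ∀ w ∈ W', w ∈ nb G D := fun w hw => (Finset.mem_filter.1 hw).2
    have hS : nb G D = ((insert x₀ W' : Finset V) : Set V) := by
      ext v
      rw [Finset.mem_coe, Finset.mem_insert]
      constructor
      · intro hv
        rcases Finset.mem_insert.1 (by exact_mod_cast hSX hv : v ∈ insert x₀ W) with h1 | h1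
        · exact Or.inl h1
        · exact Or.inr (Finset.mem_filter.2 ⟨h1, hv⟩)
      · rintro (rfl | hv)
        · exact hx₀S
        · exact hW'S v hv
    have hx₀W' : x₀ ∉ W' := fun h' => h.x0 (hW' h')
    have hcardW' : W'.card + 2 = nc := by
      rw [hS, Set.ncard_coe_finset, Finset.card_insert_of_notMem hx₀W'] at hcard
      omega
    set N' : Finset V := W'.filter (fun w => ¬ G.Adj x₀ w) with hN'def
    have hN' : N' ⊆ W' := Finset.filter_subset _ _
    have hadj : ∀ w ∈ W', w ∉ N' → G.Adj x₀ w := by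
      intro w hw hwN
      by_contra hcon
      exact hwN (Finset.mem_filter.2 ⟨hw, hcon⟩)
    have hnb : ∀ v, v ∉ D → ∀ a ∈ D, G.Adj a v → v = x₀ ∨ v ∈ W' := by
      intro v hv a ha hav
      have h1 : v ∈ nb G D := ⟨hv, a, ha, hav⟩
      rw [hS, Finset.mem_coe, Finset.mem_insert] at h1
      exact h1
    set A : Set V := (D ∪ ((W' \ N' : Finset V) : Set V))ᶜ with hA
    have memA : ∀ v, v ∈ A ↔ v ∉ D ∧ ¬ (v ∈ W' ∧ v ∉ N') := by
      intro v
      rw [hA, Set.mem_compl_iff, Set.mem_union, not_or, Finset.mem_coe, Finset.mem_sdiff]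
    have hx₀A : x₀ ∈ A := (memA x₀).2 ⟨hx₀D, fun h' => hx₀W' h'.1⟩
    by_cases hfan : ∀ T : Set V, x₀ ∉ T → T.ncard < N'.card →
        ∃ b ∈ (N' : Set V), b ∉ T ∧ (res (res G A) Tᶜ).Reachable x₀ b
    · obtain ⟨b, I, hb, hbN, hIN, hxI, hII, hlk, hiso⟩ := hFAN V (res G A) x₀ (N' : Set V) N'.card
        (fun h' => hx₀W' (hN' h')) hfan
      have hIA : ∀ i, ∀ v ∈ I i, v ∈ A := by
        intro i v hv
        obtain ⟨w, hw⟩ := hiso i v hv
        exact hw.2.1
      refine h.noTK (fan_case hTKS h hx₀D hWD hyD hzD hne hconn hW' hcardW' hadj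
        (hyz x₀ hx₀S).1 (hyz x₀ hx₀S).2 (fun w hw => hyz w (hW'S w hw)) b I hb
        (fun i => hbN i) ?_ hxI hII ?_ ?_ ?_)
      · intro i v hv hvN
        exact Set.disjoint_left.1 (hIN i) hv hvN
      · intro i
        have h1 : res (res G A) (insert x₀ (insert (b i) (I i))) ≤
            res G (insert x₀ (insert (b i) (I i))) := fun a b hab => ⟨hab.1.1, hab.2⟩
        exact SimpleGraph.Reachable.mono h1 (hlk i)
      · intro i v hv
        exact ((memA v).1 (hIA i v hv)).1
      · intro i v hv hvW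
        by_contra hvN
        exact ((memA v).1 (hIA i v hv)).2 ⟨hvW, hvN⟩
    · push Not at hfan
      obtain ⟨Z, hx₀Z, hZ, hZr⟩ := hfan
      set E : Set V := {v | (res (res G A) Zᶜ).Reachable x₀ v} with hE
      have hEmem : ∀ v ∈ E, v ∈ A ∧ v ∉ Z := by
        intro v hv
        have h1 : v ∈ Zᶜ := reach_mem hx₀Z hv
        have h3 : res (res G A) Zᶜ ≤ res G A := fun a b hab => hab.1
        have h2 : (res G A).Reachable x₀ v := SimpleGraph.Reachable.mono h3 hv
        exact ⟨reach_mem hx₀A h2, h1⟩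
      have hEstep : ∀ a ∈ E, ∀ b, G.Adj a b → b ∈ A → b ∉ Z → b ∈ E := by
        intro a ha b hab hbA hbZ
        have h1 := hEmem a ha
        exact SimpleGraph.Reachable.trans ha
          (SimpleGraph.Adj.reachable ⟨⟨hab, h1.1, hbA⟩, h1.2, hbZ⟩)
      obtain ⟨w, hwN, hwZ⟩ : ∃ w ∈ N', w ∉ Z := by
        by_contra hcon
        push Not at hcon
        have h1 : (N' : Set V) ⊆ Z := fun w hw => hcon w hw
        have h2 := Set.ncard_le_ncard h1 (Set.toFinite _)
        rw [Set.ncard_coe_finset] at h2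
        omega
      have hwE : w ∉ E := fun hw => hZr w hwN hwZ hw
      have hwA : w ∈ A := (memA w).2 ⟨hWD w (hW' (hN' hwN)), fun h' => h'.2 hwN⟩
      have hEW : ∀ v ∈ W, v ∉ E := by
        intro v hv hvE
        have h1 := hEmem v hvE
        by_cases hvW' : v ∈ W'
        · by_cases hvN : v ∈ N'
          · exact hZr v hvN h1.2 hvE
          · exact ((memA v).1 h1.1).2 ⟨hvW', hvN⟩
        · have h2 : v ≠ w := fun e => hvW' (e ▸ hN' hwN)
          exact hwE (hEstep v hvE w (h.clq v hv w (hW' (hN' hwN)) h2) hwA hwZ)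
      have hcardT : ((W' \ N') ∪ (Set.toFinite Z).toFinset).card + 3 ≤ nc := by
        have h1 := Finset.card_union_le (W' \ N') (Set.toFinite Z).toFinset
        have h2 := Finset.card_sdiff_add_card_eq_card hN'
        rw [← Set.ncard_eq_toFinset_card _ (Set.toFinite Z)] at h1
        omega
      have hE1 : ∀ v ∈ E, v = x₀ := by
        intro v hv
        by_contra hvx
        set E' : Set V := {t | (res G (E \ {x₀})).Reachable v t} with hE'
        have hvE' : v ∈ E \ {x₀} := ⟨hv, hvx⟩
        have hE'sub : ∀ t ∈ E', t ∈ E ∧ t ≠ x₀ := by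
          intro t ht
          have h1 : t ∈ E \ {x₀} := reach_mem hvE' ht
          exact ⟨h1.1, h1.2⟩
        have hnbE : nb G E' ⊆
            ((insert x₀ ((W' \ N') ∪ (Set.toFinite Z).toFinset) : Finset V) : Set V) := by
          rintro t ⟨htE, s, hs, hst⟩
          rw [Finset.mem_coe, Finset.mem_insert, Finset.mem_union, Finset.mem_sdiff,
            Set.Finite.mem_toFinset]
          by_contra hcon
          push Not at hcon
          obtain ⟨ht1, ht2, ht3⟩ := hcon
          obtain ⟨hsE, hsx⟩ := hE'sub s hs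
          have hsA := (memA s).1 (hEmem s hsE).1
          by_cases htD : t ∈ D
          · rcases hnb s hsA.1 t htD hst.symm with h1 | h1
            · exact hsx h1
            · exact hEW s (hW' h1) hsE
          · have htA : t ∈ A := (memA t).2 ⟨htD, fun h' => h'.2 (ht2 h'.1)⟩
            have htE2 : t ∈ E := hEstep s hsE t hst htA ht3
            apply htE
            exact SimpleGraph.Reachable.trans hs
              (SimpleGraph.Adj.reachable ⟨hst, ⟨hsE, hsx⟩, ⟨htE2, ht1⟩⟩)
        have hle : (nb G E').ncard + 2 ≤ nc := by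
          have h1 := Set.ncard_le_ncard hnbE (Finset.finite_toSet _)
          rw [Set.ncard_coe_finset] at h1
          have h2 := Finset.card_insert_le x₀ ((W' \ N') ∪ (Set.toFinite Z).toFinset)
          omega
        obtain ⟨v', hv'⟩ := adj_of_reach hv (fun e => hvx e.symm)
        have hvE'' : v ∈ E' := SimpleGraph.Reachable.refl _
        obtain ⟨h1, -⟩ := hSEN nc V G (insert x₀ W) c h.cr hBip (nb G E') v v' (by omega)
          (fun h' => h'.1 hvE'') hv'.1.1 (by
            intro x hx _ hr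
            have h1 := hE'sub x (mem_of_reach hvE'' hr)
            rcases Finset.mem_insert.1 hx with h2 | h2
            · exact h1.2 h2
            · exact hEW x h2 h1.1)
        omega
      -- two vertices of `W` outside `W'`
      obtain ⟨w₁, hw₁, w₂, hw₂, hw12⟩ : ∃ w₁ ∈ W \ W', ∃ w₂ ∈ W \ W', w₁ ≠ w₂ := by
        apply Finset.one_lt_card.1
        have h1 := Finset.card_sdiff_add_card_eq_card hW'
        have h2 := h.card
        omega
      rw [Finset.mem_sdiff] at hw₁ hw₂
      obtain ⟨f, hf⟩ := h.cr.cr u u' huu'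
      refine h.cr.bad (colour h hu hx₀D hWD hW' hnb hw₁.1 hw₂.1 hw₁.2 hw₂.2 hw12
        ((W' \ N') ∪ (Set.toFinite Z).toFinset) hcardT ?_ f hf)
      intro v hvD hxv
      by_contra hcon
      rw [Finset.mem_union, Finset.mem_sdiff, Set.Finite.mem_toFinset] at hcon
      push Not at hcon
      have hvA : v ∈ A := (memA v).2 ⟨hvD, fun h' => h'.2 (hcon.1 h'.1)⟩
      have hvE : v ∈ E := hEstep x₀ (SimpleGraph.Reachable.refl _) v hxv hvA hcon.2
      exact hxv.ne' (hE1 v hvE)

end Pool.Agent.Lib.MPc67b86.Q.OC
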