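import Pool.Agent.Lib.MP_c67b86_co.OC.Spec

/-!
# C1P: a full vertex joined to a vertex of type `i`
-/

set_option autoImplicit false

namespace Pool.Agent.Lib.MPc67b86.Q.OC

open Pool.Agent.Lib.MPc67b86

theorem specC1P (h1 : SpecTKS) : SpecC1P := by
  classical
  intro nc V G X x₀ i j y v w hX hx₀ hStar hi hj hix hjx hij hy hyX hv hw I hXI hwI hyI hvI hwy hL
  obtain ⟨hvX, hvi, hvadj⟩ := hv
  obtain ⟨hwX, hwj, hwadj⟩ := hw
  have hyv : y ≠ v := by
    intro h
    exact hvi (h ▸ hyX i hi hix)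
  have hvw : v ≠ w := by
    intro h
    exact hvi (h ▸ hwadj i hi hij)
  have hyx : ∀ x ∈ X, y ≠ x := fun x hx h => hy (h ▸ hx)
  have hvx : ∀ x ∈ X, v ≠ x := fun x hx h => hvX (h ▸ hx)
  have hwx : ∀ x ∈ X, w ≠ x := fun x hx h => hwX (h ▸ hx)
  have hy' : y ∉ X.erase x₀ := fun h => hy (Finset.mem_of_mem_erase h)
  have hv' : v ∉ X.erase x₀ := fun h => hvX (Finset.mem_of_mem_erase h)
  -- the path from `v` to `i`
  have hL2 : Lk G v i ({x₀, w} : Set V) := by
    have a1 : (res G (insert v (insert i ({x₀, w} : Set V)))).Adj v x₀ :=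
      ⟨hvadj x₀ hx₀ hix.symm, by simp, by simp⟩
    have a2 : (res G (insert v (insert i ({x₀, w} : Set V)))).Adj x₀ w :=
      ⟨(hwadj x₀ hx₀ hjx.symm).symm, by simp, by simp⟩
    have a3 : (res G (insert v (insert i ({x₀, w} : Set V)))).Adj w i :=
      ⟨hwadj i hi hij, by simp, by simp⟩
    exact (a1.reachable.trans a2.reachable).trans a3.reachable
  refine h1 nc V G (insert y (insert v (X.erase x₀))) Bool (fun b => bif b then y else v)
    (fun b => bif b then v else i) (fun b => bif b then I else ({x₀, w} : Set V)) ?_ ?_ ?_ ?_ ?_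
  · rw [Finset.card_insert_of_notMem, Finset.card_insert_of_notMem hv', Finset.card_erase_of_mem hx₀, hX]
    · have : 0 < X.card := Finset.card_pos.2 ⟨x₀, hx₀⟩
      omega
    · rw [Finset.mem_insert]
      rintro (h | h)
      · exact hyv h
      · exact hy' h
  · intro b u hu
    rw [Finset.mem_insert, Finset.mem_insert] at hu
    cases b
    · show u ∉ ({x₀, w} : Set V)
      rintro (h | h)
      · rcases hu with hu | hu | hu
        · exact hyx x₀ hx₀ (hu ▸ h)
        · exact hvx x₀ hx₀ (hu ▸ h)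
        · exact (Finset.mem_erase.1 hu).1 h
      · have h' : u = w := h
        rcases hu with hu | hu | hu
        · exact hwy (h'.symm.trans hu)
        · exact hvw (hu.symm.trans h')
        · exact hwX (h' ▸ Finset.mem_of_mem_erase hu)
    · show u ∉ I
      rcases hu with hu | hu | hu
      · rw [hu]; exact hyI
      · rw [hu]; exact hvI
      · exact hXI u (Finset.mem_of_mem_erase hu)
  · have hd : Disjoint I ({x₀, w} : Set V) := by
      rw [Set.disjoint_left]
      rintro u hu (h | h)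
      · exact hXI x₀ hx₀ (h ▸ hu)
      · exact hwI ((show u = w from h) ▸ hu)
    intro b b' hb
    cases b <;> cases b'
    · exact absurd rfl hb
    · exact hd.symm
    · exact hd
    · exact absurd rfl hb
  · intro b
    cases b
    · exact hL2
    · exact hL
  · intro u hu u' hu' hne
    rw [Finset.mem_insert, Finset.mem_insert] at hu hu'
    rcases hu with hu | hu | hu <;> rcases hu' with hu' | hu' | hu'
    · exact absurd (hu.trans hu'.symm) hne
    · exact Or.inr ⟨true, Or.inl ⟨hu.symm, hu'.symm⟩⟩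
    · obtain ⟨e1, e2⟩ := Finset.mem_erase.1 hu'
      rw [hu]
      exact Or.inl (hyX u' e2 e1)
    · exact Or.inr ⟨true, Or.inr ⟨hu'.symm, hu.symm⟩⟩
    · exact absurd (hu.trans hu'.symm) hne
    · obtain ⟨e1, e2⟩ := Finset.mem_erase.1 hu'
      by_cases hi' : u' = i
      · exact Or.inr ⟨false, Or.inl ⟨hu.symm, hi'.symm⟩⟩
      · rw [hu]
        exact Or.inl (hvadj u' e2 hi')
    · obtain ⟨e1, e2⟩ := Finset.mem_erase.1 hu
      rw [hu']
      exact Or.inl (hyX u e2 e1).symm
    · obtain ⟨e1, e2⟩ := Finset.mem_erase.1 hu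
      by_cases hi' : u = i
      · exact Or.inr ⟨false, Or.inr ⟨hu'.symm, hi'.symm⟩⟩
      · rw [hu']
        exact Or.inl (hvadj u e2 hi').symm
    · obtain ⟨e1, e2⟩ := Finset.mem_erase.1 hu
      obtain ⟨e3, e4⟩ := Finset.mem_erase.1 hu'
      exact Or.inl (hStar u e2 u' e4 hne e1 e3)

end Pool.Agent.Lib.MPc67b86.Q.OC
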