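import Pool.Agent.Lib.MP_c67b86_co.OC.Spec

/-!
# MP_c67b86_co, module C2P: two vertices of type `i` and the other non-neighbours of `x₀`
-/

set_option autoImplicit false

namespace Pool.Agent.Lib.MPc67b86.Q.OC

open Pool.Agent.Lib.MPc67b86

namespace C2PM

/-- a path with one inner vertex -/
theorem lk2 {V : Type} (G : SimpleGraph V) (x w l : V) (h1 : G.Adj x w) (h2 : G.Adj w l) :
    Lk G x l {w} := by
  unfold Lk
  have e1 : (res G (insert x (insert l ({w} : Set V)))).Adj x w := ⟨h1, by simp, by simp⟩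
  have e2 : (res G (insert x (insert l ({w} : Set V)))).Adj w l := ⟨h2, by simp, by simp⟩
  exact e1.reachable.trans e2.reachable

/-- a path with two inner vertices -/
theorem lk3 {V : Type} (G : SimpleGraph V) (x w i l : V) (h1 : G.Adj x w) (h2 : G.Adj w i)
    (h3 : G.Adj i l) : Lk G x l {w, i} := by
  unfold Lk
  have e1 : (res G (insert x (insert l ({w, i} : Set V)))).Adj x w := ⟨h1, by simp, by simp⟩
  have e2 : (res G (insert x (insert l ({w, i} : Set V)))).Adj w i := ⟨h2, by simp, by simp⟩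
  have e3 : (res G (insert x (insert l ({w, i} : Set V)))).Adj i l := ⟨h3, by simp, by simp⟩
  exact (e1.reachable.trans e2.reachable).trans e3.reachable

/-- the subdivision, given the paths from `x₀` to its non-neighbours -/
theorem fin (hTKS : SpecTKS) {V : Type} (G : SimpleGraph V) (X : Finset V) (nc : ℕ)
    (x₀ i y z : V) (hX : X.card = nc) (hS : Star G X x₀) (hi : i ∈ X)
    (hy : Ty G X i y) (hz : Ty G X i z) (hyz : y ≠ z) (I : Set V) (hXI : ∀ x ∈ X, x ∉ I)
    (hyI : y ∉ I) (hzI : z ∉ I) (hL : Lk G y z I) (P : V → Prop)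
    (hP : ∀ j, P j ↔ j ∈ X ∧ j ≠ x₀ ∧ j ≠ i ∧ ¬ G.Adj x₀ j) (K : V → Set V)
    (hK1 : ∀ l, P l → y ∉ K l ∧ z ∉ K l ∧ ∀ v ∈ X, v ≠ i → v ∉ K l)
    (hK2 : ∀ l l', P l → P l' → l ≠ l' → Disjoint (K l) (K l'))
    (hK3 : ∀ l, P l → Disjoint I (K l))
    (hK4 : ∀ l, P l → Lk G x₀ l (K l)) : TK nc G := by
  classical
  have hyX := hy.1
  have hzX := hz.1
  refine hTKS nc V G (insert y (insert z (X.erase i))) (Option {l // P l})
    (fun o => o.elim y (fun _ => x₀)) (fun o => o.elim z (fun l => l.1))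
    (fun o => o.elim I (fun l => K l.1)) ?_ ?_ ?_ ?_ ?_
  · have h1 : z ∉ X.erase i := fun h => hzX (Finset.mem_of_mem_erase h)
    have h2 : y ∉ insert z (X.erase i) := by
      intro h
      rcases Finset.mem_insert.mp h with h | h
      · exact hyz h
      · exact hyX (Finset.mem_of_mem_erase h)
    rw [Finset.card_insert_of_notMem h2, Finset.card_insert_of_notMem h1,
      Finset.card_erase_of_mem hi]
    have := Finset.card_pos.mpr ⟨i, hi⟩
    omega
  · intro o v hv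
    rcases Finset.mem_insert.mp hv with h | h
    · subst h
      rcases o with _ | l
      · exact hyI
      · exact (hK1 l.1 l.2).1
    rcases Finset.mem_insert.mp h with h | h
    · subst h
      rcases o with _ | l
      · exact hzI
      · exact (hK1 l.1 l.2).2.1
    · obtain ⟨h1, h2⟩ := Finset.mem_erase.mp h
      rcases o with _ | l
      · exact hXI v h2
      · exact (hK1 l.1 l.2).2.2 v h2 h1
  · intro o o' hoo
    rcases o with _ | l
    · rcases o' with _ | l'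
      · exact absurd rfl hoo
      · exact hK3 l'.1 l'.2
    · rcases o' with _ | l'
      · exact (hK3 l.1 l.2).symm
      · exact hK2 l.1 l'.1 l.2 l'.2 (fun h => hoo (congrArg some (Subtype.ext h)))
  · intro o
    rcases o with _ | l
    · exact hL
    · exact hK4 l.1 l.2
  · -- the pairs
    have hXX : ∀ u ∈ X, u ≠ i → ∀ v ∈ X, v ≠ i → u ≠ v → G.Adj u v ∨
        ∃ j : Option {l // P l},
          ((j.elim y (fun _ => x₀) : V) = u ∧ (j.elim z (fun l => l.1) : V) = v) ∨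
          ((j.elim y (fun _ => x₀) : V) = v ∧ (j.elim z (fun l => l.1) : V) = u) := by
      intro u hu hui v hv hvi huv
      by_cases hA : G.Adj u v
      · exact Or.inl hA
      right
      by_cases hu0 : u = x₀
      · have hPv : P v := (hP v).mpr ⟨hv, fun h => huv (hu0.trans h.symm), hvi, by rwa [hu0] at hA⟩
        exact ⟨some ⟨v, hPv⟩, Or.inl ⟨hu0.symm, rfl⟩⟩
      · by_cases hv0 : v = x₀
        · have hPu : P u := (hP u).mpr ⟨hu, hu0, hui, fun h => hA (by rw [hv0]; exact h.symm)⟩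
          exact ⟨some ⟨u, hPu⟩, Or.inr ⟨hv0.symm, rfl⟩⟩
        · exact absurd (hS u hu v hv huv hu0 hv0) hA
    intro u hu v hv huv
    rcases Finset.mem_insert.mp hu with h | h
    · subst h
      rcases Finset.mem_insert.mp hv with h' | h'
      · exact absurd h'.symm huv
      rcases Finset.mem_insert.mp h' with h'' | h''
      · exact Or.inr ⟨none, Or.inl ⟨rfl, h''.symm⟩⟩
      · obtain ⟨h1, h2⟩ := Finset.mem_erase.mp h''
        exact Or.inl (hy.2.2 v h2 h1)
    rcases Finset.mem_insert.mp h with h | h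
    · subst h
      rcases Finset.mem_insert.mp hv with h' | h'
      · exact Or.inr ⟨none, Or.inr ⟨h'.symm, rfl⟩⟩
      rcases Finset.mem_insert.mp h' with h'' | h''
      · exact absurd h''.symm huv
      · obtain ⟨h1, h2⟩ := Finset.mem_erase.mp h''
        exact Or.inl (hz.2.2 v h2 h1)
    · obtain ⟨h1, h2⟩ := Finset.mem_erase.mp h
      rcases Finset.mem_insert.mp hv with h' | h'
      · subst h'
        exact Or.inl (hy.2.2 u h2 h1).symm
      rcases Finset.mem_insert.mp h' with h'' | h''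
      · subst h''
        exact Or.inl (hz.2.2 u h2 h1).symm
      · obtain ⟨h3, h4⟩ := Finset.mem_erase.mp h''
        exact hXX u h2 h1 v h4 h3 huv

/-- a permutation of a finite set with at least two elements without fixed points -/
theorem perm {V : Type} (T : Finset V) (h : 2 ≤ T.card) :
    ∃ s : V → V, Function.Injective s ∧ (∀ l ∈ T, s l ∈ T) ∧ ∀ l ∈ T, s l ≠ l := by
  classical
  refine ⟨T.toList.formPerm, Equiv.injective _, ?_, ?_⟩
  · intro l hl
    exact Finset.mem_toList.mp (List.formPerm_apply_mem_of_mem (Finset.mem_toList.mpr hl))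
  · intro l hl he
    have := (List.formPerm_apply_mem_eq_self_iff T.toList T.nodup_toList l
      (Finset.mem_toList.mpr hl)).mp he
    rw [Finset.length_toList] at this
    omega

end C2PM

open C2PM in
theorem specC2P (hTKS : SpecTKS) : SpecC2P := by
  classical
  intro nc V G X x₀ i y z r hX hx₀ hS hi hix hy hz hyz hT I hXI hyI hzI hL hr
  -- the vertices `r j`
  have hry : ∀ j, (j ∈ X ∧ j ≠ x₀ ∧ j ≠ i ∧ ¬ G.Adj x₀ j) → y ≠ r j := by
    rintro j ⟨h1, h2, h3, h4⟩ he
    exact (hr j h1 h2 h3 h4).1.2.1 (he ▸ hy.2.2 j h1 h3)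
  have hrz : ∀ j, (j ∈ X ∧ j ≠ x₀ ∧ j ≠ i ∧ ¬ G.Adj x₀ j) → z ≠ r j := by
    rintro j ⟨h1, h2, h3, h4⟩ he
    exact (hr j h1 h2 h3 h4).1.2.1 (he ▸ hz.2.2 j h1 h3)
  have hrX : ∀ j, (j ∈ X ∧ j ≠ x₀ ∧ j ≠ i ∧ ¬ G.Adj x₀ j) → ∀ v ∈ X, v ≠ r j := by
    rintro j ⟨h1, h2, h3, h4⟩ v hv he
    exact (hr j h1 h2 h3 h4).1.1 (he ▸ hv)
  have hrI : ∀ j, (j ∈ X ∧ j ≠ x₀ ∧ j ≠ i ∧ ¬ G.Adj x₀ j) → r j ∉ I := by
    rintro j ⟨h1, h2, h3, h4⟩
    exact (hr j h1 h2 h3 h4).2
  have hra : ∀ j, (j ∈ X ∧ j ≠ x₀ ∧ j ≠ i ∧ ¬ G.Adj x₀ j) → ∀ v ∈ X, v ≠ j → G.Adj (r j) v := by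
    rintro j ⟨h1, h2, h3, h4⟩
    exact (hr j h1 h2 h3 h4).1.2.2
  have hinj : ∀ j j', (j ∈ X ∧ j ≠ x₀ ∧ j ≠ i ∧ ¬ G.Adj x₀ j) →
      (j' ∈ X ∧ j' ≠ x₀ ∧ j' ≠ i ∧ ¬ G.Adj x₀ j') → r j = r j' → j = j' := by
    intro j j' hj hj' he
    by_contra hne
    have h1 := hra j hj j' hj'.1 (Ne.symm hne)
    rw [he] at h1
    exact (hr j' hj'.1 hj'.2.1 hj'.2.2.1 hj'.2.2.2).1.2.1 h1
  obtain ⟨j₀, hj₀X, hj₀⟩ := hT
  set T : Finset V := X.filter (fun j => j ≠ x₀ ∧ j ≠ i ∧ ¬ G.Adj x₀ j) with hTd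
  have hmT : ∀ j, j ∈ T ↔ j ∈ X ∧ j ≠ x₀ ∧ j ≠ i ∧ ¬ G.Adj x₀ j := by
    intro j
    rw [hTd, Finset.mem_filter]
  have hj₀T : j₀ ∈ T := (hmT j₀).mpr ⟨hj₀X, hj₀⟩
  by_cases hc : 2 ≤ T.card
  · obtain ⟨s, hsi, hsT, hsn⟩ := perm T hc
    refine fin hTKS G X nc x₀ i y z hX hS hi hy hz hyz I hXI hyI hzI hL (fun j => j ∈ T) hmT
      (fun l => {r (s l)}) ?_ ?_ ?_ ?_
    · intro l hl
      have hs := (hmT _).mp (hsT l hl)
      exact ⟨hry _ hs, hrz _ hs, fun v hv _ => hrX _ hs v hv⟩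
    · intro l l' hl hl' hne
      have hs := (hmT _).mp (hsT l hl)
      have hs' := (hmT _).mp (hsT l' hl')
      rw [Set.disjoint_singleton]
      exact fun he => hne (hsi (hinj _ _ hs hs' he))
    · intro l hl
      have hs := (hmT _).mp (hsT l hl)
      rw [Set.disjoint_singleton_right]
      exact hrI _ hs
    · intro l hl
      have hs := (hmT _).mp (hsT l hl)
      have hl' := (hmT _).mp hl
      exact lk2 G x₀ (r (s l)) l (hra _ hs x₀ hx₀ (Ne.symm hs.2.1)).symm
        (hra _ hs l hl'.1 (Ne.symm (hsn l hl)))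
  · have huniq : ∀ l ∈ T, l = j₀ := by
      intro l hl
      exact Finset.card_le_one.mp (by omega) l hl j₀ hj₀T
    refine fin hTKS G X nc x₀ i y z hX hS hi hy hz hyz I hXI hyI hzI hL (fun j => j ∈ T) hmT
      (fun l => {r l, i}) ?_ ?_ ?_ ?_
    · intro l hl
      have hs := (hmT _).mp hl
      refine ⟨?_, ?_, ?_⟩
      · rintro (h | h)
        · exact hry _ hs h
        · exact hy.1 (h ▸ hi)
      · rintro (h | h)
        · exact hrz _ hs h
        · exact hz.1 (h ▸ hi)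
      · rintro v hv hvi (h | h)
        · exact hrX _ hs v hv h
        · exact hvi h
    · intro l l' hl hl' hne
      exact absurd ((huniq l hl).trans (huniq l' hl').symm) hne
    · intro l hl
      have hs := (hmT _).mp hl
      rw [Set.disjoint_right]
      rintro v (h | h)
      · rw [h]
        exact hrI _ hs
      · rw [h]
        exact hXI i hi
    · intro l hl
      have hs := (hmT _).mp hl
      exact lk3 G x₀ (r l) i l (hra _ hs x₀ hx₀ (Ne.symm hs.2.1)).symm
        (hra _ hs i hi (Ne.symm hs.2.2.1)) (hS i hi l hs.1 (Ne.symm hs.2.2.1) hix hs.2.1)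

end Pool.Agent.Lib.MPc67b86.Q.OC
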