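import Pool.Agent.Lib.MP_c67b86_co.OC.Spec

/-!
# MP_c67b86_co, module CAA: the set `X` is a clique
-/

set_option autoImplicit false

namespace Pool.Agent.Lib.MPc67b86.Q.OC

open Pool.Agent.Lib.MPc67b86

namespace CAAM

theorem notMem_of_reach {V : Type} {G : SimpleGraph V} {S : Set V} {v u : V} (hv : v ∉ S)
    (h : (res G Sᶜ).Reachable v u) : u ∉ S := by
  obtain ⟨w⟩ := h.symm
  cases w with
  | nil => exact hv
  | cons hadj _ => exact hadj.2.1

end CAAM

theorem specCAA (hSEN : SpecSEN) (hONE : SpecONE) (hTWO : SpecTWO) : SpecCAA := by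
  intro nc V _ G X c hnc hCr hBip hX hcl
  classical
  -- a vertex outside `X` which is not isolated
  have hu : ∃ u w, u ∉ X ∧ G.Adj u w := by
    by_contra hno
    apply hCr.bad
    have hin : ∀ u v, G.Adj u v → u ∈ X ∧ v ∈ X := by
      intro u v huv
      constructor
      · by_contra h
        exact hno ⟨u, v, h, huv⟩
      · by_contra h
        exact hno ⟨v, u, h, huv.symm⟩
    let e : X ≃ Fin nc := X.equivFinOfCardEq hX
    refine ⟨fun v => if h : v ∈ X then e ⟨v, h⟩ else ⟨0, hnc⟩, fun u v huv => ?_⟩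
    obtain ⟨h1, h2⟩ := hin u v huv
    beta_reduce
    rw [dif_pos h1, dif_pos h2]
    intro heq
    have := e.injective heq
    exact huv.ne (congrArg Subtype.val this)
  obtain ⟨u, w, huX, huw⟩ := hu
  rcases hONE nc V G X u hX hcl huX with h | ⟨S, hS, huS, hsep⟩
  · exact h
  obtain ⟨hS1, hSX, y, z, hy, hz, hyz, hadj⟩ := hSEN nc V G X c hCr hBip S u w hS huS huw hsep
  have hyS := CAAM.notMem_of_reach huS hy
  have hzS := CAAM.notMem_of_reach huS hz
  have hfin : S.Finite := Set.toFinite S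
  have hc : (hfin.toFinset : Set V) = S := hfin.coe_toFinset
  refine hTWO nc V G hfin.toFinset y z ?_ ?_ ?_ ?_ ?_ ?_ ?_
  · rw [← Set.ncard_eq_toFinset_card S hfin]
    exact hS1
  · intro v hv v' hv' hne
    rw [Set.Finite.mem_toFinset] at hv hv'
    exact hcl v (hSX hv) v' (hSX hv') hne
  · rw [Set.Finite.mem_toFinset]
    exact hyS
  · rw [Set.Finite.mem_toFinset]
    exact hzS
  · rintro rfl
    exact hyz rfl
  · intro v hv
    rw [Set.Finite.mem_toFinset] at hv
    exact hadj v hv
  · rw [hc]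
    exact hy.symm.trans hz

end Pool.Agent.Lib.MPc67b86.Q.OC
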