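import Pool.Agent.Lib.MP_c67b86_co.OC.Spec

/-!
# MP_c67b86_co, OC: module CAB (only one pair of X is not adjacent)
-/

set_option autoImplicit false

namespace Pool.Agent.Lib.MPc67b86.Q.OC

open Pool.Agent.Lib.MPc67b86

namespace CABM

variable {V : Type}

theorem res_mono (G : SimpleGraph V) {A B : Set V} (h : A ⊆ B) : res G A ≤ res G B :=
  fun _ _ huv => ⟨huv.1, h huv.2.1, h huv.2.2⟩

theorem reach_mono {G : SimpleGraph V} {A B : Set V} (h : A ⊆ B) {u v : V}
    (huv : (res G A).Reachable u v) : (res G B).Reachable u v :=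
  huv.mono (res_mono G h)

theorem reach_mem {G : SimpleGraph V} {A : Set V} {u v : V} (hu : u ∈ A)
    (h : (res G A).Reachable u v) : v ∈ A := by
  obtain ⟨p⟩ := h
  induction p with
  | nil => exact hu
  | cons h p ih => exact ih h.2.2

theorem reach_in {G : SimpleGraph V} {A : Set V} {u v w : V} (huv : (res G A).Reachable u v)
    (h : (res G A).Reachable v w) :
    (res G {x | (res G A).Reachable u x}).Reachable v w := by
  obtain ⟨p⟩ := h
  induction p with
  | nil => exact SimpleGraph.Reachable.refl _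
  | cons h p ih =>
    have h1 := huv.trans h.reachable
    exact SimpleGraph.Reachable.trans (SimpleGraph.Adj.reachable ⟨h.1, huv, h1⟩) (ih h1)

/-- The mixed case. -/
theorem core (hTKS : SpecTKS) (hSEN : SpecSEN) (hONE : SpecONE) (hTWO : SpecTWO) (nc : ℕ)
    [Finite V] (G : SimpleGraph V) (X : Finset V) (c : V → Bool) (hnc : 2 ≤ nc) (hCr : Cr nc G)
    (hB : Bip G X c) (hX : X.card = nc) (x₀ : V) (hx₀ : x₀ ∈ X) (x₁ : V) (hx₁ : x₁ ∈ X)
    (hne : x₀ ≠ x₁) (hnadj : ¬ G.Adj x₀ x₁)
    (hadj : ∀ u ∈ X, ∀ v ∈ X, u ≠ v → G.Adj u v ∨ (u = x₀ ∧ v = x₁) ∨ (u = x₁ ∧ v = x₀))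
    (y z : V) (hy : y ∉ X) (hz : z ∉ X) (hyz : (res G (X : Set V)ᶜ).Reachable y z)
    (hyx : ∀ x ∈ X, x ≠ x₀ → x ≠ x₁ → G.Adj z x) (hy1 : G.Adj y x₁) (hz0 : G.Adj z x₀) :
    TK nc G := by
  classical
  have hclq : ∀ u ∈ X, ∀ v ∈ X, u ≠ v → u ≠ x₁ → v ≠ x₁ → G.Adj u v := by
    intro u hu v hv huv h1 h2
    rcases hadj u hu v hv huv with h | ⟨-, h⟩ | ⟨h, -⟩
    · exact h
    · exact absurd h h2
    · exact absurd h h1
  have hclq0 : ∀ u ∈ X, ∀ v ∈ X, u ≠ v → u ≠ x₀ → v ≠ x₀ → G.Adj u v := by
    intro u hu v hv huv h1 h2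
    rcases hadj u hu v hv huv with h | ⟨h, -⟩ | ⟨-, h⟩
    · exact h
    · exact absurd h h1
    · exact absurd h h2
  set W : Finset V := insert z (X.erase x₁) with hW
  have hWm : ∀ w, w ∈ W ↔ w = z ∨ (w ≠ x₁ ∧ w ∈ X) := by
    intro w
    rw [hW, Finset.mem_insert, Finset.mem_erase]
  have hWc : W.card = nc := by
    rw [hW, Finset.card_insert_of_notMem (fun h => hz (Finset.mem_of_mem_erase h)),
      Finset.card_erase_of_mem hx₁, hX]
    omega
  have hzx : ∀ x ∈ X, x ≠ x₁ → G.Adj z x := by
    intro x hx h1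
    by_cases h0 : x = x₀
    · rw [h0]; exact hz0
    · exact hyx x hx h0 h1
  have hWclq : ∀ v ∈ W, ∀ w ∈ W, v ≠ w → G.Adj v w := by
    intro v hv w hw hvw
    rcases (hWm v).1 hv with rfl | ⟨h1, h2⟩
    · rcases (hWm w).1 hw with rfl | ⟨h3, h4⟩
      · exact absurd rfl hvw
      · exact hzx w h4 h3
    · rcases (hWm w).1 hw with rfl | ⟨h3, h4⟩
      · exact (hzx v h2 h1).symm
      · exact hclq v h2 w h4 hvw h1 h3
  -- a neighbour of `x₀`
  obtain ⟨u, hux, huX, huz⟩ : ∃ u, G.Adj x₀ u ∧ u ∉ X ∧ u ≠ z := by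
    by_contra hcon
    push Not at hcon
    obtain ⟨f, hf⟩ := hCr.cr x₀ z hz0.symm
    have hall : ∀ q : Fin nc, ∃ w, G.Adj x₀ w ∧ f w = q := by
      intro q
      by_contra hq
      push Not at hq
      apply hCr.bad
      refine ⟨fun v => if v = x₀ then q else f v, fun a b hab => ?_⟩
      by_cases ha : a = x₀
      · subst ha
        have hb : b ≠ a := hab.ne.symm
        simp only [if_true, if_neg hb]
        exact (hq b hab).symm
      · by_cases hb : b = x₀
        · subst hb
          simp only [if_true, if_neg ha]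
          exact hq a hab.symm
        · simp only [if_neg ha, if_neg hb]
          exact hf a ha b hb hab
    set T : Finset V := insert z ((X.erase x₀).erase x₁) with hT
    have hTc : T.card ≤ nc - 1 := by
      rw [hT]
      refine (Finset.card_insert_le _ _).trans ?_
      rw [Finset.card_erase_of_mem (Finset.mem_erase.2 ⟨hne.symm, hx₁⟩),
        Finset.card_erase_of_mem hx₀, hX]
      omega
    have hTi : T.image f = Finset.univ := by
      ext q
      simp only [Finset.mem_univ, iff_true, Finset.mem_image]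
      obtain ⟨w, hw, hwq⟩ := hall q
      refine ⟨w, ?_, hwq⟩
      rw [hT, Finset.mem_insert, Finset.mem_erase, Finset.mem_erase]
      by_cases hwX : w ∈ X
      · right
        refine ⟨?_, hw.ne.symm, hwX⟩
        rintro rfl
        exact hnadj hw
      · exact Or.inl (hcon w hw hwX)
    have := Finset.card_image_le (s := T) (f := f)
    rw [hTi, Finset.card_univ, Fintype.card_fin] at this
    omega
  have huW : u ∉ W := by
    rw [hWm]
    rintro (h | ⟨-, h⟩)
    · exact huz h
    · exact huX h
  rcases hONE nc V G W u hWc hWclq huW with h | ⟨S, hS1, hS2, hS3⟩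
  · exact h
  by_cases hx1 : x₁ ∈ S ∨ ¬ (res G Sᶜ).Reachable u x₁
  · -- (i)
    have hout : ∀ x ∈ X, x ∉ S → ¬ (res G Sᶜ).Reachable u x := by
      intro x hx hxS
      by_cases h1 : x = x₁
      · subst h1
        rcases hx1 with h | h
        · exact absurd h hxS
        · exact h
      · exact hS3 x ((hWm x).2 (Or.inr ⟨h1, hx⟩)) hxS
    obtain ⟨hSc, hSX, y', z', hy', hz', hcyz, hadjS⟩ :=
      hSEN nc V G X c hCr hB S u x₀ hS1 hS2 hux.symm hout
    set K : Finset V := X.filter fun v => v ∈ S with hK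
    have hKm : ∀ v, v ∈ K ↔ v ∈ S := by
      intro v
      rw [hK, Finset.mem_filter]
      exact ⟨fun h => h.2, fun h => ⟨hSX h, h⟩⟩
    have hKS : (K : Set V) = S := by
      ext v
      exact hKm v
    have hKc : K.card + 1 = nc := by
      rw [← hSc, ← hKS, Set.ncard_coe_finset]
    have hyS : y' ∉ S := reach_mem (A := Sᶜ) hS2 hy'
    have hzS : z' ∉ S := reach_mem (A := Sᶜ) hS2 hz'
    have hyz' : y' ≠ z' := fun h => hcyz (by rw [h])
    have hyzr : (res G Sᶜ).Reachable y' z' := hy'.symm.trans hz'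
    obtain ⟨x, hxX, hxK⟩ := Finset.exists_mem_notMem_of_card_lt_card (by omega : K.card < X.card)
    have hXK : ∀ v ∈ X, v ≠ x → v ∈ K := by
      have h1 : K ⊆ X.erase x := by
        intro v hv
        refine Finset.mem_erase.2 ⟨?_, Finset.mem_of_mem_filter v hv⟩
        rintro rfl
        exact hxK hv
      have h2 : K = X.erase x := by
        refine Finset.eq_of_subset_of_card_le h1 ?_
        rw [Finset.card_erase_of_mem hxX]
        omega
      intro v hv hvx
      rw [h2]
      exact Finset.mem_erase.2 ⟨hvx, hv⟩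
    have hKX : ∀ v ∈ K, v ∈ X := fun v hv => Finset.mem_of_mem_filter v hv
    have hxS : x ∉ S := fun h => hxK ((hKm x).2 h)
    by_cases hxx : x = x₀ ∨ x = x₁
    · refine hTWO nc V G K y' z' hKc ?_ (fun h => hyS ((hKm _).1 h)) (fun h => hzS ((hKm _).1 h))
        hyz' (fun v hv => hadjS v ((hKm v).1 hv)) (by rw [hKS]; exact hyzr)
      intro v hv w hw hvw
      have hvx : v ≠ x := by
        rintro rfl
        exact hxK hv
      have hwx : w ≠ x := by
        rintro rfl
        exact hxK hw
      rcases hxx with h | h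
      · rw [h] at hvx hwx
        exact hclq0 v (hKX v hv) w (hKX w hw) hvw hvx hwx
      · rw [h] at hvx hwx
        exact hclq v (hKX v hv) w (hKX w hw) hvw hvx hwx
    · push Not at hxx
      obtain ⟨hxx0, hxx1⟩ := hxx
      set D : Set V := {v | (res G Sᶜ).Reachable u v} with hD
      have hxD : x ∉ D := hout x hxX hxS
      have hDS : ∀ v ∈ D, v ∉ S := fun v hv => reach_mem (A := Sᶜ) hS2 hv
      refine hTKS nc V G (insert y' (insert z' K)) Bool (fun j => if j then y' else x₀)
        (fun j => if j then z' else x₁) (fun j => if j then D \ {y', z'} else {x}) ?_ ?_ ?_ ?_ ?_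
      · rw [Finset.card_insert_of_notMem, Finset.card_insert_of_notMem]
        · omega
        · exact fun h => hzS ((hKm _).1 h)
        · rw [Finset.mem_insert, not_or]
          exact ⟨hyz', fun h => hyS ((hKm _).1 h)⟩
      · intro j v hv
        rw [Finset.mem_insert, Finset.mem_insert] at hv
        cases j with
        | true =>
          simp only [if_true, Set.mem_sdiff, Set.mem_insert_iff, Set.mem_singleton_iff, not_and,
            not_not]
          intro hvD
          rcases hv with h | h | h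
          · exact Or.inl h
          · exact Or.inr h
          · exact absurd ((hKm v).1 h) (hDS v hvD)
        | false =>
          simp only [Bool.false_eq_true, if_false, Set.mem_singleton_iff]
          rintro rfl
          rcases hv with h | h | h
          · exact hxD (h ▸ hy')
          · exact hxD (h ▸ hz')
          · exact hxK h
      · intro j k hjk
        have h1 : Disjoint (D \ {y', z'}) ({x} : Set V) := by
          rw [Set.disjoint_singleton_right]
          exact fun h => hxD h.1
        cases j <;> cases k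
        · exact absurd rfl hjk
        · simpa using h1.symm
        · simpa using h1
        · exact absurd rfl hjk
      · intro j
        cases j with
        | true =>
          simp only [if_true]
          unfold Lk
          refine reach_mono ?_ (reach_in (A := Sᶜ) hy' hyzr)
          intro v hv
          by_cases h1 : v = y'
          · exact Or.inl h1
          · by_cases h2 : v = z'
            · exact Or.inr (Or.inl h2)
            · refine Or.inr (Or.inr ⟨hv, ?_⟩)
              rintro (h | h)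
              · exact h1 h
              · exact h2 h
        | false =>
          simp only [Bool.false_eq_true, if_false]
          unfold Lk
          have e1 : G.Adj x₀ x := by
            refine hclq x₀ hx₀ x hxX (Ne.symm hxx0) hne ?_
            exact hxx1
          have e2 : G.Adj x x₁ := hclq0 x hxX x₁ hx₁ hxx1 hxx0 hne.symm
          refine SimpleGraph.Reachable.trans (v := x) (SimpleGraph.Adj.reachable ⟨e1, ?_, ?_⟩)
            (SimpleGraph.Adj.reachable ⟨e2, ?_, ?_⟩)
          · exact Or.inl rfl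
          · exact Or.inr (Or.inr rfl)
          · exact Or.inr (Or.inr rfl)
          · exact Or.inr (Or.inl rfl)
      · intro v hv w hw hvw
        rw [Finset.mem_insert, Finset.mem_insert] at hv hw
        rcases hv with rfl | rfl | hv
        · rcases hw with rfl | rfl | hw
          · exact absurd rfl hvw
          · exact Or.inr ⟨true, Or.inl ⟨by simp, by simp⟩⟩
          · exact Or.inl (hadjS w ((hKm w).1 hw)).1
        · rcases hw with rfl | rfl | hw
          · exact Or.inr ⟨true, Or.inr ⟨by simp, by simp⟩⟩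
          · exact absurd rfl hvw
          · exact Or.inl (hadjS w ((hKm w).1 hw)).2
        · rcases hw with rfl | rfl | hw
          · exact Or.inl (hadjS v ((hKm v).1 hv)).1.symm
          · exact Or.inl (hadjS v ((hKm v).1 hv)).2.symm
          · rcases hadj v (hKX v hv) w (hKX w hw) hvw with h | ⟨h1, h2⟩ | ⟨h1, h2⟩
            · exact Or.inl h
            · exact Or.inr ⟨false, Or.inl ⟨by simp [h1], by simp [h2]⟩⟩
            · exact Or.inr ⟨false, Or.inr ⟨by simp [h2], by simp [h1]⟩⟩
  · -- (ii)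
    exfalso
    push Not at hx1
    obtain ⟨hx1S, hx1r⟩ := hx1
    have hsub : ((X.erase x₁ : Finset V) : Set V) ⊆ S := by
      intro x hx
      obtain ⟨h1, h2⟩ := Finset.mem_erase.1 (Finset.mem_coe.1 hx)
      by_contra hxS
      refine hS3 x ((hWm x).2 (Or.inr ⟨h1, h2⟩)) hxS ?_
      by_cases h0 : x = x₀
      · subst h0
        exact SimpleGraph.Adj.reachable ⟨hux.symm, hS2, hxS⟩
      · exact hx1r.trans (SimpleGraph.Adj.reachable ⟨hclq0 x₁ hx₁ x h2 h1.symm hne.symm h0, hx1S, hxS⟩)
    have hSe : ((X.erase x₁ : Finset V) : Set V) = S := by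
      refine Set.eq_of_subset_of_ncard_le hsub ?_ (Set.toFinite S)
      rw [Set.ncard_coe_finset, Finset.card_erase_of_mem hx₁, hX]
      omega
    have hSX : S ⊆ (X : Set V) := by
      rw [← hSe]
      intro v hv
      exact Finset.mem_coe.2 (Finset.mem_of_mem_erase (Finset.mem_coe.1 hv))
    have hzS : z ∉ S := fun h => hz (hSX h)
    have hyS : y ∉ S := fun h => hy (hSX h)
    refine hS3 z ((hWm z).2 (Or.inl rfl)) hzS ?_
    refine (hx1r.trans (SimpleGraph.Adj.reachable ⟨hy1.symm, hx1S, hyS⟩)).trans ?_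
    exact reach_mono (Set.compl_subset_compl.2 hSX) hyz

end CABM

open CABM in
theorem specCAB (hTKS : SpecTKS) (hPAI : SpecPAI) (hSEN : SpecSEN) (hONE : SpecONE)
    (hTWO : SpecTWO) : SpecCAB := by
  classical
  intro nc V _ G X c hnc hCr hB hX x₀ hx₀ x₁ hx₁ hne hnadj hadj
  obtain ⟨y, z, hy, hz, hcyz, hyz, hall, hy1, hz1⟩ :=
    hPAI nc V G X c hX hB hCr.bad x₀ hx₀ x₁ hx₁ hne hnadj
  have hyzne : y ≠ z := fun h => hcyz (by rw [h])
  have hclq : ∀ u ∈ X, ∀ v ∈ X, u ≠ v → u ≠ x₁ → v ≠ x₁ → G.Adj u v := by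
    intro u hu v hv huv h1 h2
    rcases hadj u hu v hv huv with h | ⟨-, h⟩ | ⟨h, -⟩
    · exact h
    · exact absurd h h2
    · exact absurd h h1
  have hclq0 : ∀ u ∈ X, ∀ v ∈ X, u ≠ v → u ≠ x₀ → v ≠ x₀ → G.Adj u v := by
    intro u hu v hv huv h1 h2
    rcases hadj u hu v hv huv with h | ⟨h, -⟩ | ⟨-, h⟩
    · exact h
    · exact absurd h h1
    · exact absurd h h2
  have both : ∀ a b, a ∈ X → b ∈ X → a ≠ b → (∀ x ∈ X, x ≠ a → x ≠ b → G.Adj y x ∧ G.Adj z x) →
      (∀ u ∈ X, ∀ v ∈ X, u ≠ v → u ≠ a → v ≠ a → G.Adj u v) → G.Adj y b → G.Adj z b →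
      TK nc G := by
    intro a b ha hb hab h1 h2 h3 h4
    refine hTWO nc V G (X.erase a) y z ?_ ?_ ?_ ?_ hyzne ?_ ?_
    · rw [Finset.card_erase_of_mem ha, hX]
      omega
    · intro v hv w hw hvw
      rw [Finset.mem_erase] at hv hw
      exact h2 v hv.2 w hw.2 hvw hv.1 hw.1
    · exact fun h => hy (Finset.mem_of_mem_erase h)
    · exact fun h => hz (Finset.mem_of_mem_erase h)
    · intro v hv
      rw [Finset.mem_erase] at hv
      by_cases hvb : v = b
      · rw [hvb]
        exact ⟨h3, h4⟩
      · exact h1 v hv.2 hv.1 hvb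
    · refine reach_mono (Set.compl_subset_compl.2 ?_) hyz
      intro v hv
      exact Finset.mem_coe.2 (Finset.mem_of_mem_erase (Finset.mem_coe.1 hv))
  by_cases hy1' : G.Adj y x₁
  · by_cases hz1' : G.Adj z x₁
    · exact both x₀ x₁ hx₀ hx₁ hne hall hclq0 hy1' hz1'
    · have hz0 : G.Adj z x₀ := hz1.resolve_right hz1'
      exact core hTKS hSEN hONE hTWO nc G X c hnc hCr hB hX x₀ hx₀ x₁ hx₁ hne hnadj hadj y z hy hz
        hyz (fun x hx h0 h1 => (hall x hx h0 h1).2) hy1' hz0
  · have hy0 : G.Adj y x₀ := hy1.resolve_right hy1'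
    by_cases hz1' : G.Adj z x₁
    · exact core hTKS hSEN hONE hTWO nc G X c hnc hCr hB hX x₀ hx₀ x₁ hx₁ hne hnadj hadj z y hz hy
        hyz.symm (fun x hx h0 h1 => (hall x hx h0 h1).1) hz1' hy0
    · have hz0 : G.Adj z x₀ := hz1.resolve_right hz1'
      exact both x₁ x₀ hx₁ hx₀ hne.symm (fun x hx h1 h0 => hall x hx h0 h1) hclq hy0 hz0

end Pool.Agent.Lib.MPc67b86.Q.OC
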