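import Pool.Agent.Lib.MP_c67b86_co.OC.SpecB
import Pool.Agent.Lib.MP_c67b86_co.Q.TYP

/-!
# CLC: a critical graph has no clique cutset
-/

set_option autoImplicit false

namespace Pool.Agent.Lib.MPc67b86.Q.OC

open Pool.Agent.Lib.MPc67b86

theorem specCLC : SpecCLC := by
  intro nc V G D u u' w w' hcr hu huu hwD hwN hww hclq
  obtain ⟨f, hf⟩ := hcr.cr u u' huu
  obtain ⟨g, hg⟩ := hcr.cr w w' hww
  have hf' : IsCol G Dᶜ f := by
    intro a ha b hb hab
    refine hf a ?_ b ?_ hab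
    · rintro rfl
      exact ha hu
    · rintro rfl
      exact hb hu
  have hg' : IsCol G (D ∪ nb G D) g := by
    have key : ∀ a ∈ D ∪ nb G D, a ∈ ({w}ᶜ : Set V) := by
      rintro a ha rfl
      rcases ha with ha | ha
      · exact hwD ha
      · exact hwN ha
    intro a ha b hb hab
    exact hg a (key a ha) b (key b hb) hab
  have h1 : ∀ a ∈ Dᶜ, a ∉ D ∪ nb G D → ∀ b ∈ D ∪ nb G D, b ∉ Dᶜ → ¬ G.Adj a b := by
    intro a ha ha' b _ hb' hab
    have hbD : b ∈ D := by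
      by_contra h
      exact hb' h
    exact ha' (Or.inr ⟨ha, b, hbD, hab.symm⟩)
  have h2 : ∀ s ∈ Dᶜ, s ∈ D ∪ nb G D → ∀ t ∈ Dᶜ, t ∈ D ∪ nb G D → (f s = f t ↔ g s = g t) := by
    intro s hs hs' t ht ht'
    by_cases hst : s = t
    · subst hst
      exact ⟨fun _ => rfl, fun _ => rfl⟩
    · have hsN : s ∈ nb G D := hs'.resolve_left hs
      have htN : t ∈ nb G D := ht'.resolve_left ht
      have hadj := hclq s hsN t htN hst
      exact ⟨fun h => absurd h (hf' s hs t ht hadj), fun h => absurd h (hg' s hs' t ht' hadj)⟩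
  obtain ⟨h, hh, _, _⟩ := specGLU V G Dᶜ (D ∪ nb G D) f g hf' hg' h1 h2
  apply hcr.bad
  have hall : ∀ a : V, a ∈ Dᶜ ∪ (D ∪ nb G D) := by
    intro a
    by_cases ha : a ∈ D
    · exact Or.inr (Or.inl ha)
    · exact Or.inl ha
  exact ⟨h, fun a b hab => hh a (hall a) b (hall b) hab⟩

end Pool.Agent.Lib.MPc67b86.Q.OC
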