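import Pool.Agent.Lib.MP_c67b86_co.OC.Spec

/-!
# MP_c67b86_co, OC: the theorem from its parts
-/

set_option autoImplicit false

namespace Pool.Agent.Lib.MPc67b86.Q.OC

open Pool.Agent.Lib.MPc67b86

theorem specFIN (hSTA : SpecSTA) (hCAA : SpecCAA) (hCAB : SpecCAB) (hCAC : SpecCAC)
    (hMIN : SpecMIN) : SpecFIN := by
  classical
  intro nc V _ G X c hnc hX hB hcol
  by_contra hTK
  have := Fintype.ofFinite V
  -- enlarge `X`
  have hV : nc ≤ Fintype.card V := by
    by_contra hlt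
    rw [not_le] at hlt
    have h1 : Fintype.card V ≤ Fintype.card (Fin nc) := by rw [Fintype.card_fin]; omega
    obtain ⟨e⟩ := Function.Embedding.nonempty_of_card_le h1
    exact hcol ⟨e, fun u v huv h => huv.ne (e.injective h)⟩
  obtain ⟨Y, hXY, hY⟩ := Finset.exists_superset_card_eq hX (by rwa [Finset.card_univ] : nc ≤ (Finset.univ : Finset V).card)
  obtain ⟨G', hle, hcr, hT⟩ := hMIN nc V G hcol hTK
  have hB' : Bip G' Y c := fun u v hu hv huv =>
    hB u v (fun h => hu (hXY h)) (fun h => hv (hXY h)) (hle huv)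
  obtain ⟨x₀, hx₀, hS⟩ := hSTA nc V G' Y c (by omega) hY hB' hcr.bad
  apply hT
  by_cases h1 : ∃ i ∈ Y, i ≠ x₀ ∧ ¬ G'.Adj x₀ i
  · obtain ⟨i, hi, hi0, hia⟩ := h1
    by_cases h2 : ∃ j ∈ Y, i ≠ j ∧ j ≠ x₀ ∧ ¬ G'.Adj x₀ j
    · obtain ⟨j, hj, hij, hj0, hja⟩ := h2
      exact hCAC nc V G' Y c hB' hcr.bad hY x₀ hx₀ hS ⟨i, hi, j, hj, hij, hi0, hj0, hia, hja⟩
    · push Not at h2
      refine hCAB nc V G' Y c hnc hcr hB' hY x₀ hx₀ i hi hi0.symm hia ?_
      intro u hu v hv huv
      by_cases hu0 : u = x₀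
      · by_cases hvi : v = i
        · exact Or.inr (Or.inl ⟨hu0, hvi⟩)
        · left
          rw [hu0]
          exact h2 v hv (fun h => hvi h.symm) (fun h => huv (hu0.trans h.symm))
      · by_cases hv0 : v = x₀
        · by_cases hui : u = i
          · exact Or.inr (Or.inr ⟨hui, hv0⟩)
          · left
            rw [hv0]
            exact (h2 u hu (fun h => hui h.symm) hu0).symm
        · exact Or.inl (hS u hu v hv huv hu0 hv0)
  · push Not at h1
    refine hCAA nc V G' Y c (by omega) hcr hB' hY ?_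
    intro u hu v hv huv
    by_cases hu0 : u = x₀
    · rw [hu0]
      exact h1 v hv (fun h => huv (hu0.trans h.symm))
    · by_cases hv0 : v = x₀
      · rw [hv0]
        exact (h1 u hu hu0).symm
      · exact hS u hu v hv huv hu0 hv0

end Pool.Agent.Lib.MPc67b86.Q.OC
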