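import Pool.Agent.Lib.MP_c67b86_co.OC.Spec

/-!
# MP_c67b86_co, module MIN: passing to a critical subgraph
-/

set_option autoImplicit false

namespace Pool.Agent.Lib.MPc67b86.Q.OC

open Pool.Agent.Lib.MPc67b86

theorem specMIN : SpecMIN := by
  intro nc V _ G hC hT
  classical
  have hex : ∃ m : ℕ, ∃ G' : SimpleGraph V, G' ≤ G ∧ ¬ Col nc G' ∧ G'.edgeSet.ncard = m :=
    ⟨_, G, le_rfl, hC, rfl⟩
  obtain ⟨G', hle, hbad, hm⟩ := Nat.find_spec hex
  refine ⟨G', hle, ⟨hbad, ?_⟩, ?_⟩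
  · intro v w hvw
    have hle2 : res G' ({v}ᶜ : Set V) ≤ G' := fun a b h => h.1
    have hlt : (res G' ({v}ᶜ : Set V)).edgeSet.ncard < G'.edgeSet.ncard := by
      apply Set.ncard_lt_ncard _ (Set.toFinite _)
      refine Set.ssubset_iff_subset_ne.2 ⟨SimpleGraph.edgeSet_mono hle2, fun he => ?_⟩
      have h1 : s(v, w) ∈ G'.edgeSet := hvw
      rw [← he] at h1
      have h2 : (res G' ({v}ᶜ : Set V)).Adj v w := h1
      exact h2.2.1 rfl
    have hcol : Col nc (res G' ({v}ᶜ : Set V)) := by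
      by_contra hn
      exact Nat.find_min hex (m := (res G' ({v}ᶜ : Set V)).edgeSet.ncard) (by rw [← hm]; exact hlt)
        ⟨_, hle2.trans hle, hn, rfl⟩
    obtain ⟨f, hf⟩ := hcol
    exact ⟨f, fun a ha b hb hab => hf a b ⟨hab, ha, hb⟩⟩
  · rintro ⟨f, I, hinj, hk, hd, hl⟩
    refine hT ⟨f, I, hinj, hk, hd, fun i j hij => ?_⟩
    refine SimpleGraph.Reachable.mono ?_ (hl i j hij)
    intro a b hab
    exact ⟨hle hab.1, hab.2.1, hab.2.2⟩

end Pool.Agent.Lib.MPc67b86.Q.OC
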