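import Pool.Agent.Lib.MP_c67b86_co.OC.SpecB

/-!
# MP_c67b86_co, hive oc: module MIV

Passing to a critical induced subgraph.
-/

set_option autoImplicit false

namespace Pool.Agent.Lib.MPc67b86.Q.OC

open Pool.Agent.Lib.MPc67b86

namespace MIVM

variable {V : Type}

theorem res_le (G : SimpleGraph V) (A : Set V) : res G A ≤ G := fun _ _ h => h.1

theorem lk_mono {G' G : SimpleGraph V} (h : G' ≤ G) {x y : V} {I : Set V} (hl : Lk G' x y I) :
    Lk G x y I :=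
  SimpleGraph.Reachable.mono
    (show res G' (insert x (insert y I)) ≤ res G (insert x (insert y I)) from
      fun _ _ e => ⟨h e.1, e.2⟩) hl

theorem tk_mono {nc : ℕ} {G' G : SimpleGraph V} (h : G' ≤ G) (ht : TK nc G') : TK nc G := by
  obtain ⟨f, I, h1, h2, h3, h4⟩ := ht
  exact ⟨f, I, h1, h2, h3, fun i j hij => lk_mono h (h4 i j hij)⟩

end MIVM

open MIVM in
theorem specMIV : SpecMIV := by
  intro nc V _ G hcol htk
  classical
  have huniv : ¬ Col nc (res G Set.univ) := by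
    rintro ⟨f, hf⟩
    exact hcol ⟨f, fun u v huv => hf u v ⟨huv, Set.mem_univ _, Set.mem_univ _⟩⟩
  have hex : ∃ n : ℕ, ∃ U : Set V, U.ncard = n ∧ ¬ Col nc (res G U) := ⟨_, Set.univ, rfl, huniv⟩
  obtain ⟨U, hUn, hU⟩ := Nat.find_spec hex
  refine ⟨U, ⟨hU, ?_⟩, fun h => htk (tk_mono (res_le G U) h)⟩
  intro v w hvw
  have hvU : v ∈ U := hvw.2.1
  have hlt : (U \ {v}).ncard < U.ncard :=
    Set.ncard_lt_ncard ⟨Set.sdiff_subset, fun h => (h hvU).2 rfl⟩ (Set.toFinite U)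
  have hc : Col nc (res G (U \ {v})) := by
    by_contra hc
    exact Nat.find_min hex (m := (U \ {v}).ncard) (by rw [← hUn]; exact hlt) ⟨_, rfl, hc⟩
  obtain ⟨f, hf⟩ := hc
  refine ⟨f, ?_⟩
  intro a ha b hb hab
  exact hf a b ⟨hab.1, ⟨hab.2.1, ha⟩, ⟨hab.2.2, hb⟩⟩

end Pool.Agent.Lib.MPc67b86.Q.OC
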