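import Pool.Agent.Lib.MP_c67b86_co.OC.Spec

/-!
# MP_c67b86_co, module ONE: a clique with `nc` vertices and one more vertex
-/

set_option autoImplicit false

namespace Pool.Agent.Lib.MPc67b86.Q.OC

open Pool.Agent.Lib.MPc67b86

theorem specONE (hTKS : SpecTKS) (hFAN : SpecFAN) : SpecONE := by
  intro nc V _ G W u hW hcl hu
  classical
  by_cases hS : ∃ S : Set V, S.ncard < nc ∧ u ∉ S ∧ ∀ w ∈ W, w ∉ S → ¬ (res G Sᶜ).Reachable u w
  · exact Or.inr hS
  left
  push Not at hS
  obtain ⟨b, I, hb, hbW, hIW, huI, hII, hlk, -⟩ := hFAN V G u (W : Set V) nc (by simpa using hu)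
    (by
      intro T huT hT
      obtain ⟨w, hw, hwT, hr⟩ := hS T hT huT
      exact ⟨w, by simpa using hw, hwT, hr⟩)
  have hsurj : ∀ w ∈ W, ∃ j, b j = w := by
    have h1 : (Finset.univ.image b) ⊆ W := by
      intro x hx
      obtain ⟨j, -, rfl⟩ := Finset.mem_image.1 hx
      exact hbW j
    have h2 : (Finset.univ.image b) = W := by
      apply Finset.eq_of_subset_of_card_le h1
      rw [Finset.card_image_of_injective _ hb, Finset.card_univ, Fintype.card_fin, hW]
    intro w hw
    rw [← h2] at hw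
    obtain ⟨j, -, h⟩ := Finset.mem_image.1 hw
    exact ⟨j, h⟩
  refine hTKS nc V G (insert u W) (Fin nc) (fun _ => u) b I
    (by rw [Finset.card_insert_of_notMem hu, hW]) ?_ hII hlk ?_
  · intro j v hv
    rcases Finset.mem_insert.1 hv with rfl | hv
    · exact huI j
    · exact fun h => Set.disjoint_left.1 (hIW j) h hv
  · intro x hx y hy hxy
    rcases Finset.mem_insert.1 hx with hx1 | hx1
    · rcases Finset.mem_insert.1 hy with hy1 | hy1
      · exact absurd (hx1.trans hy1.symm) hxy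
      · obtain ⟨j, hj⟩ := hsurj y hy1
        exact Or.inr ⟨j, Or.inl ⟨hx1.symm, hj⟩⟩
    · rcases Finset.mem_insert.1 hy with hy1 | hy1
      · obtain ⟨j, hj⟩ := hsurj x hx1
        exact Or.inr ⟨j, Or.inr ⟨hy1.symm, hj⟩⟩
      · exact Or.inl (hcl x hx1 y hy1 hxy)

end Pool.Agent.Lib.MPc67b86.Q.OC
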