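import Pool.Agent.Lib.MP_c67b86_co.OC.Spec

/-!
# OC, module PAI: merging `x₀` and a non-neighbour `x₁`
-/

set_option autoImplicit false

namespace Pool.Agent.Lib.MPc67b86.Q.OC

open Pool.Agent.Lib.MPc67b86

theorem specPAI : SpecPAI := by
  classical
  intro nc V G X c hX hB hcol x₀ hx₀ x₁ hx₁ hne hnadj
  by_contra hno
  -- the colours
  let E : X ≃ Fin nc := X.equivFinOfCardEq hX
  let e : V → Fin nc := fun v => if h : v ∈ X then E ⟨v, h⟩ else E ⟨x₀, hx₀⟩
  have he : ∀ u ∈ X, ∀ v ∈ X, u ≠ v → e u ≠ e v := by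
    intro u hu v hv huv h
    simp only [e, dif_pos hu, dif_pos hv] at h
    have := E.injective h
    exact huv (congrArg Subtype.val this)
  have he01 : e x₁ ≠ e x₀ := he x₁ hx₁ x₀ hx₀ hne.symm
  let g : V → Fin nc := fun v => if v = x₀ then e x₁ else e v
  have hg0 : g x₀ = e x₁ := if_pos rfl
  have hg1 : ∀ v, v ≠ x₀ → g v = e v := fun v hv => if_neg hv
  have hgp : ∀ v ∈ X, g v ≠ e x₀ := by
    intro v hv
    by_cases h : v = x₀
    · rw [h, hg0]; exact he01
    · rw [hg1 v h]; exact he v hv x₀ hx₀ h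
  let good : V → Prop := fun w => w ∉ X ∧ (∀ x ∈ X, x ≠ x₀ → x ≠ x₁ → G.Adj w x) ∧
    (G.Adj w x₀ ∨ G.Adj w x₁)
  have hfree : ∀ w, ∃ q : Fin nc, w ∉ X → ¬ good w →
      q ≠ e x₀ ∧ ∀ x ∈ X, G.Adj w x → g x ≠ q := by
    intro w
    by_cases hw : w ∈ X
    · exact ⟨e x₀, fun h => absurd hw h⟩
    by_cases hgw : good w
    · exact ⟨e x₀, fun _ h => absurd hgw h⟩
    by_cases h1 : ∀ x ∈ X, x ≠ x₀ → x ≠ x₁ → G.Adj w x
    · have h2 : ¬ (G.Adj w x₀ ∨ G.Adj w x₁) := fun h => hgw ⟨hw, h1, h⟩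
      refine ⟨e x₁, fun _ _ => ⟨he01, ?_⟩⟩
      intro x hx hadj
      have hx0 : x ≠ x₀ := by rintro rfl; exact h2 (Or.inl hadj)
      have hx1 : x ≠ x₁ := by rintro rfl; exact h2 (Or.inr hadj)
      rw [hg1 x hx0]
      exact he x hx x₁ hx₁ hx1
    · push Not at h1
      obtain ⟨x, hx, hx0, hx1, hxw⟩ := h1
      refine ⟨e x, fun _ _ => ⟨he x hx x₀ hx₀ hx0, ?_⟩⟩
      intro x' hx' hadj
      have hxx : x' ≠ x := by rintro rfl; exact hxw hadj
      by_cases h : x' = x₀
      · rw [h, hg0]; exact he x₁ hx₁ x hx (Ne.symm hx1)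
      · rw [hg1 x' h]; exact he x' hx' x hx hxx
  choose h hh using hfree
  let T : V → Prop := fun w => ∃ y, good y ∧ c y = true ∧ (res G (X : Set V)ᶜ).Reachable y w
  have hT : ∀ u v, u ∉ X → v ∉ X → G.Adj u v → (T u → T v) := by
    rintro u v hu hv hadj ⟨y, hy1, hy2, hy3⟩
    refine ⟨y, hy1, hy2, hy3.trans (SimpleGraph.Adj.reachable ?_)⟩
    exact ⟨hadj, fun h => hu (Finset.mem_coe.1 h), fun h => hv (Finset.mem_coe.1 h)⟩
  have hng : ∀ v, v ∉ X → ¬ (c v = true ↔ T v) → ¬ good v := by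
    intro v hv hcv hgv
    by_cases hc : c v = true
    · exact hcv ⟨fun _ => ⟨v, hgv, hc, SimpleGraph.Reachable.refl _⟩, fun _ => hc⟩
    · have hTv : T v := by
        by_contra hT'
        exact hcv ⟨fun h => absurd h hc, fun h => absurd h hT'⟩
      obtain ⟨y, hy1, hy2, hy3⟩ := hTv
      refine hno ⟨y, v, hy1.1, hv, ?_, hy3, ?_, hy1.2.2, hgv.2.2⟩
      · rw [hy2]; exact fun h => hc h.symm
      · exact fun x hx h0 h1 => ⟨hy1.2.1 x hx h0 h1, hgv.2.1 x hx h0 h1⟩
  let f : V → Fin nc := fun v => if v ∈ X then g v else if (c v = true ↔ T v) then e x₀ else h v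
  have hfX : ∀ v ∈ X, f v = g v := fun v hv => if_pos hv
  have hfp : ∀ v, v ∉ X → (c v = true ↔ T v) → f v = e x₀ := by
    intro v hv hcv
    simp only [f, if_neg hv, if_pos hcv]
  have hfh : ∀ v, v ∉ X → ¬ (c v = true ↔ T v) → f v = h v := by
    intro v hv hcv
    simp only [f, if_neg hv, if_neg hcv]
  have hXV : ∀ u v, u ∈ X → v ∉ X → G.Adj u v → f u ≠ f v := by
    intro u v hu hv hadj
    rw [hfX u hu]
    by_cases hcv : (c v = true ↔ T v)
    · rw [hfp v hv hcv]
      exact hgp u hu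
    · rw [hfh v hv hcv]
      exact (hh v hv (hng v hv hcv)).2 u hu hadj.symm
  refine hcol ⟨f, ?_⟩
  intro u v hadj
  by_cases hu : u ∈ X
  · by_cases hv : v ∈ X
    · rw [hfX u hu, hfX v hv]
      have huv : u ≠ v := hadj.ne
      by_cases hu0 : u = x₀
      · have hv1 : v ≠ x₁ := by
          rintro rfl
          rw [hu0] at hadj
          exact hnadj hadj
        rw [hu0, hg0, hg1 v (fun h => huv (hu0.trans h.symm))]
        exact he x₁ hx₁ v hv (Ne.symm hv1)
      · by_cases hv0 : v = x₀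
        · have hu1 : u ≠ x₁ := by
            rintro rfl
            rw [hv0] at hadj
            exact hnadj hadj.symm
          rw [hv0, hg0, hg1 u hu0]
          exact he u hu x₁ hx₁ hu1
        · rw [hg1 u hu0, hg1 v hv0]
          exact he u hu v hv huv
    · exact hXV u v hu hv hadj
  · by_cases hv : v ∈ X
    · exact (hXV v u hv hu hadj.symm).symm
    · have hc := hB u v hu hv hadj
      have hTT : T u ↔ T v := ⟨hT u v hu hv hadj, hT v u hv hu hadj.symm⟩
      by_cases hcu : (c u = true ↔ T u)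
      · have hcv : ¬ (c v = true ↔ T v) := by
          intro hcv
          apply hc
          rw [Bool.eq_iff_iff, hcu, hcv]
          exact hTT
        rw [hfp u hu hcu, hfh v hv hcv]
        exact (hh v hv (hng v hv hcv)).1.symm
      · have hcv : (c v = true ↔ T v) := by
          by_contra hcv
          apply hc
          rw [Bool.eq_iff_iff]
          by_cases hTu : T u
          · have hTv : T v := hTT.1 hTu
            exact ⟨fun h1 => absurd ⟨fun _ => hTu, fun _ => h1⟩ hcu,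
              fun h1 => absurd ⟨fun _ => hTv, fun _ => h1⟩ hcv⟩
          · have hTv : ¬ T v := fun h1 => hTu (hTT.2 h1)
            have h2 : c u = true := by
              by_contra h1
              exact hcu ⟨fun h3 => absurd h3 h1, fun h3 => absurd h3 hTu⟩
            have h3 : c v = true := by
              by_contra h1
              exact hcv ⟨fun h3 => absurd h3 h1, fun h3 => absurd h3 hTv⟩
            exact ⟨fun _ => h3, fun _ => h2⟩
        rw [hfp v hv hcv, hfh u hu hcu]
        exact (hh u hu (hng u hu hcu)).1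

end Pool.Agent.Lib.MPc67b86.Q.OC
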