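import Pool.Agent.Lib.MP_c67b86_co.OC.SpecB

/-!
# OC, module S1P: a connected set which contains `x₀` and avoids `W` has at least `nc - 1` neighbours
-/

set_option autoImplicit false

namespace Pool.Agent.Lib.MPc67b86.Q.OC

open Pool.Agent.Lib.MPc67b86

namespace S1PM

theorem res_mono {V : Type} (G : SimpleGraph V) {A B : Set V} (h : A ⊆ B) : res G A ≤ res G B :=
  fun _ _ huv => ⟨huv.1, h huv.2.1, h huv.2.2⟩

/-- change a colouring of the complement of `D` on `D` -/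
theorem glue {nc : ℕ} {V : Type} {G : SimpleGraph V} {D : Set V} {f φ : V → Fin nc}
    (hf : IsCol G Dᶜ f) (h1 : ∀ u ∈ D, ∀ v ∈ D, G.Adj u v → φ u ≠ φ v)
    (h2 : ∀ u ∈ D, ∀ s ∈ nb G D, G.Adj u s → φ u ≠ f s) : Col nc G := by
  classical
  refine ⟨fun v => if v ∈ D then φ v else f v, ?_⟩
  intro u v huv
  by_cases hu : u ∈ D
  · by_cases hv : v ∈ D
    · simp only [if_pos hu, if_pos hv]
      exact h1 u hu v hv huv
    · simp only [if_pos hu, if_neg hv]
      exact h2 u hu v ⟨hv, u, hu, huv⟩ huv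
  · by_cases hv : v ∈ D
    · simp only [if_neg hu, if_pos hv]
      exact (h2 v hv u ⟨hu, v, hv, huv.symm⟩ huv.symm).symm
    · simp only [if_neg hu, if_neg hv]
      exact hf u hu v hv huv

/-- the colourings with `p`, `q` on `D \ {x₀}` and `r` at `x₀` -/
theorem easy {nc : ℕ} {V : Type} {G : SimpleGraph V} {D : Set V} {x₀ : V} {c : V → Bool}
    {f : V → Fin nc} (hf : IsCol G Dᶜ f)
    (hc : ∀ u ∈ D, u ≠ x₀ → ∀ v ∈ D, v ≠ x₀ → G.Adj u v → c u ≠ c v) {p q r : Fin nc}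
    (hpq : p ≠ q) (hp : ∀ s ∈ nb G D, f s ≠ p) (hq : ∀ s ∈ nb G D, f s ≠ q) (hrp : r ≠ p)
    (hrq : r ≠ q) (hr : ∀ s ∈ nb G D, G.Adj x₀ s → f s ≠ r) : Col nc G := by
  classical
  let φ : V → Fin nc := fun v => if v = x₀ then r else if c v = true then p else q
  have hφ0 : φ x₀ = r := if_pos rfl
  have hφ1 : ∀ v, v ≠ x₀ → φ v = if c v = true then p else q := fun v hv => if_neg hv
  have hφr : ∀ v, v ≠ x₀ → φ v ≠ r := by
    intro v hv
    rw [hφ1 v hv]
    split_ifs
    · exact hrp.symm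
    · exact hrq.symm
  refine glue (φ := φ) hf ?_ ?_
  · intro u hu v hv huv
    by_cases hu0 : u = x₀
    · have hv0 : v ≠ x₀ := fun h => huv.ne (hu0.trans h.symm)
      rw [hu0, hφ0]
      exact (hφr v hv0).symm
    · by_cases hv0 : v = x₀
      · rw [hv0, hφ0]
        exact hφr u hu0
      · have h := hc u hu hu0 v hv hv0 huv
        rw [hφ1 u hu0, hφ1 v hv0]
        cases hcu : c u
        · cases hcv : c v
          · exact absurd (hcu.trans hcv.symm) h
          · simp [hpq.symm]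
        · cases hcv : c v
          · simp [hpq]
          · exact absurd (hcu.trans hcv.symm) h
  · intro u hu s hs hus
    by_cases hu0 : u = x₀
    · rw [hu0, hφ0]
      rw [hu0] at hus
      exact (hr s hs hus).symm
    · rw [hφ1 u hu0]
      split_ifs
      · exact (hp s hs).symm
      · exact (hq s hs).symm

/-- `x₀` adjacent to all of `S`: two full vertices -/
theorem full {nc : ℕ} {V : Type} {G : SimpleGraph V} {D : Set V} {x₀ : V} {c : V → Bool}
    {f : V → Fin nc} (hf : IsCol G Dᶜ f)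
    (hc : ∀ u ∈ D, u ≠ x₀ → ∀ v ∈ D, v ≠ x₀ → G.Adj u v → c u ≠ c v) {p q : Fin nc}
    (hpq : p ≠ q) (hp : ∀ s ∈ nb G D, f s ≠ p) (hq : ∀ s ∈ nb G D, f s ≠ q)
    (hinj : ∀ s ∈ nb G D, ∀ t ∈ nb G D, s ≠ t → f s ≠ f t) (hcol : ¬ Col nc G) :
    ∃ y z, y ∈ D ∧ y ≠ x₀ ∧ z ∈ D ∧ z ≠ x₀ ∧ c y ≠ c z ∧ (res G (D \ {x₀})).Reachable y z ∧
      (G.Adj y x₀ ∧ ∀ s ∈ nb G D, G.Adj y s) ∧ (G.Adj z x₀ ∧ ∀ s ∈ nb G D, G.Adj z s) := by
  classical
  by_contra hno
  let good : V → Prop := fun w => w ∈ D ∧ w ≠ x₀ ∧ G.Adj w x₀ ∧ ∀ s ∈ nb G D, G.Adj w s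
  have hfree : ∀ w, ∃ r : Fin nc, w ∈ D → w ≠ x₀ → ¬ good w →
      r ≠ q ∧ (G.Adj w x₀ → r ≠ p) ∧ ∀ s ∈ nb G D, G.Adj w s → r ≠ f s := by
    intro w
    by_cases hw : w ∈ D ∧ w ≠ x₀
    · by_cases hgw : good w
      · exact ⟨p, fun _ _ h => absurd hgw h⟩
      · by_cases hw0 : G.Adj w x₀
        · have h1 : ∃ s ∈ nb G D, ¬ G.Adj w s := by
            by_contra hcon
            push Not at hcon
            exact hgw ⟨hw.1, hw.2, hw0, hcon⟩
          obtain ⟨s, hs, hws⟩ := h1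
          refine ⟨f s, fun _ _ _ => ⟨hq s hs, fun _ => hp s hs, fun t ht hwt => ?_⟩⟩
          apply hinj s hs t ht
          rintro rfl
          exact hws hwt
        · exact ⟨p, fun _ _ _ => ⟨hpq, fun h => absurd h hw0, fun s hs _ => (hp s hs).symm⟩⟩
    · exact ⟨p, fun h1 h2 => absurd ⟨h1, h2⟩ hw⟩
  choose h hh using hfree
  let T : V → Prop := fun w => ∃ y, good y ∧ c y = true ∧ (res G (D \ {x₀})).Reachable y w
  have hT : ∀ u v, u ∈ D → u ≠ x₀ → v ∈ D → v ≠ x₀ → G.Adj u v → (T u → T v) := by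
    rintro u v hu hu0 hv hv0 hadj ⟨y, hy1, hy2, hy3⟩
    refine ⟨y, hy1, hy2, hy3.trans (SimpleGraph.Adj.reachable ?_)⟩
    exact ⟨hadj, ⟨hu, hu0⟩, ⟨hv, hv0⟩⟩
  have hng : ∀ v, ¬ (c v = true ↔ T v) → ¬ good v := by
    intro v hcv hgv
    by_cases hc' : c v = true
    · exact hcv ⟨fun _ => ⟨v, hgv, hc', SimpleGraph.Reachable.refl _⟩, fun _ => hc'⟩
    · have hTv : T v := by
        by_contra hT'
        exact hcv ⟨fun h => absurd h hc', fun h => absurd h hT'⟩
      obtain ⟨y, hy1, hy2, hy3⟩ := hTv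
      refine hno ⟨y, v, hy1.1, hy1.2.1, hgv.1, hgv.2.1, ?_, hy3, hy1.2.2, hgv.2.2⟩
      rw [hy2]
      exact fun h => hc' h.symm
  let φ : V → Fin nc := fun v => if v = x₀ then p else if (c v = true ↔ T v) then q else h v
  have hφ0 : φ x₀ = p := if_pos rfl
  have hφq : ∀ v, v ≠ x₀ → (c v = true ↔ T v) → φ v = q := by
    intro v hv hcv
    simp only [φ, if_neg hv, if_pos hcv]
  have hφh : ∀ v, v ≠ x₀ → ¬ (c v = true ↔ T v) → φ v = h v := by
    intro v hv hcv
    simp only [φ, if_neg hv, if_neg hcv]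
  have hx : ∀ v ∈ D, v ≠ x₀ → G.Adj v x₀ → φ v ≠ p := by
    intro v hv hv0 hadj
    by_cases hcv : (c v = true ↔ T v)
    · rw [hφq v hv0 hcv]
      exact hpq.symm
    · rw [hφh v hv0 hcv]
      exact (hh v hv hv0 (hng v hcv)).2.1 hadj
  apply hcol
  refine glue (φ := φ) hf ?_ ?_
  · intro u hu v hv hadj
    by_cases hu0 : u = x₀
    · have hv0 : v ≠ x₀ := fun h => hadj.ne (hu0.trans h.symm)
      rw [hu0] at hadj
      rw [hu0, hφ0]
      exact (hx v hv hv0 hadj.symm).symm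
    · by_cases hv0 : v = x₀
      · rw [hv0] at hadj
        rw [hv0, hφ0]
        exact hx u hu hu0 hadj
      · have hcc := hc u hu hu0 v hv hv0 hadj
        have hTT : T u ↔ T v := ⟨hT u v hu hu0 hv hv0 hadj, hT v u hv hv0 hu hu0 hadj.symm⟩
        by_cases hcu : (c u = true ↔ T u)
        · have hcv : ¬ (c v = true ↔ T v) := by
            intro hcv
            apply hcc
            rw [Bool.eq_iff_iff, hcu, hcv]
            exact hTT
          rw [hφq u hu0 hcu, hφh v hv0 hcv]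
          exact (hh v hv hv0 (hng v hcv)).1.symm
        · have hcv : (c v = true ↔ T v) := by
            by_contra hcv
            apply hcc
            rw [Bool.eq_iff_iff]
            by_cases hTu : T u
            · have hTv : T v := hTT.1 hTu
              exact ⟨fun h1 => absurd ⟨fun _ => hTu, fun _ => h1⟩ hcu,
                fun h1 => absurd ⟨fun _ => hTv, fun _ => h1⟩ hcv⟩
            · have hTv : ¬ T v := fun h1 => hTu (hTT.2 h1)
              have h2 : c u = true := by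
                by_contra h1
                exact hcu ⟨fun h3 => absurd h3 h1, fun h3 => absurd h3 hTu⟩
              have h3 : c v = true := by
                by_contra h1
                exact hcv ⟨fun h3 => absurd h3 h1, fun h3 => absurd h3 hTv⟩
              exact ⟨fun _ => h3, fun _ => h2⟩
          rw [hφq v hv0 hcv, hφh u hu0 hcu]
          exact (hh u hu hu0 (hng u hcu)).1
  · intro u hu s hs hadj
    by_cases hu0 : u = x₀
    · rw [hu0, hφ0]
      exact (hp s hs).symm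
    · by_cases hcu : (c u = true ↔ T u)
      · rw [hφq u hu0 hcu]
        exact (hq s hs).symm
      · rw [hφh u hu0 hcu]
        exact (hh u hu hu0 (hng u hcu)).2.2 s hs hadj

end S1PM

open S1PM in
theorem specS1P (hTWO : SpecTWO) : SpecS1P := by
  classical
  intro nc V _ G W x₀ c hC hx D _ hx0 hWD
  by_contra hlt
  rw [not_le] at hlt
  obtain ⟨v₀, hv₀⟩ := hx
  obtain ⟨f, hf0⟩ := hC.cr.cr x₀ v₀ hv₀
  have hf : IsCol G Dᶜ f := by
    intro u hu v hv huv
    apply hf0 u _ v _ huv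
    · intro h
      rw [Set.mem_singleton_iff] at h
      exact hu (h ▸ hx0)
    · intro h
      rw [Set.mem_singleton_iff] at h
      exact hv (h ▸ hx0)
  have hDW : ∀ u ∈ D, u ∉ W := fun u hu hW => hWD u hW hu
  have hc : ∀ u ∈ D, u ≠ x₀ → ∀ v ∈ D, v ≠ x₀ → G.Adj u v → c u ≠ c v :=
    fun u hu hu0 v hv hv0 huv => hC.bip u v (hDW u hu) hu0 (hDW v hv) hv0 huv
  -- the colours of `S`
  let S : Finset V := (Set.toFinite (nb G D)).toFinset
  have hS : ∀ s, s ∈ S ↔ s ∈ nb G D := fun s => Set.Finite.mem_toFinset _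
  have hScard : S.card = (nb G D).ncard := (Set.ncard_eq_toFinset_card _ _).symm
  have hF1 : (S.image f).card ≤ S.card := Finset.card_image_le
  have hF2 : (S.image f)ᶜ.card = nc - (S.image f).card := by
    rw [Finset.card_compl, Fintype.card_fin]
  have hF3 : 1 < (S.image f)ᶜ.card := by omega
  obtain ⟨p, hp, q, hq, hpq⟩ := Finset.one_lt_card.1 hF3
  rw [Finset.mem_compl, Finset.mem_image] at hp hq
  push Not at hp hq
  have hp' : ∀ s ∈ nb G D, f s ≠ p := fun s hs => hp s ((hS s).2 hs)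
  have hq' : ∀ s ∈ nb G D, f s ≠ q := fun s hs => hq s ((hS s).2 hs)
  -- (a)
  by_cases ha : ∃ r, r ≠ p ∧ r ≠ q ∧ ∀ s ∈ nb G D, f s ≠ r
  · obtain ⟨r, hrp, hrq, hr⟩ := ha
    exact hC.cr.bad (easy hf hc hpq hp' hq' hrp hrq (fun s hs _ => hr s hs))
  -- (b)
  have hsub : (S.image f)ᶜ ⊆ {p, q} := by
    intro r hr
    rw [Finset.mem_compl, Finset.mem_image] at hr
    push Not at hr
    rw [Finset.mem_insert, Finset.mem_singleton]
    by_contra hcon
    rw [not_or] at hcon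
    exact ha ⟨r, hcon.1, hcon.2, fun s hs => hr s ((hS s).2 hs)⟩
  have hF4 : (S.image f)ᶜ.card ≤ 2 := (Finset.card_le_card hsub).trans Finset.card_le_two
  have hFS : (S.image f).card = S.card := by omega
  have hSnc : S.card + 1 + 1 = nc := by omega
  have hinj0 := Finset.card_image_iff.1 hFS
  have hinj : ∀ s ∈ nb G D, ∀ t ∈ nb G D, s ≠ t → f s ≠ f t := by
    intro s hs t ht hst h
    exact hst (hinj0 (Finset.mem_coe.2 ((hS s).2 hs)) (Finset.mem_coe.2 ((hS t).2 ht)) h)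
  -- (b1)
  by_cases hb : ∃ s' ∈ nb G D, ¬ G.Adj x₀ s'
  · obtain ⟨s', hs', hadj'⟩ := hb
    refine hC.cr.bad (easy (r := f s') hf hc hpq hp' hq' (hp' s' hs') (hq' s' hs') ?_)
    intro s hs hadj
    apply hinj s hs s' hs'
    rintro rfl
    exact hadj' hadj
  push Not at hb
  -- (b2)
  obtain ⟨y, z, hy, hy0, hz, hz0, hcyz, hyz, ⟨hyx, hyS⟩, ⟨hzx, hzS⟩⟩ :=
    full hf hc hpq hp' hq' hinj hC.cr.bad
  have hSW : ∀ s ∈ nb G D, s ∈ W := by
    intro s hs
    by_contra hsW
    have hs0 : s ≠ x₀ := by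
      rintro rfl
      exact hs.1 hx0
    have e1 := hC.bip y s (hDW y hy) hy0 hsW hs0 (hyS s hs)
    have e2 := hC.bip z s (hDW z hz) hz0 hsW hs0 (hzS s hs)
    revert e1 e2 hcyz
    cases c y <;> cases c z <;> cases c s <;> simp
  have hx0S : x₀ ∉ S := fun h => ((hS x₀).1 h).1 hx0
  have hK : ∀ v, v ∈ insert x₀ S ↔ v = x₀ ∨ v ∈ nb G D := by
    intro v
    rw [Finset.mem_insert, hS]
  refine hC.noTK (hTWO nc V G (insert x₀ S) y z ?_ ?_ ?_ ?_ ?_ ?_ ?_)
  · rw [Finset.card_insert_of_notMem hx0S]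
    exact hSnc
  · intro v hv w hw hvw
    rcases (hK v).1 hv with h1 | h1
    · rcases (hK w).1 hw with h2 | h2
      · exact absurd (h1.trans h2.symm) hvw
      · rw [h1]
        exact hb w h2
    · rcases (hK w).1 hw with h2 | h2
      · rw [h2]
        exact (hb v h1).symm
      · exact hC.clq v (hSW v h1) w (hSW w h2) hvw
  · intro h
    rcases (hK y).1 h with h1 | h1
    · exact hy0 h1
    · exact h1.1 hy
  · intro h
    rcases (hK z).1 h with h1 | h1
    · exact hz0 h1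
    · exact h1.1 hz
  · intro h
    exact hcyz (by rw [h])
  · intro v hv
    rcases (hK v).1 hv with h1 | h1
    · rw [h1]
      exact ⟨hyx, hzx⟩
    · exact ⟨hyS v h1, hzS v h1⟩
  · refine hyz.mono (res_mono G ?_)
    rintro v ⟨hv, hv0⟩ hvK
    rcases (hK v).1 (Finset.mem_coe.1 hvK) with h1 | h1
    · exact hv0 h1
    · exact h1.1 hv

end Pool.Agent.Lib.MPc67b86.Q.OC
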