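import Pool.Agent.Lib.MP_c67b86_co.OC.Spec

/-!
# Module SEN: small separations of a critical graph with a side disjoint from `X`
-/

set_option autoImplicit false

namespace Pool.Agent.Lib.MPc67b86.Q.OC

open Pool.Agent.Lib.MPc67b86

namespace SENM

variable {V : Type} {G : SimpleGraph V}

theorem reach_notMem {S : Set V} {u v : V} (hu : u ∉ S) (h : (res G Sᶜ).Reachable u v) : v ∉ S := by
  obtain ⟨p⟩ := h
  induction p with
  | nil => exact hu
  | cons hadj _ ih => exact ih hadj.2.2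

theorem reach_step {S : Set V} {u v x : V} (hu : u ∉ S) (h : (res G Sᶜ).Reachable u v)
    (hvx : G.Adj v x) (hx : x ∉ S) : (res G Sᶜ).Reachable u x := by
  have h1 : (res G Sᶜ).Adj v x := ⟨hvx, reach_notMem hu h, hx⟩
  exact h.trans h1.reachable

/-- `w` sees all colours except `p` in `S` -/
def Full {nc : ℕ} (G : SimpleGraph V) (S : Set V) (f : V → Fin nc) (p : Fin nc) (w : V) : Prop :=
  ∀ q : Fin nc, q ≠ p → ∃ s ∈ S, G.Adj w s ∧ f s = q

theorem exists_full {nc : ℕ} {X : Finset V} {c : V → Bool} (hbad : ¬ Col nc G) (hB : Bip G X c)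
    {D S : Set V} (hDX : ∀ v ∈ D, v ∉ X) (hnb : ∀ v ∈ D, ∀ x, G.Adj v x → x ∈ D ∨ x ∈ S)
    (f : V → Fin nc) (hf : ∀ a, a ∉ D → ∀ b, b ∉ D → G.Adj a b → f a ≠ f b) (hSD : ∀ s ∈ S, s ∉ D)
    (p : Fin nc) (hp : ∀ s ∈ S, f s ≠ p) (b : Bool) : ∃ w ∈ D, c w = b ∧ Full G S f p w := by
  classical
  by_contra hno
  push Not at hno
  have hfree : ∀ w, w ∈ D → c w = b → ∃ q : Fin nc, q ≠ p ∧ ∀ s ∈ S, G.Adj w s → f s ≠ q := by
    intro w hw hb
    have h := hno w hw hb
    unfold Full at h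
    push Not at h
    obtain ⟨q, hq, h2⟩ := h
    exact ⟨q, hq, fun s hs ha => h2 s hs ha⟩
  haveI : Nonempty (Fin nc) := ⟨p⟩
  choose! q hq1 hq2 using hfree
  apply hbad
  refine ⟨fun v => if v ∈ D then (if c v = b then q v else p) else f v, ?_⟩
  intro a d had
  by_cases ha : a ∈ D
  · by_cases hd : d ∈ D
    · have h := hB a d (hDX a ha) (hDX d hd) had
      simp only [ha, hd, if_true]
      by_cases h1 : c a = b
      · have h2 : ¬ c d = b := fun h2 => h (h1.trans h2.symm)
        rw [if_pos h1, if_neg h2]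
        exact hq1 a ha h1
      · have h2 : c d = b := by
          revert h h1
          cases c a <;> cases c d <;> cases b <;> simp
        rw [if_neg h1, if_pos h2]
        exact (hq1 d hd h2).symm
    · have hdS : d ∈ S := (hnb a ha d had).resolve_left hd
      simp only [ha, hd, if_true, if_false]
      by_cases h1 : c a = b
      · rw [if_pos h1]
        exact (hq2 a ha h1 d hdS had).symm
      · rw [if_neg h1]
        exact (hp d hdS).symm
  · by_cases hd : d ∈ D
    · have haS : a ∈ S := (hnb d hd a had.symm).resolve_left ha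
      simp only [ha, hd, if_true, if_false]
      by_cases h1 : c d = b
      · rw [if_pos h1]
        exact hq2 d hd h1 a haS had.symm
      · rw [if_neg h1]
        exact hp a haS
    · simp only [ha, hd, if_false]
      exact hf a ha d hd had

theorem full_card [Finite V] {nc : ℕ} {S : Set V} {f : V → Fin nc} {p : Fin nc} {w : V}
    (hS : S.ncard < nc) (h : Full G S f p w) : S.ncard + 1 = nc ∧ ∀ s ∈ S, G.Adj w s := by
  classical
  set N : Set V := {s | s ∈ S ∧ G.Adj w s} with hN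
  have hNS : N ⊆ S := fun s hs => hs.1
  have h1 : ({p}ᶜ : Set (Fin nc)) ⊆ f '' N := by
    intro q hq
    obtain ⟨s, hs, ha, e⟩ := h q (by simpa using hq)
    exact ⟨s, ⟨hs, ha⟩, e⟩
  have h2 : ({p}ᶜ : Set (Fin nc)).ncard = nc - 1 := by
    rw [Set.ncard_compl, Set.ncard_singleton, Nat.card_eq_fintype_card, Fintype.card_fin]
  have h3 : ({p}ᶜ : Set (Fin nc)).ncard ≤ (f '' N).ncard := Set.ncard_le_ncard h1 (Set.toFinite _)
  have h4 : (f '' N).ncard ≤ N.ncard := Set.ncard_image_le (Set.toFinite _)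
  have h5 : N.ncard ≤ S.ncard := Set.ncard_le_ncard hNS (Set.toFinite _)
  refine ⟨by omega, ?_⟩
  have h6 : N = S := Set.eq_of_subset_of_ncard_le hNS (by omega) (Set.toFinite _)
  intro s hs
  rw [← h6] at hs
  exact hs.2

end SENM

open SENM in
theorem specSEN : SpecSEN := by
  classical
  intro nc V _ G X c hcr hB S u w hS hu huw hX
  set D : Set V := {v | (res G Sᶜ).Reachable u v} with hD
  have huD : u ∈ D := SimpleGraph.Reachable.refl u
  have hDS : ∀ v ∈ D, v ∉ S := fun v hv => reach_notMem hu hv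
  have hSD : ∀ s ∈ S, s ∉ D := fun s hs hd => hDS s hd hs
  have hDX : ∀ v ∈ D, v ∉ X := fun v hv hx => hX v hx (hDS v hv) hv
  have hnb : ∀ v ∈ D, ∀ x, G.Adj v x → x ∈ D ∨ x ∈ S := by
    intro v hv x hvx
    by_cases hx : x ∈ S
    · exact Or.inr hx
    · exact Or.inl (reach_step hu hv hvx hx)
  obtain ⟨f, hf⟩ := hcr.cr u w huw
  have hf' : ∀ a, a ∉ D → ∀ b, b ∉ D → G.Adj a b → f a ≠ f b := by
    intro a ha b hb hab
    refine hf a ?_ b ?_ hab
    · intro h
      exact ha (by rw [Set.mem_singleton_iff.1 h]; exact huD)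
    · intro h
      exact hb (by rw [Set.mem_singleton_iff.1 h]; exact huD)
  obtain ⟨p, hp⟩ : ∃ p : Fin nc, ∀ s ∈ S, f s ≠ p := by
    by_contra hno
    push Not at hno
    have h1 : (Set.univ : Set (Fin nc)) ⊆ f '' S := by
      intro q _
      obtain ⟨s, hs, e⟩ := hno q
      exact ⟨s, hs, e⟩
    have h2 : (Set.univ : Set (Fin nc)).ncard ≤ (f '' S).ncard :=
      Set.ncard_le_ncard h1 (Set.toFinite _)
    have h3 : (f '' S).ncard ≤ S.ncard := Set.ncard_image_le (Set.toFinite _)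
    rw [Set.ncard_univ, Nat.card_eq_fintype_card, Fintype.card_fin] at h2
    omega
  obtain ⟨y, hyD, hyc, hyF⟩ := exists_full hcr.bad hB hDX hnb f hf' hSD p hp true
  obtain ⟨z, hzD, hzc, hzF⟩ := exists_full hcr.bad hB hDX hnb f hf' hSD p hp false
  obtain ⟨hcard, hyS⟩ := full_card hS hyF
  obtain ⟨_, hzS⟩ := full_card hS hzF
  refine ⟨hcard, ?_, y, z, hyD, hzD, by rw [hyc, hzc]; decide, fun s hs => ⟨hyS s hs, hzS s hs⟩⟩
  intro s hs
  by_contra hsX
  have hsX' : s ∉ X := hsX
  have h1 := hB y s (hDX y hyD) hsX' (hyS s hs)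
  have h2 := hB z s (hDX z hzD) hsX' (hzS s hs)
  rw [hyc] at h1
  rw [hzc] at h2
  revert h1 h2
  cases c s <;> simp

end Pool.Agent.Lib.MPc67b86.Q.OC
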