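import Pool.Agent.Lib.MP_c67b86_co.OC.Spec

/-!
# Module STA: `X` is a clique up to one vertex
-/

set_option autoImplicit false

namespace Pool.Agent.Lib.MPc67b86.Q.OC

open Pool.Agent.Lib.MPc67b86

namespace STAM

variable {V : Type} {G : SimpleGraph V} {X : Finset V} {c : V → Bool} {nc : ℕ}

/-- a colouring of `X` which misses two colours extends -/
theorem extend (hB : Bip G X c) (g : V → Fin nc) (p q : Fin nc) (hpq : p ≠ q)
    (hg : ∀ u ∈ X, ∀ v ∈ X, G.Adj u v → g u ≠ g v) (hp : ∀ v ∈ X, g v ≠ p)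
    (hq : ∀ v ∈ X, g v ≠ q) : Col nc G := by
  classical
  refine ⟨fun v => if v ∈ X then g v else if c v = true then p else q, ?_⟩
  intro u v huv
  by_cases hu : u ∈ X
  · by_cases hv : v ∈ X
    · simp only [hu, hv, if_true]
      exact hg u hu v hv huv
    · simp only [hu, hv, if_true, if_false]
      split_ifs
      · exact hp u hu
      · exact hq u hu
  · by_cases hv : v ∈ X
    · simp only [hu, hv, if_true, if_false]
      split_ifs
      · exact (hp v hv).symm
      · exact (hq v hv).symm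
    · have h := hB u v hu hv huv
      simp only [hu, hv, if_false]
      cases h1 : c u <;> cases h2 : c v <;> simp [h1, h2] at h ⊢
      · exact hpq.symm
      · exact hpq

/-- two merges in `X` give a colouring -/
theorem merge (hnc : 1 ≤ nc) (hX : X.card = nc) (hB : Bip G X c) {b q x y : V} (hb : b ∈ X)
    (hq : q ∈ X) (hx : x ∈ X) (hy : y ∈ X) (hbq : b ≠ q) (hxb : x ≠ b) (hxq : x ≠ q)
    (hyb : y ≠ b) (hyq : y ≠ q) (h1 : ¬ G.Adj b x) (h2 : ¬ G.Adj q y)
    (h3 : x = y → ¬ G.Adj b q) : Col nc G := by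
  classical
  obtain ⟨e, he⟩ : ∃ e : V → Fin nc, ∀ u ∈ X, ∀ v ∈ X, e u = e v → u = v := by
    refine ⟨fun v => if h : v ∈ X then X.equivFinOfCardEq hX ⟨v, h⟩ else ⟨0, hnc⟩, ?_⟩
    intro u hu v hv huv
    simp only [hu, hv, dite_true] at huv
    have h4 := (X.equivFinOfCardEq hX).injective huv
    exact congrArg Subtype.val h4
  have hm : ∀ v ∈ X, (if v = b then x else if v = q then y else v) ∈ X := by
    intro v hv
    split_ifs
    · exact hx
    · exact hy
    · exact hv
  have hmb : ∀ v, (if v = b then x else if v = q then y else v) ≠ b := by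
    intro v
    split_ifs with h5 h6
    · exact hxb
    · exact hyb
    · exact h5
  have hmq : ∀ v, (if v = b then x else if v = q then y else v) ≠ q := by
    intro v
    split_ifs with h5 h6
    · exact hxq
    · exact hyq
    · exact h6
  refine extend hB (fun v => e (if v = b then x else if v = q then y else v)) (e b) (e q)
    (fun h => hbq (he b hb q hq h)) ?_ (fun v hv h => hmb v (he _ (hm v hv) b hb h))
    (fun v hv h => hmq v (he _ (hm v hv) q hq h))
  intro u hu v hv huv h
  have h4 := he _ (hm u hu) _ (hm v hv) h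
  clear h hmb hmq hm he
  split_ifs at h4 with c1 c2 c3 c4 c5 c6 c7 c8
  · subst c1
    subst c2
    exact huv.ne rfl
  · subst c1
    subst c3
    exact h3 h4 huv
  · subst c1
    subst h4
    exact h1 huv
  · subst c4
    subst c5
    exact h3 h4.symm huv.symm
  · subst c4
    subst c6
    exact huv.ne rfl
  · subst c4
    subst h4
    exact h2 huv
  · subst c7
    subst h4
    exact h1 huv.symm
  · subst c8
    subst h4
    exact h2 huv.symm
  · exact huv.ne h4

/-- no star: a pair which avoids `x` -/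
theorem pair_of_not_star {x : V} (h : ¬ Star G X x) :
    ∃ u ∈ X, ∃ v ∈ X, u ≠ v ∧ u ≠ x ∧ v ≠ x ∧ ¬ G.Adj u v := by
  unfold Star at h
  push Not at h
  obtain ⟨u, hu, v, hv, h1, h2, h3, h4⟩ := h
  exact ⟨u, hu, v, hv, h1, h2, h3, h4⟩

end STAM

theorem specSTA : SpecSTA := by
  intro nc V G X c hnc hX hB hcol
  by_contra hcon
  push Not at hcon
  obtain ⟨z, hz⟩ : X.Nonempty := by
    rw [← Finset.card_pos]
    omega
  obtain ⟨a, ha, b, hb, hab, -, -, hnab⟩ := STAM.pair_of_not_star (hcon z hz)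
  -- a pair which avoids `a`
  obtain ⟨p, hp, q, hq, hpq, hpa, hqa, hnpq⟩ := STAM.pair_of_not_star (hcon a ha)
  -- a pair which avoids `b`
  obtain ⟨r, hr, s, hs, hrs, hrb, hsb, hnrs⟩ := STAM.pair_of_not_star (hcon b hb)
  have key1 : ∃ t ∈ X, t ≠ a ∧ t ≠ b ∧ ¬ G.Adj b t := by
    by_cases h1 : p = b
    · subst h1
      exact ⟨q, hq, hqa, hpq.symm, hnpq⟩
    · by_cases h2 : q = b
      · subst h2
        exact ⟨p, hp, hpa, hpq, fun h => hnpq h.symm⟩
      · exact absurd (STAM.merge hnc hX hB hb hq ha hp (Ne.symm h2) hab (Ne.symm hqa) h1 hpq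
          (fun h => hnab h.symm) (fun h => hnpq h.symm) (fun h => absurd h.symm hpa)) hcol
  have key2 : ∃ t ∈ X, t ≠ a ∧ t ≠ b ∧ ¬ G.Adj a t := by
    by_cases h1 : r = a
    · subst h1
      exact ⟨s, hs, hrs.symm, hsb, hnrs⟩
    · by_cases h2 : s = a
      · subst h2
        exact ⟨r, hr, hrs, hrb, fun h => hnrs h.symm⟩
      · exact absurd (STAM.merge hnc hX hB ha hs hb hr (Ne.symm h2) hab.symm (Ne.symm hsb) h1 hrs
          hnab (fun h => hnrs h.symm) (fun h => absurd h.symm hrb)) hcol
  obtain ⟨t, ht, hta, htb, hnt⟩ := key1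
  obtain ⟨t', ht', hta', htb', hnt'⟩ := key2
  by_cases h : t = t'
  · subst h
    exact hcol (STAM.merge hnc hX hB hb ht ha ha (Ne.symm htb) hab (Ne.symm hta) hab
      (Ne.symm hta) (fun h => hnab h.symm) (fun h => hnt' h.symm) (fun _ => hnt))
  · exact hcol (STAM.merge hnc hX hB hb ha ht ht' hab.symm htb hta htb' hta' hnt hnt'
      (fun h1 => absurd h1 h))

end Pool.Agent.Lib.MPc67b86.Q.OC
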