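import Pool.Agent.Lib.MP_c67b86_co.OC.SpecB
import Pool.Agent.Lib.MP_c67b86_co.OC.CAB

/-!
# MP_c67b86_co, OC: theorem 2 from its parts, and the version for the components of `G - K`
-/

set_option autoImplicit false

namespace Pool.Agent.Lib.MPc67b86.Q.OC

open Pool.Agent.Lib.MPc67b86

theorem T2FM.big (hTKS : SpecTKS) (nc : ℕ) (V : Type) (G : SimpleGraph V) (K : Finset V)
    (hK : ∀ u ∈ K, ∀ v ∈ K, u ≠ v → G.Adj u v) (hcard : nc + 1 ≤ K.card) : TK nc G := by
  obtain ⟨R, hRK, hR⟩ := Finset.exists_subset_card_eq hcard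
  refine hTKS nc V G R Empty (fun j => j.elim) (fun j => j.elim) (fun j => j.elim) hR
    (fun j => j.elim) (fun j => j.elim) (fun j => j.elim) ?_
  intro u hu v hv huv
  exact Or.inl (hK u (hRK hu) v (hRK hv) huv)

theorem specT2F (hTKS : SpecTKS) (hFIN : SpecFIN) (hMIV : SpecMIV) (hUNC : SpecUNC) : SpecT2F := by
  classical
  intro nc V _ G K x c hnc hK hB hcol
  by_contra hTK
  have hbip : Bip G (insert x K) c := by
    intro u v hu hv huv
    rw [Finset.mem_insert, not_or] at hu hv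
    exact hB u v hu.2 hu.1 hv.2 hv.1 huv
  rcases lt_trichotomy K.card nc with hlt | heq | hgt
  · refine hTK (hFIN nc V G (insert x K) c hnc ?_ hbip hcol)
    exact (Finset.card_insert_le _ _).trans hlt
  · by_cases hxK : x ∈ K
    · refine hTK (hFIN nc V G (insert x K) c hnc ?_ hbip hcol)
      rw [Finset.insert_eq_of_mem hxK]
      exact heq.le
    obtain ⟨U, hcr, hT⟩ := hMIV nc V G hcol hTK
    by_cases hKU : ∀ v ∈ K, v ∈ U
    · refine hUNC nc V (res G U) K x c ⟨hcr, hT, hnc, heq, ?_, hxK, ?_⟩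
      · intro u hu v hv huv
        exact ⟨hK u hu v hv huv, hKU u hu, hKU v hv⟩
      · intro u v hu hux hv hvx huv
        exact hB u v hu hux hv hvx huv.1
    · push Not at hKU
      obtain ⟨w, hwK, hwU⟩ := hKU
      refine hT (hFIN nc V (res G U) (insert x (K.erase w)) c hnc ?_ ?_ hcr.bad)
      · refine (Finset.card_insert_le _ _).trans ?_
        rw [Finset.card_erase_of_mem hwK]
        have := Finset.card_pos.2 ⟨w, hwK⟩
        omega
      · intro u v hu hv huv
        rw [Finset.mem_insert, not_or, Finset.mem_erase, not_and] at hu hv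
        refine hB u v (fun h => ?_) hu.1 (fun h => ?_) hv.1 huv.1
        · have h1 : u ≠ w := fun e => hwU (e ▸ huv.2.1)
          exact hu.2 h1 h
        · have h1 : v ≠ w := fun e => hwU (e ▸ huv.2.2)
          exact hv.2 h1 h
  · exact hTK (T2FM.big hTKS nc V G K hK hgt)

/-- Theorem 3: every component of `G - K` becomes bipartite by deleting one vertex. -/
def MainC : Prop :=
  ∀ (nc : ℕ) (V : Type) [Finite V] (G : SimpleGraph V) (K : Finset V), 2 ≤ nc →
    (∀ u ∈ K, ∀ v ∈ K, u ≠ v → G.Adj u v) →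
    (∀ u, u ∉ K → ∃ (x : V) (c : V → Bool), ∀ v w, (res G (K : Set V)ᶜ).Reachable u v →
      (res G (K : Set V)ᶜ).Reachable u w → v ≠ x → w ≠ x → G.Adj v w → c v ≠ c w) →
    ¬ Col nc G → TK nc G

theorem specT3F (hTKS : SpecTKS) (hMIV : SpecMIV) (hCLC : SpecCLC) (hT2F : SpecT2F) : MainC := by
  classical
  intro nc V _ G K hnc hK hB hcol
  by_contra hTK
  obtain ⟨U, hcr, hT⟩ := hMIV nc V G hcol hTK
  have hKc : K.card ≤ nc := by
    by_contra h
    exact hTK (T2FM.big hTKS nc V G K hK (by omega))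
  -- a vertex outside `K` which is not isolated
  have h1 : ∃ u u' : V, u ∉ K ∧ (res G U).Adj u u' := by
    by_contra hno
    push Not at hno
    have h2 : Fintype.card K ≤ Fintype.card (Fin nc) := by simpa using hKc
    obtain ⟨e⟩ := Function.Embedding.nonempty_of_card_le h2
    refine hcr.bad ⟨fun v => if h : v ∈ K then e ⟨v, h⟩ else ⟨0, by omega⟩, ?_⟩
    intro u v huv
    have hu : u ∈ K := by
      by_contra h
      exact hno u v h huv
    have hv : v ∈ K := by
      by_contra h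
      exact hno v u h huv.symm
    show (if h : u ∈ K then e ⟨u, h⟩ else ⟨0, by omega⟩) ≠
      (if h : v ∈ K then e ⟨v, h⟩ else ⟨0, by omega⟩)
    rw [dif_pos hu, dif_pos hv]
    intro h
    have := e.injective h
    rw [Subtype.mk.injEq] at this
    exact huv.ne this
  obtain ⟨u, u', huK, huu'⟩ := h1
  set G' := res G U with hG'
  let D : Set V := {v | (res G' (K : Set V)ᶜ).Reachable u v}
  have hDK : ∀ v ∈ D, v ∉ K := by
    intro v hv
    exact CABM.reach_mem (A := (K : Set V)ᶜ) (show u ∈ (K : Set V)ᶜ from huK) hv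
  have hnb : ∀ v ∈ nb G' D, v ∈ K := by
    rintro v ⟨hvD, w, hwD, hwv⟩
    by_contra hvK
    refine hvD ?_
    have hw : (res G' (K : Set V)ᶜ).Reachable u w := hwD
    exact hw.trans (SimpleGraph.Adj.reachable ⟨hwv, hDK w hwD, hvK⟩)
  obtain ⟨x, c, hc⟩ := hB u huK
  have hle : res G' (K : Set V)ᶜ ≤ res G (K : Set V)ᶜ := fun a b h => ⟨h.1.1, h.2⟩
  have hall : ∀ w w', G'.Adj w w' → w ∈ D ∨ w ∈ nb G' D := by
    intro w w' hww'
    by_contra hno
    rw [not_or] at hno
    refine hCLC nc V G' D u u' w w' hcr (SimpleGraph.Reachable.refl _) huu' hno.1 hno.2 hww' ?_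
    intro s hs t ht hst
    have hsK := hnb s hs
    have htK := hnb t ht
    obtain ⟨-, a, -, has⟩ := hs
    obtain ⟨-, b, -, hbt⟩ := ht
    exact ⟨hK s hsK t htK hst, has.2.2, hbt.2.2⟩
  have hin : ∀ v w, v ∉ K → G'.Adj v w → v ∈ D := by
    intro v w hv hvw
    rcases hall v w hvw with h | h
    · exact h
    · exact absurd (hnb v h) hv
  refine hT (hT2F nc V G' (K.filter (· ∈ U)) x c hnc ?_ ?_ hcr.bad)
  · intro a ha b hb hab
    rw [Finset.mem_filter] at ha hb
    exact ⟨hK a ha.1 b hb.1 hab, ha.2, hb.2⟩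
  · intro a b ha hax hb hbx hab
    have haK : a ∉ K := fun h => ha (Finset.mem_filter.2 ⟨h, hab.2.1⟩)
    have hbK : b ∉ K := fun h => hb (Finset.mem_filter.2 ⟨h, hab.2.2⟩)
    have haD : (res G' (K : Set V)ᶜ).Reachable u a := hin a b haK hab
    have hbD : (res G' (K : Set V)ᶜ).Reachable u b := hin b a hbK hab.symm
    exact hc a b (haD.mono hle) (hbD.mono hle) hax hbx hab.1

end Pool.Agent.Lib.MPc67b86.Q.OC
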