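import Pool.Agent.Lib.MP_c67b86_co.OC.Spec

/-!
# MP_c67b86_co, module TWO
-/

set_option autoImplicit false

namespace Pool.Agent.Lib.MPc67b86.Q.OC

open Pool.Agent.Lib.MPc67b86

theorem specTWO (hTKS : SpecTKS) : SpecTWO := by
  intro nc V G K y z hcard hK hy hz hyz hadj hreach
  classical
  have hR : ∀ v, v ∈ insert y (insert z K) ↔ v = y ∨ v = z ∨ v ∈ K := by
    intro v
    simp
  refine hTKS nc V G (insert y (insert z K)) Unit (fun _ => y) (fun _ => z)
    (fun _ => ((insert y (insert z K) : Finset V) : Set V)ᶜ) ?_ ?_ ?_ ?_ ?_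
  · rw [Finset.card_insert_of_notMem, Finset.card_insert_of_notMem hz]
    · omega
    · simp only [Finset.mem_insert, not_or]
      exact ⟨hyz, hy⟩
  · intro _ v hv hv'
    exact hv' (by exact_mod_cast hv)
  · intro j k hjk
    exact absurd (Subsingleton.elim j k) hjk
  · intro _
    unfold Lk
    have hs : insert y (insert z (((insert y (insert z K) : Finset V) : Set V)ᶜ)) = (K : Set V)ᶜ := by
      ext v
      simp only [Set.mem_insert_iff, Set.mem_compl_iff, Finset.coe_insert, Finset.mem_coe, not_or]
      constructor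
      · rintro (h | h | h)
        · rw [h]; exact hy
        · rw [h]; exact hz
        · exact h.2.2
      · intro h
        by_cases h1 : v = y
        · exact Or.inl h1
        · by_cases h2 : v = z
          · exact Or.inr (Or.inl h2)
          · exact Or.inr (Or.inr ⟨h1, h2, h⟩)
    rw [hs]
    exact hreach
  · intro u hu v hv huv
    rw [hR] at hu hv
    rcases hu with rfl | rfl | hu <;> rcases hv with rfl | rfl | hv
    · exact absurd rfl huv
    · exact Or.inr ⟨(), Or.inl ⟨rfl, rfl⟩⟩
    · exact Or.inl (hadj v hv).1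
    · exact Or.inr ⟨(), Or.inr ⟨rfl, rfl⟩⟩
    · exact absurd rfl huv
    · exact Or.inl (hadj v hv).2
    · exact Or.inl (hadj u hu).1.symm
    · exact Or.inl (hadj u hu).2.symm
    · exact Or.inl (hK u hu v hv huv)

end Pool.Agent.Lib.MPc67b86.Q.OC
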