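import Pool.Agent.Lib.MP_c67b86_co.OC.SpecB

/-!
# MP_c67b86_co, module UNC
-/

set_option autoImplicit false

namespace Pool.Agent.Lib.MPc67b86.Q.OC

open Pool.Agent.Lib.MPc67b86

namespace UNCM

variable {V : Type}

theorem reach_mono {G : SimpleGraph V} {A B : Set V} (h : A ⊆ B) {u v : V}
    (huv : (res G A).Reachable u v) : (res G B).Reachable u v := by
  have hle : res G A ≤ res G B := fun _ _ huv => ⟨huv.1, h huv.2.1, h huv.2.2⟩
  exact huv.mono hle

theorem reach_mem {G : SimpleGraph V} {A : Set V} {u v : V} (hu : u ∈ A)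
    (h : (res G A).Reachable u v) : v ∈ A := by
  obtain ⟨p⟩ := h
  induction p with
  | nil => exact hu
  | cons h p ih => exact ih h.2.2

theorem reach_in {G : SimpleGraph V} {A : Set V} {u v w : V} (huv : (res G A).Reachable u v)
    (h : (res G A).Reachable v w) :
    (res G {x | (res G A).Reachable u x}).Reachable v w := by
  obtain ⟨p⟩ := h
  induction p with
  | nil => exact SimpleGraph.Reachable.refl _
  | cons h p ih =>
    have h1 := huv.trans h.reachable
    exact SimpleGraph.Reachable.trans (SimpleGraph.Adj.reachable ⟨h.1, huv, h1⟩) (ih h1)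

theorem cn_reach (G : SimpleGraph V) (A : Set V) (u : V) :
    Cn G {v | (res G A).Reachable u v} :=
  ⟨u, SimpleGraph.Reachable.refl _, fun _ hv => reach_in (SimpleGraph.Reachable.refl _) hv⟩

theorem nb_reach (G : SimpleGraph V) (S : Set V) (u : V) (hu : u ∉ S) :
    nb G {v | (res G Sᶜ).Reachable u v} ⊆ S := by
  rintro v ⟨hv, a, ha, hav⟩
  by_contra hvS
  have haS : a ∈ Sᶜ := reach_mem hu ha
  exact hv (SimpleGraph.Reachable.trans ha (SimpleGraph.Adj.reachable ⟨hav, haS, hvS⟩))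

theorem cn_from {G : SimpleGraph V} {D : Set V} (h : Cn G D) {x : V} (hx : x ∈ D) {v : V}
    (hv : v ∈ D) : (res G D).Reachable x v := by
  obtain ⟨a, -, hr⟩ := h
  exact (hr x hx).symm.trans (hr v hv)

theorem exists_adj {G : SimpleGraph V} {D : Set V} {x v : V} (h : (res G D).Reachable x v)
    (hne : x ≠ v) : ∃ w, G.Adj x w := by
  obtain ⟨p⟩ := h
  cases p with
  | nil => exact absurd rfl hne
  | cons h p => exact ⟨_, h.1⟩

/-- step (1) -/
theorem dset (hONE : SpecONE) (hALP : SpecALP) (nc : ℕ) [Finite V] (G : SimpleGraph V)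
    (W : Finset V) (x₀ : V) (c : V → Bool) (h : Cas nc G W x₀ c) (u u' : V) (hu : u ∉ W)
    (huu : G.Adj u u') :
    ∃ D : Set V, Cn G D ∧ u ∈ D ∧ x₀ ∈ D ∧ (∀ w ∈ W, w ∉ D) ∧ (nb G D).ncard < nc := by
  rcases hONE nc V G W u h.card h.clq hu with hTK | ⟨S, hS, huS, hsep⟩
  · exact absurd hTK h.noTK
  · have hW : ∀ w ∈ W, w ∉ {v | (res G Sᶜ).Reachable u v} := by
      intro w hw hwD
      have hwS : w ∈ Sᶜ := reach_mem huS hwD
      exact hsep w hw hwS hwD
    have hlt : (nb G {v | (res G Sᶜ).Reachable u v}).ncard < nc :=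
      (Set.ncard_le_ncard (nb_reach G S u huS) S.toFinite).trans_lt hS
    refine ⟨{v | (res G Sᶜ).Reachable u v}, cn_reach G Sᶜ u, SimpleGraph.Reachable.refl _, ?_, hW,
      hlt⟩
    by_contra hx
    exact hALP nc V G W x₀ c h _ u u' (cn_reach G Sᶜ u) (SimpleGraph.Reachable.refl _) huu hx hW hlt

/-- some vertex outside `W` is not isolated -/
theorem exists_out (nc : ℕ) (G : SimpleGraph V) (W : Finset V) (x₀ : V) (c : V → Bool)
    (h : Cas nc G W x₀ c) : ∃ u u', u ∉ W ∧ G.Adj u u' := by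
  classical
  by_contra hcon
  push Not at hcon
  apply h.cr.bad
  have hpos : 0 < nc := by have := h.two; omega
  let e : W ≃ Fin nc := Finset.equivFinOfCardEq h.card
  refine ⟨fun v => if hv : v ∈ W then e ⟨v, hv⟩ else ⟨0, hpos⟩, ?_⟩
  intro u v huv
  have hu : u ∈ W := by
    by_contra hu
    exact hcon u v hu huv
  have hv : v ∈ W := by
    by_contra hv
    exact hcon v u hv huv.symm
  simp only [hu, hv, dif_pos]
  intro heq
  have := e.injective heq
  exact huv.ne (congrArg Subtype.val this)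

theorem union_cn {G : SimpleGraph V} {A B : Set V} {x : V} (hA : Cn G A) (hB : Cn G B)
    (hxA : x ∈ A) (hxB : x ∈ B) : Cn G (A ∪ B) := by
  refine ⟨x, Or.inl hxA, ?_⟩
  rintro v (hv | hv)
  · exact reach_mono Set.subset_union_left (cn_from hA hxA hv)
  · exact reach_mono Set.subset_union_right (cn_from hB hxB hv)

/-- submodularity of the number of neighbours -/
theorem submod [Finite V] (G : SimpleGraph V) (A B : Set V) (x : V) (hxA : x ∈ A) (hxB : x ∈ B) :
    (nb G (A ∪ B)).ncard + (nb G {v | (res G (A ∩ B)).Reachable x v}).ncard ≤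
      (nb G A).ncard + (nb G B).ncard := by
  have hE : ∀ v, (res G (A ∩ B)).Reachable x v → v ∈ A ∩ B := fun v hv => reach_mem ⟨hxA, hxB⟩ hv
  rw [← Set.ncard_union_add_ncard_inter _ _ (Set.toFinite _) (Set.toFinite _),
    ← Set.ncard_union_add_ncard_inter (nb G A) (nb G B) (Set.toFinite _) (Set.toFinite _)]
  refine Nat.add_le_add (Set.ncard_le_ncard ?_ (Set.toFinite _))
    (Set.ncard_le_ncard ?_ (Set.toFinite _))
  · rintro v (⟨hv, a, ha, hav⟩ | ⟨hv, a, ha, hav⟩)
    · rcases ha with ha | ha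
      · exact Or.inl ⟨fun h => hv (Or.inl h), a, ha, hav⟩
      · exact Or.inr ⟨fun h => hv (Or.inr h), a, ha, hav⟩
    · have haE := hE a ha
      by_cases hvA : v ∈ A
      · have hvB : v ∉ B := by
          intro hvB
          exact hv (SimpleGraph.Reachable.trans ha
            (SimpleGraph.Adj.reachable ⟨hav, haE, hvA, hvB⟩))
        exact Or.inr ⟨hvB, a, haE.2, hav⟩
      · exact Or.inl ⟨hvA, a, haE.1, hav⟩
  · rintro v ⟨⟨hv, -⟩, ⟨-, a, ha, hav⟩⟩
    have haE := hE a ha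
    exact ⟨⟨fun h => hv (Or.inl h), a, haE.1, hav⟩, ⟨fun h => hv (Or.inr h), a, haE.2, hav⟩⟩

end UNCM

open UNCM in
theorem specUNC (hONE : SpecONE) (hCLC : SpecCLC) (hS1P : SpecS1P) (hALP : SpecALP) : SpecUNC := by
  classical
  intro nc V _ G W x₀ c h
  obtain ⟨u, u', hu, huu⟩ := exists_out nc G W x₀ c h
  obtain ⟨D, hD, huD, hxD, hWD, hnD⟩ := dset hONE hALP nc G W x₀ c h u u' hu huu
  -- `x₀` is not isolated
  obtain ⟨x', hx'⟩ : ∃ v, G.Adj x₀ v := by
    by_cases hux : x₀ = u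
    · exact ⟨u', hux ▸ huu⟩
    · exact exists_adj (cn_from hD hxD huD) hux
  -- a maximal set
  obtain ⟨A, ⟨hA, hxA, hWA, hnA⟩, hmax⟩ := Set.exists_max_image
    {A : Set V | Cn G A ∧ x₀ ∈ A ∧ (∀ w ∈ W, w ∉ A) ∧ (nb G A).ncard < nc} Set.ncard
    (Set.toFinite _) ⟨D, hD, hxD, hWD, hnD⟩
  -- a neighbour outside `W`
  obtain ⟨s, hsA, hsW⟩ : ∃ s ∈ nb G A, s ∉ W := by
    by_contra hcon
    push Not at hcon
    obtain ⟨w, hw, hwn⟩ : ∃ w ∈ W, w ∉ nb G A := by
      by_contra hc2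
      push Not at hc2
      have h1 : (W : Set V).ncard ≤ (nb G A).ncard :=
        Set.ncard_le_ncard (fun w hw => hc2 w (by exact_mod_cast hw)) (Set.toFinite _)
      rw [Set.ncard_coe_finset, h.card] at h1
      omega
    obtain ⟨w', hw', hne⟩ := Finset.exists_mem_ne (s := W) (by rw [h.card]; exact h.two) w
    exact hCLC nc V G A x₀ x' w w' h.cr hxA hx' (hWA w hw) hwn (h.clq w hw w' hw' hne.symm)
      (fun s hs t ht hst => h.clq s (hcon s hs) t (hcon t ht) hst)
  obtain ⟨hsA', a, -, has⟩ := hsA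
  obtain ⟨B, hB, hsB, hxB, hWB, hnB⟩ := dset hONE hALP nc G W x₀ c h s a hsW has.symm
  have hE := hS1P nc V G W x₀ c h ⟨x', hx'⟩ {v | (res G (A ∩ B)).Reachable x₀ v}
    (cn_reach G (A ∩ B) x₀) (SimpleGraph.Reachable.refl _)
    (fun w hw hwE => hWA w hw (reach_mem (A := A ∩ B) ⟨hxA, hxB⟩ hwE).1)
  have hsub := submod G A B x₀ hxA hxB
  have hle := hmax (A ∪ B) ⟨union_cn hA hB hxA hxB, Or.inl hxA,
    fun w hw hwAB => hwAB.elim (hWA w hw) (hWB w hw), by omega⟩
  have hlt : A.ncard < (A ∪ B).ncard := by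
    apply Set.ncard_lt_ncard _ (Set.toFinite _)
    refine ⟨Set.subset_union_left, fun hsub' => hsA' (hsub' (Or.inr hsB))⟩
  omega

end Pool.Agent.Lib.MPc67b86.Q.OC
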