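import Pool.Agent.Lib.MP_c67b86_co.OC.TKS
import Pool.Agent.Lib.MP_c67b86_co.OC.STA
import Pool.Agent.Lib.MP_c67b86_co.OC.PAI
import Pool.Agent.Lib.MP_c67b86_co.OC.SEN
import Pool.Agent.Lib.MP_c67b86_co.OC.ONE
import Pool.Agent.Lib.MP_c67b86_co.OC.TWO
import Pool.Agent.Lib.MP_c67b86_co.OC.CAA
import Pool.Agent.Lib.MP_c67b86_co.OC.CAB
import Pool.Agent.Lib.MP_c67b86_co.OC.C1P
import Pool.Agent.Lib.MP_c67b86_co.OC.C2P
import Pool.Agent.Lib.MP_c67b86_co.OC.CAC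
import Pool.Agent.Lib.MP_c67b86_co.OC.MIN
import Pool.Agent.Lib.MP_c67b86_co.OC.FIN
import Pool.Agent.Lib.MP_c67b86_co.OC.MIV
import Pool.Agent.Lib.MP_c67b86_co.OC.CLC
import Pool.Agent.Lib.MP_c67b86_co.OC.S1P
import Pool.Agent.Lib.MP_c67b86_co.OC.ALP
import Pool.Agent.Lib.MP_c67b86_co.OC.UNC
import Pool.Agent.Lib.MP_c67b86_co.OC.T2F
import Pool.Agent.Lib.MP_c67b86_co.All

/-!
# MP_c67b86_co, OC: everything together
-/

set_option autoImplicit false

namespace Pool.Agent.Lib.MPc67b86.Q.OC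

open Pool.Agent.Lib.MPc67b86

theorem mTKS : SpecTKS := specTKS
theorem mSTA : SpecSTA := specSTA
theorem mPAI : SpecPAI := specPAI
theorem mSEN : SpecSEN := specSEN
theorem mONE : SpecONE := specONE mTKS allFAN
theorem mTWO : SpecTWO := specTWO mTKS
theorem mCAA : SpecCAA := specCAA mSEN mONE mTWO
theorem mCAB : SpecCAB := specCAB mTKS mPAI mSEN mONE mTWO
theorem mC1P : SpecC1P := specC1P mTKS
theorem mC2P : SpecC2P := specC2P mTKS
theorem mCAC : SpecCAC := specCAC mPAI mTWO mC1P mC2P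
theorem mMIN : SpecMIN := specMIN
theorem mFIN : SpecFIN := specFIN mSTA mCAA mCAB mCAC mMIN
theorem mMIV : SpecMIV := specMIV
theorem mCLC : SpecCLC := specCLC
theorem mS1P : SpecS1P := specS1P mTWO
theorem mALP : SpecALP := specALP mTKS mSEN mTWO allFAN
theorem mUNC : SpecUNC := specUNC mONE mCLC mS1P mALP
theorem mT2F : SpecT2F := specT2F mTKS mFIN mMIV mUNC
theorem mMainC : MainC := specT3F mTKS mMIV mCLC mT2F

end Pool.Agent.Lib.MPc67b86.Q.OC
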