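import Pool.Agent.Lib.MP_c67b86_co.OC.SpecP
import Pool.Agent.Lib.MP_c67b86_co.OC.CAB

/-!
# MP_c67b86_co, OC: module COR
-/

set_option autoImplicit false

namespace Pool.Agent.Lib.MPc67b86.Q.OC

open Pool.Agent.Lib.MPc67b86

theorem specCOR (hONE : SpecONE) (hFAM : SpecFAM) (hSTB : SpecSTB) : SpecCOR := by
  classical
  intro nc V _ G x f hnc hLev hf hcol
  by_contra hTK
  have h1 : ∀ W : Finset V, Clq G nc W → x ∉ W →
      ∃ A B : Set V, Sp nc G x A B ∧ ∀ w ∈ W, w ∈ B := by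
    intro W hW hxW
    rcases hONE nc V G W x hW.1 hW.2 hxW with h | ⟨S, hS, hxS, hr⟩
    · exact absurd h hTK
    let D : Set V := {v | (res G Sᶜ).Reachable x v}
    have hDS : ∀ v ∈ D, v ∉ S := fun v hv =>
      CABM.reach_mem (A := Sᶜ) (show x ∈ Sᶜ from hxS) hv
    refine ⟨D ∪ S, Dᶜ, ⟨?_, ?_, ?_, ?_⟩, ?_⟩
    · intro v
      by_cases hv : v ∈ D
      · exact Or.inl (Or.inl hv)
      · exact Or.inr hv
    · intro u v hu huB hv hvA huv
      have huD : u ∈ D := by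
        by_contra h
        exact huB h
      have hvS : v ∉ S := fun h => hvA (Or.inr h)
      have hu' : (res G Sᶜ).Reachable x u := huD
      exact hv (hu'.trans (SimpleGraph.Adj.reachable ⟨huv, hDS u huD, hvS⟩))
    · intro h
      exact h (SimpleGraph.Reachable.refl _)
    · refine lt_of_le_of_lt (Set.ncard_le_ncard ?_ (Set.toFinite _)) hS
      rintro v ⟨hv | hv, hvD⟩
      · exact absurd hv hvD
      · exact hv
    · intro w hw hwD
      exact hr w hw (hDS w hwD) hwD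
  obtain ⟨F, hF, hFF, hFW⟩ := hFAM nc V G x h1
  choose! I hI1 hI2 hI3 using fun p (hp : p ∈ F) => hSTB nc V G x p.1 p.2 f (hF p hp) hf
  let J : Set V := {v | ∃ p ∈ F, v ∈ I p}
  have hJst : ∀ u ∈ J, ∀ v ∈ J, ¬ G.Adj u v := by
    rintro u ⟨p, hp, hu⟩ v ⟨q, hq, hv⟩ huv
    by_cases hpq : p = q
    · subst hpq
      exact hI2 p hp u hu v hv huv
    · have hvA : v ∈ p.1 := hFF q hq p hp (Ne.symm hpq) (hI1 q hq hv).1
      have hvB : v ∉ p.2 := fun h => (hI1 q hq hv).2 (hFF p hp q hq hpq h)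
      exact (hF p hp).ed v u hvA hvB (hI1 p hp hu).1 (hI1 p hp hu).2 huv.symm
  have hJx : ∀ u ∈ J, ¬ G.Adj x u := by
    rintro u ⟨p, hp, hu⟩ h
    have hxA : x ∈ p.1 := ((hF p hp).cov x).resolve_right (hF p hp).x
    exact (hF p hp).ed x u hxA (hF p hp).x (hI1 p hp hu).1 (hI1 p hp hu).2 h
  obtain ⟨g, hg⟩ := hLev ({x}ᶜ \ J) Set.sdiff_subset (by
    intro W hW
    by_cases hxW : x ∈ W
    · exact ⟨x, hxW, fun h => h.1 rfl⟩
    · obtain ⟨p, hp, hWp⟩ := hFW W hW hxW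
      obtain ⟨w, hw, hwI⟩ := hI3 p hp W hW hWp
      exact ⟨w, hw, fun h => h.2 ⟨p, hp, hwI⟩⟩)
  apply hcol
  refine ⟨fun v => if v = x ∨ v ∈ J then ⟨nc - 1, by omega⟩ else ⟨(g v).1, by
    have := (g v).2
    omega⟩, ?_⟩
  intro u v huv
  have key : ∀ u v, G.Adj u v → (u = x ∨ u ∈ J) → ¬ (v = x ∨ v ∈ J) := by
    rintro u v huv (rfl | hu) (hv | hv)
    · exact huv.ne hv.symm
    · exact hJx v hv huv
    · rw [hv] at huv
      exact hJx u hu huv.symm
    · exact hJst u hu v hv huv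
  show (if u = x ∨ u ∈ J then (⟨nc - 1, by omega⟩ : Fin nc) else ⟨(g u).1, by
    have := (g u).2
    omega⟩) ≠ (if v = x ∨ v ∈ J then (⟨nc - 1, by omega⟩ : Fin nc) else ⟨(g v).1, by
    have := (g v).2
    omega⟩)
  by_cases hu : u = x ∨ u ∈ J
  · rw [if_pos hu, if_neg (key u v huv hu)]
    intro h
    have h2 := congrArg Fin.val h
    have := (g v).2
    simp only at h2
    omega
  · by_cases hv : v = x ∨ v ∈ J
    · rw [if_neg hu, if_pos hv]
      intro h
      have h2 := congrArg Fin.val h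
      have := (g u).2
      simp only at h2
      omega
    · rw [if_neg hu, if_neg hv]
      intro h
      have h2 := congrArg Fin.val h
      rw [not_or] at hu hv
      exact hg u ⟨hu.1, hu.2⟩ v ⟨hv.1, hv.2⟩ huv (Fin.ext h2)

end Pool.Agent.Lib.MPc67b86.Q.OC
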