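import Pool.Agent.Lib.MP_c67b86_co.OC.SpecP

/-!
# The uncrossed family of separations
-/

set_option autoImplicit false

namespace Pool.Agent.Lib.MPc67b86.Q.OC

open Pool.Agent.Lib.MPc67b86

namespace FAMM

/-- an admissible family -/
def Adm (nc : ℕ) {V : Type} (G : SimpleGraph V) (x : V) (F : Finset (Set V × Set V)) : Prop :=
  (∀ p ∈ F, Sp nc G x p.1 p.2) ∧
    ∀ W : Finset V, Clq G nc W → x ∉ W → ∃ p ∈ F, ∀ w ∈ W, w ∈ p.2

/-- the weight of a pair -/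
noncomputable def wt {V : Type} (p : Set V × Set V) : ℕ := p.2.ncard + (p.1ᶜ).ncard + 1

theorem wt_lt {V : Type} [Finite V] (p q : Set V × Set V) (h : ¬ p.2 ⊆ q.1 ∨ ¬ q.2 ⊆ p.1) :
    wt ((q.1 ∪ p.2, q.2 ∩ p.1) : Set V × Set V) < wt q := by
  have l1 : (q.2 ∩ p.1).ncard ≤ q.2.ncard := Set.ncard_le_ncard Set.inter_subset_left
  have l2 : ((q.1 ∪ p.2)ᶜ).ncard ≤ (q.1ᶜ).ncard :=
    Set.ncard_le_ncard (Set.compl_subset_compl.mpr Set.subset_union_left)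
  show (q.2 ∩ p.1).ncard + ((q.1 ∪ p.2)ᶜ).ncard + 1 < q.2.ncard + (q.1ᶜ).ncard + 1
  rcases h with h | h
  · obtain ⟨v, hv, hv'⟩ := Set.not_subset.mp h
    have : ((q.1 ∪ p.2)ᶜ).ncard < (q.1ᶜ).ncard := by
      refine Set.ncard_lt_ncard ?_ (Set.toFinite _)
      refine ⟨Set.compl_subset_compl.mpr Set.subset_union_left, fun hs => ?_⟩
      exact hs hv' (Or.inr hv)
    omega
  · obtain ⟨v, hv, hv'⟩ := Set.not_subset.mp h
    have : (q.2 ∩ p.1).ncard < q.2.ncard := by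
      refine Set.ncard_lt_ncard ?_ (Set.toFinite _)
      exact ⟨Set.inter_subset_left, fun hs => hv' (hs hv).2⟩
    omega

theorem clique_side {nc : ℕ} {V : Type} {G : SimpleGraph V} {x : V} {A B : Set V}
    (h : Sp nc G x A B) (W : Finset V) (hW : Clq G nc W) :
    (∀ w ∈ W, w ∈ B) ∨ ∀ w ∈ W, w ∈ A := by
  by_contra hcon
  push Not at hcon
  obtain ⟨⟨w, hw, hwB⟩, w', hw', hwA⟩ := hcon
  have hA : w ∈ A := (h.cov w).resolve_right hwB
  have hB : w' ∈ B := (h.cov w').resolve_left hwA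
  have hne : w ≠ w' := fun e => hwB (e ▸ hB)
  exact h.ed w w' hA hwB hB hwA (hW.2 w hw w' hw' hne)

open Classical in
theorem step {nc : ℕ} {V : Type} [Finite V] {G : SimpleGraph V} {x : V}
    {F : Finset (Set V × Set V)} (hF : Adm nc G x F) (p q : Set V × Set V) (hp : p ∈ F)
    (hq : q ∈ F) (hpq : p ≠ q) (h : ¬ p.2 ⊆ q.1 ∨ ¬ q.2 ⊆ p.1)
    (hs : Sp nc G x (q.1 ∪ p.2) (q.2 ∩ p.1)) :
    ∃ F' : Finset (Set V × Set V), Adm nc G x F' ∧ ∑ r ∈ F', wt r < ∑ r ∈ F, wt r := by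
  refine ⟨insert (q.1 ∪ p.2, q.2 ∩ p.1) (F.erase q), ⟨?_, ?_⟩, ?_⟩
  · intro r hr
    rcases Finset.mem_insert.mp hr with rfl | hr
    · exact hs
    · exact hF.1 r (Finset.mem_of_mem_erase hr)
  · intro W hW hxW
    obtain ⟨r, hr, hrW⟩ := hF.2 W hW hxW
    by_cases hrq : r = q
    · subst hrq
      rcases clique_side (hF.1 p hp) W hW with h1 | h1
      · exact ⟨p, Finset.mem_insert_of_mem (Finset.mem_erase.mpr ⟨hpq, hp⟩), h1⟩
      · exact ⟨_, Finset.mem_insert_self _ _, fun w hw => ⟨hrW w hw, h1 w hw⟩⟩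
    · exact ⟨r, Finset.mem_insert_of_mem (Finset.mem_erase.mpr ⟨hrq, hr⟩), hrW⟩
  · have hlt := wt_lt p q h
    have hsum : ∑ r ∈ F, wt r = wt q + ∑ r ∈ F.erase q, wt r :=
      (Finset.add_sum_erase F wt hq).symm
    have hle : ∑ r ∈ insert ((q.1 ∪ p.2, q.2 ∩ p.1) : Set V × Set V) (F.erase q), wt r ≤
        wt ((q.1 ∪ p.2, q.2 ∩ p.1) : Set V × Set V) + ∑ r ∈ F.erase q, wt r := by
      by_cases hm : ((q.1 ∪ p.2, q.2 ∩ p.1) : Set V × Set V) ∈ F.erase q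
      · rw [Finset.insert_eq_of_mem hm]
        exact Nat.le_add_left _ _
      · rw [Finset.sum_insert hm]
    omega

end FAMM

theorem specFAM (hU : SpecUNX) : SpecFAM := by
  classical
  intro nc V _ G x hyp
  have hne : {F : Finset (Set V × Set V) | FAMM.Adm nc G x F}.Nonempty := by
    have hfin : {p : Set V × Set V | Sp nc G x p.1 p.2}.Finite := Set.toFinite _
    refine ⟨hfin.toFinset, ?_, ?_⟩
    · intro p hp
      exact (Set.Finite.mem_toFinset hfin).mp hp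
    · intro W hW hxW
      obtain ⟨A, B, hs, hB⟩ := hyp W hW hxW
      exact ⟨(A, B), (Set.Finite.mem_toFinset hfin).mpr hs, hB⟩
  obtain ⟨F, hF, hmin⟩ := (measure (fun F : Finset (Set V × Set V) => ∑ r ∈ F, FAMM.wt r)).wf.has_min
    {F : Finset (Set V × Set V) | FAMM.Adm nc G x F} hne
  refine ⟨F, hF.1, ?_, hF.2⟩
  intro p hp q hq hpq
  by_contra hcon
  rcases hU nc V G x p.1 p.2 q.1 q.2 (hF.1 p hp) (hF.1 q hq) with hs | hs
  · obtain ⟨F', hF', hlt⟩ := FAMM.step hF q p hq hp (Ne.symm hpq) (Or.inr hcon) hs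
    exact hmin F' hF' hlt
  · obtain ⟨F', hF', hlt⟩ := FAMM.step hF p q hp hq hpq (Or.inl hcon) hs
    exact hmin F' hF' hlt

end Pool.Agent.Lib.MPc67b86.Q.OC
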