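import Pool.Agent.Lib.MP_c67b86_co.OC.SpecP

/-!
# MP_c67b86_co, module PEF: theorem 4 (one vertex and a perfect rest)
-/

set_option autoImplicit false

namespace Pool.Agent.Lib.MPc67b86.Q.OC

open Pool.Agent.Lib.MPc67b86

namespace PEFM

/-- the hypothesis passes to an induced subgraph -/
theorem lev_res {nc : ℕ} {V : Type} {G : SimpleGraph V} {A : Set V} (h : Lev nc G A) (U : Set V) :
    Lev nc (res G U) A := by
  intro A' hA' hno
  obtain ⟨g, hg⟩ := h (A' ∩ U) (fun v hv => hA' hv.1) (by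
    intro W hW
    by_contra hcon
    push Not at hcon
    have hW' : Clq (res G U) nc W :=
      ⟨hW.1, fun u hu v hv huv => ⟨hW.2 u hu v hv huv, (hcon u hu).2, (hcon v hv).2⟩⟩
    obtain ⟨w, hw, hwA⟩ := hno W hW'
    exact hwA (hcon w hw).1)
  exact ⟨g, fun u hu v hv huv => hg u ⟨hu, huv.2.1⟩ v ⟨hv, huv.2.2⟩ huv.1⟩

/-- an isolated vertex does not matter -/
theorem lev_iso {nc : ℕ} {V : Type} {G : SimpleGraph V} {x : V} (h : Lev nc G {x}ᶜ)
    (hx : ∀ w, ¬ G.Adj x w) (A : Set V) : Lev nc G A := by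
  intro A' _ hno
  obtain ⟨g, hg⟩ := h (A' \ {x}) (fun v hv => hv.2) (by
    intro W hW
    obtain ⟨w, hw, hwA⟩ := hno W hW
    exact ⟨w, hw, fun h' => hwA h'.1⟩)
  refine ⟨g, fun u hu v hv huv => hg u ⟨hu, ?_⟩ v ⟨hv, ?_⟩ huv⟩
  · intro he
    rw [Set.mem_singleton_iff] at he
    rw [he] at huv
    exact hx v huv
  · intro he
    rw [Set.mem_singleton_iff] at he
    rw [he] at huv
    exact hx u huv.symm

end PEFM

open PEFM in
theorem specPEF (hMIV : SpecMIV) (hCOR : SpecCOR) : SpecPEF := by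
  intro nc V _ G x hnc hLev hCol
  by_contra hTK
  obtain ⟨U, hCr, hTK'⟩ := hMIV nc V G hCol hTK
  have hLev' : Lev nc (res G U) {x}ᶜ := lev_res hLev U
  by_cases hx : ∃ w, (res G U).Adj x w
  · obtain ⟨w, hw⟩ := hx
    obtain ⟨f, hf⟩ := hCr.cr x w hw
    exact hTK' (hCOR nc V (res G U) x f (by omega) hLev' hf hCr.bad)
  · push Not at hx
    have hedge : ∃ x' w', (res G U).Adj x' w' := by
      by_contra hcon
      push Not at hcon
      exact hCr.bad ⟨fun _ => ⟨0, by omega⟩, fun u v huv => absurd huv (hcon u v)⟩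
    obtain ⟨x', w', hxw⟩ := hedge
    obtain ⟨f, hf⟩ := hCr.cr x' w' hxw
    exact hTK' (hCOR nc V (res G U) x' f (by omega) (lev_iso hLev' hx _) hf hCr.bad)

end Pool.Agent.Lib.MPc67b86.Q.OC
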