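import Pool.Agent.Lib.MP_c67b86_co.OC.SpecP

/-!
# MP_c67b86_co, module STB: a stable set in the far side of a separation
-/

set_option autoImplicit false

namespace Pool.Agent.Lib.MPc67b86.Q.OC

open Pool.Agent.Lib.MPc67b86

theorem specSTB : SpecSTB := by
  classical
  intro nc V _ G x A B f hS hf
  -- a colour which does not occur on `A ∩ B`
  have hcard : (f '' (A ∩ B)).ncard < nc :=
    (Set.ncard_image_le (Set.toFinite _)).trans_lt hS.lt
  have hj : ∃ j : Fin nc, j ∉ f '' (A ∩ B) := by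
    by_contra hcon
    push Not at hcon
    have h1 : f '' (A ∩ B) = Set.univ := Set.eq_univ_of_forall hcon
    rw [h1, Set.ncard_univ, Nat.card_eq_fintype_card, Fintype.card_fin] at hcard
    exact lt_irrefl _ hcard
  obtain ⟨j, hj⟩ := hj
  refine ⟨{v | v ∈ B ∧ f v = j}, ?_, ?_, ?_⟩
  · rintro v ⟨hvB, hvj⟩
    refine ⟨hvB, fun hvA => hj ⟨v, ⟨hvA, hvB⟩, hvj⟩⟩
  · rintro u ⟨huB, huj⟩ v ⟨hvB, hvj⟩ huv
    have hu : u ∈ ({x}ᶜ : Set V) := fun h => hS.x ((Set.mem_singleton_iff.mp h) ▸ huB)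
    have hv : v ∈ ({x}ᶜ : Set V) := fun h => hS.x ((Set.mem_singleton_iff.mp h) ▸ hvB)
    exact hf u hu v hv huv (huj.trans hvj.symm)
  · rintro W ⟨hWc, hWa⟩ hWB
    have hinj : Set.InjOn f (W : Set V) := by
      intro u hu v hv huv
      by_contra hne
      have hux : u ∈ ({x}ᶜ : Set V) :=
        fun h => hS.x ((Set.mem_singleton_iff.mp h) ▸ hWB u hu)
      have hvx : v ∈ ({x}ᶜ : Set V) :=
        fun h => hS.x ((Set.mem_singleton_iff.mp h) ▸ hWB v hv)
      exact hf u hux v hvx (hWa u hu v hv hne) huv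
    have himg : W.image f = Finset.univ := by
      apply Finset.eq_univ_of_card
      rw [Finset.card_image_of_injOn hinj, hWc, Fintype.card_fin]
    have hjm : j ∈ W.image f := himg ▸ Finset.mem_univ j
    obtain ⟨w, hw, hwj⟩ := Finset.mem_image.mp hjm
    exact ⟨w, hw, hWB w hw, hwj⟩

end Pool.Agent.Lib.MPc67b86.Q.OC
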