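import Pool.Agent.Lib.MP_c67b86_co.OC.SpecP

/-!
# Uncrossing of two separations
-/

set_option autoImplicit false

namespace Pool.Agent.Lib.MPc67b86.Q.OC

open Pool.Agent.Lib.MPc67b86

namespace UNXM

theorem sep {V : Type} {nc : ℕ} {G : SimpleGraph V} {x : V} {A₁ B₁ A₂ B₂ : Set V}
    (h1 : Sp nc G x A₁ B₁) (h2 : Sp nc G x A₂ B₂)
    (hlt : ((A₁ ∪ B₂) ∩ (B₁ ∩ A₂)).ncard < nc) : Sp nc G x (A₁ ∪ B₂) (B₁ ∩ A₂) where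
  cov v := by
    rcases h1.cov v with h | h
    · exact Or.inl (Or.inl h)
    · rcases h2.cov v with h' | h'
      · exact Or.inr ⟨h, h'⟩
      · exact Or.inl (Or.inr h')
  ed u v hu hu' hv hv' := by
    have hvA : v ∉ A₁ := fun h => hv' (Or.inl h)
    have hvB : v ∉ B₂ := fun h => hv' (Or.inr h)
    by_cases hB : u ∈ B₁
    · have hA : u ∉ A₂ := fun h => hu' ⟨hB, h⟩
      have hB2 : u ∈ B₂ := (h2.cov u).resolve_left hA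
      intro h
      exact h2.ed v u hv.2 hvB hB2 hA (SimpleGraph.Adj.symm (G := G) h)
    · have hA1 : u ∈ A₁ := (h1.cov u).resolve_right hB
      exact h1.ed u v hA1 hB hv.1 hvA
  x h := h1.x h.1
  lt := hlt

end UNXM

theorem specUNX : SpecUNX := by
  intro nc V _ G x A₁ B₁ A₂ B₂ h1 h2
  by_cases hS : ((A₁ ∪ B₂) ∩ (B₁ ∩ A₂)).ncard < nc
  · exact Or.inl (UNXM.sep h1 h2 hS)
  · refine Or.inr (UNXM.sep h2 h1 ?_)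
    have e1 := Set.ncard_union_add_ncard_inter ((A₁ ∪ B₂) ∩ (B₁ ∩ A₂)) ((A₂ ∪ B₁) ∩ (B₂ ∩ A₁))
    have e2 := Set.ncard_union_add_ncard_inter (A₁ ∩ B₁) (A₂ ∩ B₂)
    have l1 : (((A₁ ∪ B₂) ∩ (B₁ ∩ A₂)) ∪ ((A₂ ∪ B₁) ∩ (B₂ ∩ A₁))).ncard ≤
        ((A₁ ∩ B₁) ∪ (A₂ ∩ B₂)).ncard := by
      refine Set.ncard_le_ncard ?_ (Set.toFinite _)
      rintro v (⟨h | h, h3, h4⟩ | ⟨h | h, h3, h4⟩)
      · exact Or.inl ⟨h, h3⟩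
      · exact Or.inr ⟨h4, h⟩
      · exact Or.inr ⟨h, h3⟩
      · exact Or.inl ⟨h4, h⟩
    have l2 : (((A₁ ∪ B₂) ∩ (B₁ ∩ A₂)) ∩ ((A₂ ∪ B₁) ∩ (B₂ ∩ A₁))).ncard ≤
        ((A₁ ∩ B₁) ∩ (A₂ ∩ B₂)).ncard := by
      refine Set.ncard_le_ncard ?_ (Set.toFinite _)
      rintro v ⟨⟨_, h3, h4⟩, _, h5, h6⟩
      exact ⟨⟨h6, h3⟩, h4, h5⟩
    have a1 := h1.lt
    have a2 := h2.lt
    omega

end Pool.Agent.Lib.MPc67b86.Q.OC
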