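import Pool.Agent.Lib.MP_c67b86_co.OC.All
import Pool.Agent.Lib.MP_c67b86_co.OC.UNX
import Pool.Agent.Lib.MP_c67b86_co.OC.FAM
import Pool.Agent.Lib.MP_c67b86_co.OC.STB
import Pool.Agent.Lib.MP_c67b86_co.OC.COR
import Pool.Agent.Lib.MP_c67b86_co.OC.PEF

/-!
# MP_c67b86_co, OC: theorem 4
-/

set_option autoImplicit false

namespace Pool.Agent.Lib.MPc67b86.Q.OC

theorem mFAM : SpecFAM := specFAM specUNX
theorem mSTB : SpecSTB := specSTB
theorem mCOR : SpecCOR := specCOR mONE mFAM mSTB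
theorem mPEF : SpecPEF := specPEF mMIV mCOR

end Pool.Agent.Lib.MPc67b86.Q.OC
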