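import Pool.Agent.Lib.MP_c67b86_co.OC.Spec

/-!
# CAC: `x₀` has two non-neighbours in `X`
-/

set_option autoImplicit false

namespace Pool.Agent.Lib.MPc67b86.Q.OC

open Pool.Agent.Lib.MPc67b86

namespace CACM

variable {V : Type} {G : SimpleGraph V}

theorem res_mono {A B : Set V} (h : A ⊆ B) : res G A ≤ res G B := by
  intro u v huv
  exact ⟨huv.1, h huv.2.1, h huv.2.2⟩

theorem supp_mem {A : Set V} {u v : V} (p : (res G A).Walk u v) (hu : u ∈ A) :
    ∀ w ∈ p.support, w ∈ A := by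
  induction p with
  | nil =>
    intro w hw
    rw [SimpleGraph.Walk.support_nil, List.mem_singleton] at hw
    exact hw ▸ hu
  | cons h q ih =>
    intro w hw
    rw [SimpleGraph.Walk.support_cons, List.mem_cons] at hw
    rcases hw with rfl | hw
    · exact hu
    · exact ih h.2.2 w hw

theorem reach_of_walk {A B : Set V} {u v : V} (p : (res G A).Walk u v)
    (h : ∀ w ∈ p.support, w ∈ B) : (res G B).Reachable u v := by
  induction p with
  | nil => exact SimpleGraph.Reachable.refl _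
  | cons h' q ih =>
    have hq : ∀ w ∈ q.support, w ∈ B := by
      intro w hw
      apply h
      rw [SimpleGraph.Walk.support_cons]
      exact List.mem_cons_of_mem _ hw
    have h1 := h _ (SimpleGraph.Walk.start_mem_support _)
    have h2 := hq _ (SimpleGraph.Walk.start_mem_support q)
    exact SimpleGraph.Reachable.trans
      (SimpleGraph.Adj.reachable (show (res G B).Adj _ _ from ⟨h'.1, h1, h2⟩)) (ih hq)

/-- the inner vertices of a walk -/
def inn {A : Set V} {u v : V} (p : (res G A).Walk u v) : Set V :=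
  {w | w ∈ p.support ∧ w ≠ u ∧ w ≠ v}

theorem lk_of_walk {A : Set V} {u v : V} (p : (res G A).Walk u v) : Lk G u v (inn p) := by
  refine reach_of_walk p fun w hw => ?_
  by_cases h1 : w = u
  · exact Or.inl h1
  · by_cases h2 : w = v
    · exact Or.inr (Or.inl h2)
    · exact Or.inr (Or.inr ⟨hw, h1, h2⟩)

end CACM

open CACM

theorem specCAC (hPAI : SpecPAI) (hTWO : SpecTWO) (hC1P : SpecC1P) (hC2P : SpecC2P) :
    SpecCAC := by
  classical
  intro nc V _ G X c hB hCol hXc x₀ hx₀ hStar hex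
  by_contra hTK
  -- full vertices
  let Full : V → Prop := fun v => v ∉ X ∧ ∀ x ∈ X, x ≠ x₀ → G.Adj v x
  let N : V → Prop := fun i => i ∈ X ∧ i ≠ x₀ ∧ ¬ G.Adj x₀ i
  have hN2 : ∀ i, ∃ j, N j ∧ j ≠ i := by
    intro i
    obtain ⟨a, ha, b, hb, hab, ha0, hb0, hna, hnb⟩ := hex
    by_cases h : a = i
    · exact ⟨b, ⟨hb, hb0, hnb⟩, fun h' => hab (h.trans h'.symm)⟩
    · exact ⟨a, ⟨ha, ha0, hna⟩, h⟩
  -- (1)
  have h1 : ∀ y z, Full y → Full z → y ≠ z → (res G (X : Set V)ᶜ).Reachable y z → False := by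
    intro y z hy hz hyz hr
    apply hTK
    refine hTWO nc V G (X.erase x₀) y z ?_ ?_ ?_ ?_ hyz ?_ ?_
    · rw [Finset.card_erase_of_mem hx₀, hXc]
      have : 0 < X.card := Finset.card_pos.2 ⟨x₀, hx₀⟩
      omega
    · intro v hv w hw hvw
      rw [Finset.mem_erase] at hv hw
      exact hStar v hv.2 w hw.2 hvw hv.1 hw.1
    · exact fun h => hy.1 (Finset.mem_of_mem_erase h)
    · exact fun h => hz.1 (Finset.mem_of_mem_erase h)
    · intro v hv
      rw [Finset.mem_erase] at hv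
      exact ⟨hy.2 v hv.2 hv.1, hz.2 v hv.2 hv.1⟩
    · refine hr.mono (res_mono ?_)
      intro v hv hv'
      exact hv (Finset.mem_of_mem_erase (Finset.mem_coe.1 hv'))
  -- (2)
  have h2 : ∀ i, N i → ∃ y z, (Full y ∨ Ty G X i y) ∧ (Full z ∨ Ty G X i z) ∧ c y ≠ c z ∧
      (res G (X : Set V)ᶜ).Reachable y z := by
    intro i hi
    obtain ⟨y, z, hy, hz, hc, hr, hadj, hy0, hz0⟩ :=
      hPAI nc V G X c hXc hB hCol x₀ hx₀ i hi.1 (Ne.symm hi.2.1) hi.2.2
    have key : ∀ v, v ∉ X → (∀ x ∈ X, x ≠ x₀ → x ≠ i → G.Adj v x) → (G.Adj v x₀ ∨ G.Adj v i) →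
        (Full v ∨ Ty G X i v) := by
      intro v hv hva hv0
      by_cases hvi : G.Adj v i
      · left
        refine ⟨hv, fun x hx hx0 => ?_⟩
        by_cases hxi : x = i
        · exact hxi ▸ hvi
        · exact hva x hx hx0 hxi
      · right
        refine ⟨hv, hvi, fun x hx hxi => ?_⟩
        by_cases hx0 : x = x₀
        · rw [hx0]
          exact hv0.resolve_right hvi
        · exact hva x hx hx0 hxi
    exact ⟨y, z, key y hy (fun x hx h0 h1 => (hadj x hx h0 h1).1) hy0,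
      key z hz (fun x hx h0 h1 => (hadj x hx h0 h1).2) hz0, hc, hr⟩
  have h2' : ∀ j, N j → ∃ w, Ty G X j w := by
    intro j hj
    obtain ⟨y, z, hy, hz, hc, hr⟩ := h2 j hj
    rcases hy with hy | hy
    · rcases hz with hz | hz
      · exact (h1 y z hy hz (fun h => hc (h ▸ rfl)) hr).elim
      · exact ⟨z, hz⟩
    · exact ⟨y, hy⟩
  -- vertices of different types are different
  have hty : ∀ i j v w, N i → i ≠ j → Ty G X i v → Ty G X j w → v ≠ w := by
    intro i j v w hi hij hv hw h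
    subst h
    exact hv.2.1 (hw.2.2 i hi.1 hij)
  have hfy : ∀ i y v, N i → Full y → Ty G X i v → v ≠ y := by
    intro i y v hi hy hv h
    subst h
    exact hv.2.1 (hy.2 i hi.1 hi.2.1)
  -- (3)
  have h3 : ∀ i y v, N i → Full y → Ty G X i v → (res G (X : Set V)ᶜ).Reachable y v → False := by
    intro i y v hi hy hv hr
    obtain ⟨j, hj, hji⟩ := hN2 i
    obtain ⟨w, hw⟩ := h2' j hj
    obtain ⟨P0⟩ := hr
    have hP := P0.bypass_isPath
    set P := P0.bypass with hPdef
    have hyX : y ∈ (X : Set V)ᶜ := fun h => hy.1 (Finset.mem_coe.1 h)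
    have hsX : ∀ u ∈ P.support, u ∉ X := fun u hu h =>
      supp_mem P hyX u hu (Finset.mem_coe.2 h)
    by_cases hwP : w ∈ P.support
    · have hvw : v ≠ w := hty i j v w hi hji.symm hv hw
      have hvP' := SimpleGraph.Walk.endpoint_notMem_support_takeUntil hP hwP hvw
      have hsX' : ∀ u ∈ (P.takeUntil w hwP).support, u ∉ X := fun u hu h =>
        supp_mem (P.takeUntil w hwP) hyX u hu (Finset.mem_coe.2 h)
      exact hTK (hC1P nc V G X x₀ j i y w v hXc hx₀ hStar hj.1 hi.1 hj.2.1 hi.2.1 hji hy.1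
        hy.2 hw hv (inn (P.takeUntil w hwP)) (fun x hx h => hsX' x h.1 hx)
        (fun h => hvP' h.1) (fun h => h.2.1 rfl) (fun h => h.2.2 rfl) (hfy i y v hi hy hv)
        (lk_of_walk _))
    · exact hTK (hC1P nc V G X x₀ i j y v w hXc hx₀ hStar hi.1 hj.1 hi.2.1 hj.2.1 hji.symm hy.1
        hy.2 hv hw (inn P) (fun x hx h => hsX x h.1 hx) (fun h => hwP h.1) (fun h => h.2.1 rfl)
        (fun h => h.2.2 rfl) (hfy j y w hj hy hw) (lk_of_walk _))
  -- (4)
  have h4 : ∀ i, N i → ∃ y z, Ty G X i y ∧ Ty G X i z ∧ c y ≠ c z ∧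
      (res G (X : Set V)ᶜ).Reachable y z := by
    intro i hi
    obtain ⟨y, z, hy, hz, hc, hr⟩ := h2 i hi
    have hyz : y ≠ z := fun h => hc (h ▸ rfl)
    rcases hy with hy | hy
    · rcases hz with hz | hz
      · exact (h1 y z hy hz hyz hr).elim
      · exact (h3 i y z hi hy hz hr).elim
    · rcases hz with hz | hz
      · exact (h3 i z y hi hz hy hr.symm).elim
      · exact ⟨y, z, hy, hz, hc, hr⟩
  let Q : ℕ → Prop := fun n => ∃ (i y z : V) (P : (res G (X : Set V)ᶜ).Walk y z), N i ∧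
    Ty G X i y ∧ Ty G X i z ∧ c y ≠ c z ∧ P.length = n
  have hQ : ∃ n, Q n := by
    obtain ⟨i, hi, -⟩ := hN2 x₀
    obtain ⟨y, z, hy, hz, hc, ⟨P⟩⟩ := h4 i hi
    exact ⟨P.length, i, y, z, P, hi, hy, hz, hc, rfl⟩
  have hmin : ∀ n, Q n → Nat.find hQ ≤ n := fun n hn => Nat.find_min' hQ hn
  obtain ⟨i, y, z, P, hi, hy, hz, hc, hlen⟩ := Nat.find_spec hQ
  have hyX : y ∈ (X : Set V)ᶜ := fun h => hy.1 (Finset.mem_coe.1 h)
  have hsX : ∀ u ∈ P.support, u ∉ X := fun u hu h => supp_mem P hyX u hu (Finset.mem_coe.2 h)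
  have hr : ∀ j, ∃ r, N j → j ≠ i → Ty G X j r ∧ r ∉ P.support := by
    intro j
    by_cases hj : N j
    · by_cases hji : j = i
      · exact ⟨y, fun _ h => absurd hji h⟩
      obtain ⟨a, b, ha, hb, hab, -⟩ := h4 j hj
      by_cases haP : a ∈ P.support
      · by_cases hbP : b ∈ P.support
        · exfalso
          have hay : a ≠ y := hty j i a y hj hji ha hy
          have haz : a ≠ z := hty j i a z hj hji ha hz
          have hbP' := hbP
          rw [← P.take_spec haP, SimpleGraph.Walk.mem_support_append_iff] at hbP'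
          rcases hbP' with h | h
          · have e1 := hmin _ ⟨j, b, a, (P.takeUntil a haP).dropUntil b h, hj, hb, ha,
              hab.symm, rfl⟩
            have e2 := (P.takeUntil a haP).length_dropUntil_le_length h
            have e3 := P.length_takeUntil_lt_length haP haz
            omega
          · have e1 := hmin _ ⟨j, a, b, (P.dropUntil a haP).takeUntil b h, hj, ha, hb,
              hab, rfl⟩
            have e2 := (P.dropUntil a haP).length_takeUntil_le_length h
            have e3 := P.length_dropUntil_lt_length haP hay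
            omega
        · exact ⟨b, fun _ _ => ⟨hb, hbP⟩⟩
      · exact ⟨a, fun _ _ => ⟨ha, haP⟩⟩
    · exact ⟨y, fun h => absurd h hj⟩
  choose r hr using hr
  obtain ⟨j, hj, hji⟩ := hN2 i
  exact hTK (hC2P nc V G X x₀ i y z r hXc hx₀ hStar hi.1 hi.2.1 hy hz (fun h => hc (h ▸ rfl))
    ⟨j, hj.1, hj.2.1, hji, hj.2.2⟩ (inn P) (fun x hx h => hsX x h.1 hx) (fun h => h.2.1 rfl)
    (fun h => h.2.2 rfl) (lk_of_walk _)
    (fun j hjX hj0 hji hjn => ⟨(hr j ⟨hjX, hj0, hjn⟩ hji).1,
      fun h => (hr j ⟨hjX, hj0, hjn⟩ hji).2 h.1⟩))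

end Pool.Agent.Lib.MPc67b86.Q.OC
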