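import Pool.Agent.Lib.MP_c67b86_co.Q.Spec

/-!
# MP_c67b86_co (Hajós' conjecture for five and six colours): graphs which become bipartite by deleting `k - 1` vertices

Captain helper67.  Every statement has its complete proof in the docstring.  The module `XXX` is the file
`Pool/Agent/Lib/MP_c67b86_co/OC/XXX.lean`; it imports `Pool.Agent.Lib.MP_c67b86_co.OC.Spec` and proves
`theorem specXXX (h1 : SpecYYY) .. : SpecXXX` in `namespace Pool.Agent.Lib.MPc67b86.Q.OC`; the hypotheses are
the modules named after `from` (in this order); own lemmas in a namespace `XXXM`.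

THEOREM.  Let `k ≥ 5`, `G` a finite graph with `χ(G) ≥ k` and `X` a set of at most `k - 1` vertices such that
`G - X` is bipartite.  Then `G` contains a subdivision of `K_k`.

`nc = k - 1` is the number of colours.  From the landed files: `Lk G x y I` (`x` and `y` are joined by a path with
inner vertices in `I`, that is `x` and `y` are connected in `res G (insert x (insert y I))`), `res G A` (the
edges inside `A`), `Q.TK nc G` (`G` contains a subdivision of `K_(nc+1)`), `Q.Col nc G`, `Q.IsCol G A f`.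

Proof of the theorem.  `G` is made critical (MIN), `|X| = nc`.  By STA there is `x₀ ∈ X` such that `X - x₀`
is a clique.  If `X` is a clique: CAA.  If `x₀` has exactly one non-neighbour in `X`: CAB.  If it has at least two:
CAC.
-/

set_option autoImplicit false

namespace Pool.Agent.Lib.MPc67b86.Q.OC

open Pool.Agent.Lib.MPc67b86

/-- `c` is a proper 2-colouring of `G - X` -/
def Bip {V : Type} (G : SimpleGraph V) (X : Finset V) (c : V → Bool) : Prop :=
  ∀ u v, u ∉ X → v ∉ X → G.Adj u v → c u ≠ c v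

/-- `G` is not `nc`-colourable, but deleting any vertex which is not isolated gives an `nc`-colourable graph -/
structure Cr (nc : ℕ) {V : Type} (G : SimpleGraph V) : Prop where
  bad : ¬ Col nc G
  cr : ∀ v w, G.Adj v w → ∃ f : V → Fin nc, IsCol G {v}ᶜ f

/-- any two vertices of `X` other than `x₀` are adjacent -/
def Star {V : Type} (G : SimpleGraph V) (X : Finset V) (x₀ : V) : Prop :=
  ∀ u ∈ X, ∀ v ∈ X, u ≠ v → u ≠ x₀ → v ≠ x₀ → G.Adj u v

/-- TKS (70 lines).  A subdivision from a set `R` of branch vertices in which the pairs `a j`, `b j` are joined by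
disjoint sets `J j` and the other pairs are adjacent.

PROOF (as TKB in the landed `Spec.lean`, there for `nc = 4`).  `f = ` an enumeration of `R` (`R.equivFin`,
`Finset.equivFinOfCardEq`); for `i < k`: `I i k = ∅` if `f i`, `f k` are adjacent, otherwise `J j` for a `j` with
`{a j, b j} = {f i, f k}` (choose one; different pairs get different `j`). -/
def SpecTKS : Prop :=
  ∀ (nc : ℕ) (V : Type) (G : SimpleGraph V) (R : Finset V) (ι : Type) (a b : ι → V) (J : ι → Set V),
    R.card = nc + 1 → (∀ j, ∀ v ∈ R, v ∉ J j) → (∀ j k, j ≠ k → Disjoint (J j) (J k)) →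
    (∀ j, Lk G (a j) (b j) (J j)) →
    (∀ u ∈ R, ∀ v ∈ R, u ≠ v → G.Adj u v ∨ ∃ j, (a j = u ∧ b j = v) ∨ (a j = v ∧ b j = u)) →
    TK nc G

/-- STA (90 lines).  `X` is a clique up to one vertex.

PROOF.  (*) If `g : V → Fin nc` is proper on `X` (adjacent `u, v ∈ X` have `g u ≠ g v`) and misses two
colours `p ≠ q` on `X`, then `Col nc G`: `v ↦ g v` for `v ∈ X`, `p` or `q` according to `c v` for `v ∉ X`.
`e : X ≃ Fin nc` (or an injection `e : V → Fin nc` on `X`; `nc ≥ 1`).  If `X` is a clique take any `x₀ ∈ X`.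
Otherwise let `a ≠ b` in `X` be not adjacent.  If `x₀ = a` and `x₀ = b` do not work there are non-adjacent pairs
`{p, q} ⊆ X - a` and `{r, s} ⊆ X - b`.  If one of the two is disjoint from `{a, b}`, say `{p, q}`: `g = e` except
`g b = e a`, `g q = e p`, it misses `e b ≠ e q`.  Otherwise the pairs are `{b, q}`, `{a, s}` with `q, s ∉ {a, b}`; if
`q ≠ s` they are disjoint: `g b = e q`, `g a = e s`, it misses `e b`, `e a`.  If `q = s`: `a, b, q` are pairwise
not adjacent, `g = e` except `g b = e a`, `g q = e a`, it misses `e b`, `e q`. -/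
def SpecSTA : Prop :=
  ∀ (nc : ℕ) (V : Type) (G : SimpleGraph V) (X : Finset V) (c : V → Bool), 1 ≤ nc → X.card = nc →
    Bip G X c → ¬ Col nc G → ∃ x₀ ∈ X, Star G X x₀

/-- PAI (100 lines).  Merging `x₀` and a non-neighbour `x₁`.

PROOF.  Call `w ∉ X` good if it is adjacent to all `x ∈ X` other than `x₀`, `x₁`, and to `x₀` or to `x₁`.  Suppose
there is no such pair `y`, `z`.  Let `e` be injective on `X` with values in `Fin nc`, so `e` maps `X` onto
`Fin nc`; `p = e x₀`.  Colouring `g`: `x ∈ X`, `x ≠ x₀`: `e x`; `x₀`: `e x₁`.  `w ∉ X` which is not good has a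
free colour `h w ≠ p`: `e x` for an `x ∈ X - {x₀, x₁}` not adjacent to `w`, or `e x₁` if `w` is not adjacent to `x₀` and
`x₁`.  Let `T w` be the statement: there is a good `y ∉ X` with `c y = true` connected to `w` in `res G Xᶜ`.
`g w = p` if (`c w = true ↔ T w`), otherwise `g w = h w`: in this case `w` is not good (if `c w = true` and not
`T w` because `T w` would hold; if `c w = false` and `T w` because then `y`, `w` is a pair).  Proper: adjacent
`w, w' ∉ X` have `c w ≠ c w'` and `T w ↔ T w'`, so exactly one of them has colour `p`; the colour `p` does not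
occur on `X`; `h w` is not the colour of a neighbour of `w` in `X`; on `X` only `x₀`, `x₁` have the same colour. -/
def SpecPAI : Prop :=
  ∀ (nc : ℕ) (V : Type) (G : SimpleGraph V) (X : Finset V) (c : V → Bool), X.card = nc →
    Bip G X c → ¬ Col nc G → ∀ x₀ ∈ X, ∀ x₁ ∈ X, x₀ ≠ x₁ → ¬ G.Adj x₀ x₁ →
    ∃ y z, y ∉ X ∧ z ∉ X ∧ c y ≠ c z ∧ (res G (X : Set V)ᶜ).Reachable y z ∧
      (∀ x ∈ X, x ≠ x₀ → x ≠ x₁ → G.Adj y x ∧ G.Adj z x) ∧
      (G.Adj y x₀ ∨ G.Adj y x₁) ∧ (G.Adj z x₀ ∨ G.Adj z x₁)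

/-- SEN (130 lines).  Small separations of a critical graph with a side `D` disjoint from `X`.

PROOF.  `D = {v | (res G Sᶜ).Reachable u v}`; `D ∩ S = ∅` (`u ∉ S`), `D ∩ X = ∅` (by hypothesis and
`D ∩ S = ∅`), a neighbour of a vertex of `D` is in `D` or in `S`.  By criticality (`u` is not isolated) there is
`f : V → Fin nc` with `IsCol G {u}ᶜ f`, so `IsCol G Dᶜ f`.  `|f(S)| < nc`: let `p ∉ f(S)`.  Call `w ∈ D` full if
for every colour `q ≠ p` there is `s ∈ S` adjacent to `w` with `f s = q`.  If there is no full `w ∈ D` with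
`c w = true`: change `f` on `D`: `w ↦ p` if `c w = false`, a free colour `q ≠ p` if `c w = true`; this is a
colouring of `G` (two adjacent vertices of `D` have different `c`; a neighbour `s ∈ S` has `f s ≠ p`, and `f s ≠ q`
as `q` is free for `w`), contradiction.  In the same way there is a full `z ∈ D` with `c z = false`.  For a full `w`
the `nc - 1` colours other than `p` occur on the neighbours of `w` in `S`, and `|S| ≤ nc - 1`: so `|S| = nc - 1` and
`w` is adjacent to all of `S`.  If `s ∈ S`, `s ∉ X` then `c s ≠ c y`, `c s ≠ c z`, `c y ≠ c z`: impossible for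
`Bool`. -/
def SpecSEN : Prop :=
  ∀ (nc : ℕ) (V : Type) [Finite V] (G : SimpleGraph V) (X : Finset V) (c : V → Bool), Cr nc G →
    Bip G X c → ∀ (S : Set V) (u w : V), S.ncard < nc → u ∉ S → G.Adj u w →
    (∀ x ∈ X, x ∉ S → ¬ (res G Sᶜ).Reachable u x) →
    S.ncard + 1 = nc ∧ S ⊆ X ∧ ∃ y z, (res G Sᶜ).Reachable u y ∧ (res G Sᶜ).Reachable u z ∧
      c y ≠ c z ∧ ∀ s ∈ S, G.Adj y s ∧ G.Adj z s

/-- ONE (from TKS and the landed FAN; 60 lines).  A clique with `nc` vertices and one more vertex.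

PROOF.  `SpecFAN` with `v = u`, `B = W`, `k = nc`: if no separation `S` exists, its hypothesis is satisfied
(`S.ncard < nc`, `u ∉ S`: some `w ∈ W`, `w ∉ S` is reachable).  We get `nc` disjoint connections to different
vertices of `W`, so to all of `W` (`W.card = nc`).  TKS with `R = insert u W`, `ι = Fin nc`, `a j = u`, `b`, `J = I`. -/
def SpecONE : Prop :=
  ∀ (nc : ℕ) (V : Type) [Finite V] (G : SimpleGraph V) (W : Finset V) (u : V), W.card = nc →
    (∀ v ∈ W, ∀ w ∈ W, v ≠ w → G.Adj v w) → u ∉ W →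
    TK nc G ∨ ∃ S : Set V, S.ncard < nc ∧ u ∉ S ∧ ∀ w ∈ W, w ∉ S → ¬ (res G Sᶜ).Reachable u w

/-- TWO (from TKS; 60 lines).  Two vertices `y`, `z` outside `X`, connected outside `X`, which are adjacent to
all vertices of a clique `X - x`, or `S ∪ {y, z}` for a clique `S` with a component.

PROOF.  TKS with `R = K ∪ {y, z}`, `ι = Unit`, `a = y`, `b = z`, `J = Rᶜ`: `insert y (insert z Rᶜ) = Kᶜ`.
`y ≠ z`, `|K| = nc - 1`, so `|R| = nc + 1`. -/
def SpecTWO : Prop :=
  ∀ (nc : ℕ) (V : Type) (G : SimpleGraph V) (K : Finset V) (y z : V), K.card + 1 = nc →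
    (∀ v ∈ K, ∀ w ∈ K, v ≠ w → G.Adj v w) → y ∉ K → z ∉ K → y ≠ z →
    (∀ v ∈ K, G.Adj y v ∧ G.Adj z v) → (res G (K : Set V)ᶜ).Reachable y z → TK nc G

/-- CAA (from SEN, ONE, TWO; 60 lines).  `X` is a clique.

PROOF.  There is `u ∉ X` which is not isolated: otherwise every edge is inside `X` and an injection of `X` to
`Fin nc` gives `Col nc G` (`nc ≥ 1`).  ONE for `W = X`: `TK`, or a separation `S`.  SEN: `|S| = nc - 1`, `S ⊆ X`,
`y`, `z` are adjacent to all of `S`, not in `S`, `y ≠ z`.  TWO for `K = S`. -/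
def SpecCAA : Prop :=
  ∀ (nc : ℕ) (V : Type) [Finite V] (G : SimpleGraph V) (X : Finset V) (c : V → Bool), 1 ≤ nc →
    Cr nc G → Bip G X c → X.card = nc → (∀ u ∈ X, ∀ v ∈ X, u ≠ v → G.Adj u v) → TK nc G

/-- CAB (from TKS, PAI, SEN, ONE, TWO; 200 lines).  Only `x₀`, `x₁` are not adjacent in `X`.

PROOF.  PAI: `y`, `z ∉ X`, `c y ≠ c z`, connected in `G - X`, adjacent to `X - {x₀, x₁}` and each to `x₀` or `x₁`.
If both are adjacent to `x₁`: TWO with `K = X - x₀` (monotonicity of `res`).  If both are adjacent to `x₀`: TWO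
with `K = X - x₁`.  Otherwise, exchanging `y` and `z`, `y` is adjacent to `x₁` and `z` to `x₀`.
`W = (X - x₁) ∪ {z}` is a clique with `nc` vertices.  By criticality `x₀` has at least `nc` neighbours (`f` a
colouring of `G - x₀`: all `nc` colours occur on the neighbours of `x₀`, otherwise `Col`); at most `nc - 2` of
them are in `X`, so there is a neighbour `u ∉ X` of `x₀`, `u ≠ z`.  ONE for `W`, `u`: `TK`, or a separation `S`.
(i) If `x₁ ∈ S` or `x₁` is not reachable from `u` in `G - S`: then no `x ∈ X - S` is reachable (`x ≠ x₁` is in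
`W`), SEN: `|S| = nc - 1`, `S ⊆ X`, `y', z'` reachable from `u`, adjacent to all of `S`.  Let `S = X - x`.  If
`x = x₀` or `x = x₁`: `S` is a clique, TWO with `K = S`.  Otherwise TKS with `R = S ∪ {y', z'}`, `ι = Bool`, the pair
`y', z'` with the set of the vertices reachable from `u` in `G - S` other than `y'`, `z'` (it does not contain
`x`) and the pair `x₀, x₁` with `{x}`.
(ii) `x₁ ∉ S` is reachable from `u`.  Every `x ∈ X - {x₀, x₁}` is adjacent to `x₁` and in `W`, so in `S`; `x₀` is adjacent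
to `u` and in `W`, so in `S`.  So `X - x₁ ⊆ S`, `|S| ≤ nc - 1`, `S = X - x₁`.  `z ∉ S` and it is reachable: `u` to `x₁`,
`x₁` is adjacent to `y`, and `y` is connected to `z` in `G - X`.  But `z ∈ W`, contradiction. -/
def SpecCAB : Prop :=
  ∀ (nc : ℕ) (V : Type) [Finite V] (G : SimpleGraph V) (X : Finset V) (c : V → Bool), 2 ≤ nc →
    Cr nc G → Bip G X c → X.card = nc → ∀ x₀ ∈ X, ∀ x₁ ∈ X, x₀ ≠ x₁ → ¬ G.Adj x₀ x₁ →
    (∀ u ∈ X, ∀ v ∈ X, u ≠ v → G.Adj u v ∨ (u = x₀ ∧ v = x₁) ∨ (u = x₁ ∧ v = x₀)) → TK nc G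

/-- `v` is adjacent to all vertices of `X` except `i` -/
def Ty {V : Type} (G : SimpleGraph V) (X : Finset V) (i v : V) : Prop :=
  v ∉ X ∧ ¬ G.Adj v i ∧ ∀ x ∈ X, x ≠ i → G.Adj v x

/-- C1P (from TKS; 80 lines).  `y` is adjacent to all of `X - x₀`, `v` to all of `X - i`, `w` to all of `X - j`,
`y` and `v` are joined by a path outside `X` avoiding `w`.

PROOF.  TKS with `R = (X - x₀) ∪ {y, v}`, `ι = Bool`: the pair `y, v` with the inner vertices `I` of the path, the
pair `v, i` with `{x₀, w}`: `v - x₀ - w - i` (`w` is adjacent to `i` as `i ≠ j`).  `y ≠ v` as `y` is adjacent to `i`. -/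
def SpecC1P : Prop :=
  ∀ (nc : ℕ) (V : Type) (G : SimpleGraph V) (X : Finset V) (x₀ i j y v w : V), X.card = nc →
    x₀ ∈ X → Star G X x₀ → i ∈ X → j ∈ X → i ≠ x₀ → j ≠ x₀ → i ≠ j →
    y ∉ X → (∀ x ∈ X, x ≠ x₀ → G.Adj y x) → Ty G X i v → Ty G X j w →
    ∀ I : Set V, (∀ x ∈ X, x ∉ I) → w ∉ I → y ∉ I → v ∉ I → w ≠ y → Lk G y v I → TK nc G

/-- C2P (from TKS; 150 lines).  `y`, `z` of type `i` joined by a path outside `X`, and for every other non-neighbour
`j` of `x₀` a vertex `r j` of type `j` outside the path.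

PROOF.  `T` = the set of the `j ∈ X`, `j ≠ x₀`, `j ≠ i`, not adjacent to `x₀`; it is not empty.  `R = (X - i) ∪ {y, z}`;
the pairs which are not adjacent are `y, z` (perhaps) and `x₀, l` for `l ∈ T`.  `r` is injective on `T` (`r j` is not
adjacent to `j`, but adjacent to `l ∈ T`, `l ≠ j`).  If `T = {j}`: `ι = Bool`, `y, z` with `I`, `x₀, j` with
`{r j, i}`: `x₀ - r j - i - j`.  If `|T| ≥ 2` let `σ` be a permutation of `V` which maps `T` to `T` and has no fixed
points in `T` (`T.toList.formPerm`, `List.formPerm_apply_mem_eq_self_iff`, `List.formPerm_apply_mem_of_mem`).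
`ι = Option {l // l ∈ T}`: `none` is `y, z` with `I`, `some l` is `x₀, l` with `{r (σ l)}` (`r (σ l)` is adjacent to
`l` as `σ l ≠ l`). -/
def SpecC2P : Prop :=
  ∀ (nc : ℕ) (V : Type) (G : SimpleGraph V) (X : Finset V) (x₀ i y z : V) (r : V → V), X.card = nc →
    x₀ ∈ X → Star G X x₀ → i ∈ X → i ≠ x₀ → Ty G X i y → Ty G X i z → y ≠ z →
    (∃ j ∈ X, j ≠ x₀ ∧ j ≠ i ∧ ¬ G.Adj x₀ j) →
    ∀ I : Set V, (∀ x ∈ X, x ∉ I) → y ∉ I → z ∉ I → Lk G y z I →
    (∀ j ∈ X, j ≠ x₀ → j ≠ i → ¬ G.Adj x₀ j → Ty G X j (r j) ∧ r j ∉ I) → TK nc G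

/-- CAC (from PAI, TWO, C1P, C2P; 200 lines).  `x₀` has two non-neighbours in `X`.

PROOF.  Let `N` be the set of the `i ∈ X`, `i ≠ x₀`, not adjacent to `x₀`; `|N| ≥ 2`.  `v ∉ X` is called full if it is
adjacent to all of `X - x₀`.  Suppose there is no `TK`.
(1) Two different full vertices connected in `G - X`: TWO.
(2) For every `i ∈ N` let `y_i`, `z_i` be as in PAI (for `x₀` and `x₁ = i`).  A vertex of the pair is full or of type
`i` (if it is not adjacent to `i` it is adjacent to `x₀`).  They are not both full by (1) (`c y_i ≠ c z_i`).  So there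
is a vertex of type `j` for every `j ∈ N`.
(3) No full vertex `y` is connected in `G - X` to a vertex `v` of type `i`, `i ∈ N`: let `j ∈ N`, `j ≠ i`, and `w` a vertex
of type `j`.  Let `P` be a path from `y` to `v` in `res G Xᶜ`.  If `w` is not on `P`: C1P, `I` = the inner vertices of `P`.  If
`w` is on `P`: the part `P'` of `P` from `y` to `w` does not contain `v` (`Walk.endpoint_notMem_support_takeUntil`),
C1P with `v`, `w` and `i`, `j` exchanged.
(4) So for every `i ∈ N` both `y_i` and `z_i` are of type `i`.  Among all `i ∈ N`, `y`, `z` of type `i` with `c y ≠ c z`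
and all walks from `y` to `z` in `res G Xᶜ` choose a shortest walk `P`; it may be taken to be a path.  For `j ∈ N`,
`j ≠ i`: one of `y_j`, `z_j` is not on `P`, otherwise a part of `P`, shorter than `P` (`y_j`, `z_j` are not the ends,
whose type is `i`), joins them.  Let `r j` be this vertex.  C2P with `I` = the inner vertices of `P`. -/
def SpecCAC : Prop :=
  ∀ (nc : ℕ) (V : Type) [Finite V] (G : SimpleGraph V) (X : Finset V) (c : V → Bool),
    Bip G X c → ¬ Col nc G → X.card = nc → ∀ x₀ ∈ X, Star G X x₀ →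
    (∃ i ∈ X, ∃ j ∈ X, i ≠ j ∧ i ≠ x₀ ∧ j ≠ x₀ ∧ ¬ G.Adj x₀ i ∧ ¬ G.Adj x₀ j) → TK nc G

/-- MIN (50 lines).  Passing to a critical subgraph.

PROOF.  Among the `G' ≤ G` with `¬ Col nc G'` choose one with the least number of edges (`edgeSet.ncard`, `V` is
finite).  If `G'.Adj v w` then `res G' {v}ᶜ` has fewer edges, so it has a colouring `f`, and `IsCol G' {v}ᶜ f`.  `¬ TK nc G'`
as `TK nc G'` implies `TK nc G` (`G' ≤ G`; the landed `SpecTKL nc`, first part; or directly, `Lk` is monotone). -/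
def SpecMIN : Prop :=
  ∀ (nc : ℕ) (V : Type) [Finite V] (G : SimpleGraph V), ¬ Col nc G → ¬ TK nc G →
    ∃ G' : SimpleGraph V, G' ≤ G ∧ Cr nc G' ∧ ¬ TK nc G'

/-- The theorem. -/
def Main : Prop :=
  ∀ (nc : ℕ) (V : Type) [Finite V] (G : SimpleGraph V) (X : Finset V) (c : V → Bool), 2 ≤ nc →
    X.card ≤ nc → Bip G X c → ¬ Col nc G → TK nc G

/-- FIN (captain, from STA, CAA, CAB, CAC, MIN; 80 lines). -/
def SpecFIN : Prop := Main

end Pool.Agent.Lib.MPc67b86.Q.OC
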