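import Pool.Agent.Lib.MP_c67b86_co.OC.Spec

/-!
# MP_c67b86_co: graphs which become bipartite by deleting a clique and one more vertex

Part B of the hive `oc_modules` (captain helper67), same conventions as in `OC/Spec.lean`; the modules import
`Pool.Agent.Lib.MP_c67b86_co.OC.SpecB`.  Landed and usable: all modules of `OC/Spec.lean` (`specTKS`, `specTWO`,
`specONE`, `specSEN`, ...; helpful lemmas `res_mono`, `reach_mono`, `reach_mem`, `reach_in` in the namespace `CABM` of
`OC/CAB.lean`).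

THEOREM 2.  Let `K` be a clique and `x` a vertex of the finite graph `G` such that `G - K - x` is bipartite.  For every
`k ≥ 5` with `χ(G) ≥ k` the graph `G` contains a subdivision of `K_k`.

(By STA this contains the theorem of part A; new is the case `|K| = k - 1`.)

Proof.  `nc = k - 1`.  `|K| ≤ nc - 1`: part A.  `|K| ≥ nc + 1`: `K` contains `K_k`.  `|K| = nc`: pass to a critical induced
subgraph (MIV); if a vertex of `K` is lost, part A; otherwise UNC.
-/

set_option autoImplicit false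

namespace Pool.Agent.Lib.MPc67b86.Q.OC

open Pool.Agent.Lib.MPc67b86

/-- the neighbours of `D` outside `D` -/
def nb {V : Type} (G : SimpleGraph V) (D : Set V) : Set V := {v | v ∉ D ∧ ∃ u ∈ D, G.Adj u v}

/-- `D` is not empty and `G[D]` is connected -/
def Cn {V : Type} (G : SimpleGraph V) (D : Set V) : Prop := ∃ u ∈ D, ∀ v ∈ D, (res G D).Reachable u v

/-- `G` is a critical counterexample, `W` a clique with `nc` vertices and `G - W - x₀` is bipartite -/
structure Cas (nc : ℕ) {V : Type} (G : SimpleGraph V) (W : Finset V) (x₀ : V) (c : V → Bool) : Prop where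
  cr : Cr nc G
  noTK : ¬ TK nc G
  two : 2 ≤ nc
  card : W.card = nc
  clq : ∀ u ∈ W, ∀ v ∈ W, u ≠ v → G.Adj u v
  x0 : x₀ ∉ W
  bip : ∀ u v, u ∉ W → u ≠ x₀ → v ∉ W → v ≠ x₀ → G.Adj u v → c u ≠ c v

/-- MIV (60 lines).  Passing to a critical induced subgraph.

PROOF.  Among the sets `U` with `¬ Col nc (res G U)` (`U = univ` is one) choose one with the least number of elements.
`Cr`: if `(res G U).Adj v w` then `v ∈ U`, and `res G (U \ {v})` has a colouring `f`, so `IsCol (res G U) {v}ᶜ f`.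
`TK nc (res G U)` implies `TK nc G` (`Lk` is monotone in the graph). -/
def SpecMIV : Prop :=
  ∀ (nc : ℕ) (V : Type) [Finite V] (G : SimpleGraph V), ¬ Col nc G → ¬ TK nc G →
    ∃ U : Set V, Cr nc (res G U) ∧ ¬ TK nc (res G U)

/-- CLC (from the landed `Q.SpecGLU`, proved in `Q/TYP.lean` as `Q.specGLU`; 70 lines).  There is no clique cutset.

PROOF.  Criticality at `u`: `f` with `IsCol G Dᶜ f`.  Criticality at `w`: `g` with `IsCol G (D ∪ nb G D) g`.
Both are injective on the clique `nb G D`.  `Q.specGLU` for `A = Dᶜ`, `B = D ∪ nb G D`: `A ∪ B = univ`, so `Col nc G`. -/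
def SpecCLC : Prop :=
  ∀ (nc : ℕ) (V : Type) (G : SimpleGraph V) (D : Set V) (u u' w w' : V), Cr nc G → u ∈ D → G.Adj u u' →
    w ∉ D → w ∉ nb G D → G.Adj w w' → (∀ s ∈ nb G D, ∀ t ∈ nb G D, s ≠ t → G.Adj s t) → False

/-- S1P (from TWO; 220 lines).  A connected set `D` which contains `x₀` and avoids `W` has at least `nc - 1` neighbours.

PROOF.  `S = nb G D`; suppose `|S| ≤ nc - 2`.  By criticality (`x₀` is not isolated) there is `f` with `IsCol G {x₀}ᶜ f`, so
`IsCol G Dᶜ f`.  At least two colours are not in `f(S)`.  All vertices of `D` other than `x₀` are outside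
`insert x₀ W`, so `c` is a proper 2-colouring of `D \ {x₀}`; the neighbours of `D` outside `D` are in `S`.
(a) Three colours `p, q, r ∉ f(S)`: `x₀ ↦ r`, `v ∈ D \ {x₀}` gets `p` or `q` according to `c v`, the rest `f`: `Col`.
(b) Exactly two colours `p, q ∉ f(S)`: then `|f(S)| = nc - 2`, so `f` is injective on `S`.
(b1) Some `s' ∈ S` is not adjacent to `x₀`: `x₀ ↦ f s'`, `D \ {x₀}` by `p`, `q`: `Col`.
(b2) `x₀` is adjacent to all of `S`.  Call `v ∈ D \ {x₀}` full if it is adjacent to `x₀` and to all of `S`.  Suppose there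
are no full `y`, `z ∈ D \ {x₀}`, `c y ≠ c z`, connected in `res G (D \ {x₀})`.  As in PAI: `T w` = there is a full `y` with
`c y = true` connected to `w` in `res G (D \ {x₀})`; `x₀ ↦ p`; `w ∈ D \ {x₀}` gets `q` if (`c w = true ↔ T w`), otherwise it is not
full and gets `p` if it is not adjacent to `x₀` and else `f s` for some `s ∈ S` not adjacent to `w`; the rest `f`.
This is a colouring (`f` injective on `S`, `p, q ∉ f(S)`), contradiction.  So `y`, `z` exist.  If `s ∈ S` is not in `W` then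
(`s ≠ x₀` as `x₀ ∈ D`) `c s ≠ c y`, `c s ≠ c z`, `c y ≠ c z`: impossible.  So `S ⊆ W`, `K = insert x₀ S` is a clique with
`nc - 1` vertices, and TWO gives `TK`. -/
def SpecS1P : Prop :=
  ∀ (nc : ℕ) (V : Type) [Finite V] (G : SimpleGraph V) (W : Finset V) (x₀ : V) (c : V → Bool),
    Cas nc G W x₀ c → (∃ v, G.Adj x₀ v) → ∀ D : Set V, Cn G D → x₀ ∈ D → (∀ w ∈ W, w ∉ D) →
    nc ≤ (nb G D).ncard + 1

/-- ALP (from TKS, SEN, TWO, S1P and the landed FAN; 260 lines).  There is no connected set avoiding `W` and `x₀` with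
fewer than `nc` neighbours.

PROOF.  `S = nb G D`.  SEN for `X = insert x₀ W`, `S`, `u`: a vertex reachable from `u` in `res G Sᶜ` is in `D`.  So
`|S| = nc - 1`, `S ⊆ X`, and `y`, `z ∈ D` are adjacent to all of `S`, `c y ≠ c z`; `y`, `z` are connected in `res G D`.  If
`x₀ ∉ S` then `S ⊆ W` is a clique: TWO.  So `S = W' ∪ {x₀}`, `W' ⊆ W`, `|W'| = nc - 2`, `W \ W' = {w₁, w₂}`.  Let `N'` be the
set of the vertices of `W'` not adjacent to `x₀`, `m = |N'|`, and `G' = res G (D ∪ (W' \ N'))ᶜ`.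
(i) Suppose `G'` has `m` disjoint connections from `x₀` to the vertices of `N'` (FAN with `v = x₀`, `B = N'`, `k = m`; `b` is
injective with values in `N'`, so onto `N'`; the `I i` are disjoint from `N'`, `x₀ ∉ I i`, their vertices are not isolated
in `G'`, so they are not in `D ∪ (W' \ N')`).  TKS with `R = W' ∪ {x₀, y, z}`, `|R| = nc + 1`, `ι = Option (Fin m)`: `none`
is the pair `y, z` with `J = D \ {y, z}`, `some i` is the pair `x₀, b i` with `I i`.  (`W'` is a clique, `x₀` is
adjacent to `W' \ N'`, `y` and `z` are adjacent to all of `S`.)  So `TK`.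
(ii) Otherwise FAN fails: there is `Z`, `x₀ ∉ Z`, `|Z| < m`, such that no `b ∈ N'`, `b ∉ Z`, is reachable from `x₀` in
`res G' Zᶜ`.  Let `E` be the set of the vertices reachable from `x₀` in `res G' Zᶜ`.  Some `w ∈ N'` is not in `Z`; `w₁` and
`w₂` are adjacent to `w` (not in `D`, not in `W'`), so they are not in `E`; the other vertices of `W` are in `W' \ N'` or
in `N'`, so `E ∩ W = ∅`.  Claim `E = {x₀}`: let `v ∈ E`, `v ≠ x₀`, and `E'` the set of the vertices reachable from `v` in
`res G (E \ {x₀})`.  `nb G E' ⊆ {x₀} ∪ (W' \ N') ∪ Z` (a neighbour of `E'` in `D` is impossible because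
`nb G D = W' ∪ {x₀}` does not meet `E'`), so `|nb G E'| ≤ 1 + (nc - 2 - m) + (m - 1) = nc - 2`.  But SEN (for `E'`, which avoids
`insert x₀ W`) gives `|nb G E'| = nc - 1`, contradiction.  (`v` is not isolated: it is reachable from `x₀ ≠ v`.)  So all
neighbours of `x₀` outside `D` are in `(W' \ N') ∪ Z`, a set of at most `(nc - 2 - m) + (m - 1) = nc - 3` vertices.
Criticality at `u`: `f` with `IsCol G (D ∪ {x₀})ᶜ f`; `f` is injective on `W`; `p = f w₁`, `q = f w₂` are not in `f(W')`.  Choose a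
colour `r` different from `p`, `q` and the (at most `nc - 3`) colours of the neighbours of `x₀` outside `D`.  `x₀ ↦ r`,
`v ∈ D` gets `p` or `q` according to `c v`, the rest `f`: this is a colouring (`nb G D = W' ∪ {x₀}`), contradiction. -/
def SpecALP : Prop :=
  ∀ (nc : ℕ) (V : Type) [Finite V] (G : SimpleGraph V) (W : Finset V) (x₀ : V) (c : V → Bool),
    Cas nc G W x₀ c → ∀ (D : Set V) (u u' : V), Cn G D → u ∈ D → G.Adj u u' → x₀ ∉ D →
    (∀ w ∈ W, w ∉ D) → ¬ (nb G D).ncard < nc

/-- UNC (from ONE, CLC, S1P, ALP; 200 lines).  The contradiction.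

PROOF.  There is a vertex `u ∉ W` which is not isolated (otherwise all edges are inside `W` and `Col nc G`).
(1) For every `u ∉ W` which is not isolated there is a connected `D_u ∋ u, x₀` with `D_u ∩ W = ∅` and
`|nb G D_u| < nc`: ONE for `W`, `u` gives `S` (`¬ TK`); `D_u` = the vertices reachable from `u` in `res G Sᶜ`;
`nb G D_u ⊆ S`; `D_u ∩ W = ∅`; if `x₀ ∉ D_u`: ALP.
(2) So `x₀` is not isolated (`u ≠ x₀` is connected to `x₀` in `D_u`, or `u = x₀`).  Let `A` be a connected set with `x₀ ∈ A`,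
`A ∩ W = ∅`, `|nb G A| < nc` with the largest number of elements.  `nb G A ⊄ W`: otherwise CLC (`x₀ ∈ A`; some `w ∈ W` is
not in `nb G A` as `|nb G A| < |W|`, it is not isolated as `nc ≥ 2`).  Let `s ∈ nb G A`, `s ∉ W`; `B = D_s`.
(3) `A ∪ B` is connected (`x₀` is in both) and avoids `W`.  Let `E` be the set of the vertices reachable from `x₀` in
`res G (A ∩ B)`.  S1P: `|nb G E| ≥ nc - 1`.  `nb G (A ∪ B) ∪ nb G E ⊆ nb G A ∪ nb G B` and
`nb G (A ∪ B) ∩ nb G E ⊆ nb G A ∩ nb G B` (a vertex of `nb G E` is not in `A ∩ B`), so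
`|nb G (A ∪ B)| + |nb G E| ≤ |nb G A| + |nb G B| ≤ 2 (nc - 1)` and `|nb G (A ∪ B)| < nc`.  But `s ∈ (A ∪ B) \ A`, contradiction
to the choice of `A`. -/
def SpecUNC : Prop :=
  ∀ (nc : ℕ) (V : Type) [Finite V] (G : SimpleGraph V) (W : Finset V) (x₀ : V) (c : V → Bool),
    ¬ Cas nc G W x₀ c

/-- Theorem 2. -/
def MainB : Prop :=
  ∀ (nc : ℕ) (V : Type) [Finite V] (G : SimpleGraph V) (K : Finset V) (x : V) (c : V → Bool), 2 ≤ nc →
    (∀ u ∈ K, ∀ v ∈ K, u ≠ v → G.Adj u v) →
    (∀ u v, u ∉ K → u ≠ x → v ∉ K → v ≠ x → G.Adj u v → c u ≠ c v) → ¬ Col nc G → TK nc G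

/-- T2F (captain, from TKS, FIN, MIV, UNC; 90 lines). -/
def SpecT2F : Prop := MainB

end Pool.Agent.Lib.MPc67b86.Q.OC
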