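import Pool.Agent.Lib.MP_c67b86_co.OC.SpecB

/-!
# MP_c67b86_co: graphs which become perfect by deleting one vertex

Part C of the hive `oc_modules` (captain helper67), same conventions as in `OC/Spec.lean`; the modules import
`Pool.Agent.Lib.MP_c67b86_co.OC.SpecP`.

THEOREM 4.  Let `k ≥ 5`, `χ(G) ≥ k` and let `x` be a vertex such that every induced subgraph of `G - x` without `K_(k-1)` is
`(k-2)`-colourable (for example `G - x` perfect).  Then `G` contains a subdivision of `K_k`.  (Catlin's graph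
`C_5[3,3,3,2,2]`, `k = 7`, becomes perfect by deleting two vertices, so one vertex cannot be replaced by two.)

Proof, `nc = k - 1`.  Pass to a critical induced subgraph (PEF), so `P = G - x` is `nc`-colourable.  If `x` is joined to all
vertices of some clique `W ⊆ P` with `nc` vertices by a fan, this is a `TK_k` (ONE).  Otherwise every such `W` is
separated from `x` by fewer than `nc` vertices (COR).  These separations can be uncrossed (UNX, FAM): finitely many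
separations `(A, B)`, `x ∈ A \ B`, `|A ∩ B| < nc`, every `W` in some `B`, and `B ⊆ A'` for any two of them.  In an
`nc`-colouring of `P[B]` some colour class `I` avoids `A ∩ B`, and it meets all `W ⊆ B` (STB).  The union of these classes
is a stable set which contains no neighbour of `x` and meets all `W`.  So the rest of `P` is `(nc-1)`-colourable and `x` can be
added to the stable set: `G` is `nc`-colourable, a contradiction.
-/

set_option autoImplicit false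

namespace Pool.Agent.Lib.MPc67b86.Q.OC

open Pool.Agent.Lib.MPc67b86

/-- `W` is a clique with `n` vertices -/
def Clq {V : Type} (G : SimpleGraph V) (n : ℕ) (W : Finset V) : Prop :=
  W.card = n ∧ ∀ u ∈ W, ∀ v ∈ W, u ≠ v → G.Adj u v

/-- every subset of `A` which contains no clique with `nc` vertices has a colouring with `nc - 1` colours -/
def Lev (nc : ℕ) {V : Type} (G : SimpleGraph V) (A : Set V) : Prop :=
  ∀ A' ⊆ A, (∀ W : Finset V, Clq G nc W → ∃ w ∈ W, w ∉ A') → ∃ f : V → Fin (nc - 1), IsCol G A' f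

/-- `(A, B)` is a separation of order less than `nc` with `x ∈ A \ B` -/
structure Sp (nc : ℕ) {V : Type} (G : SimpleGraph V) (x : V) (A B : Set V) : Prop where
  cov : ∀ v, v ∈ A ∨ v ∈ B
  ed : ∀ u v, u ∈ A → u ∉ B → v ∈ B → v ∉ A → ¬ G.Adj u v
  x : x ∉ B
  lt : (A ∩ B).ncard < nc

/-- UNX (60 lines).  Uncrossing.

PROOF.  `(A₁ ∪ B₂, B₁ ∩ A₂)` and `(A₂ ∪ B₁, B₂ ∩ A₁)` satisfy `cov` and `ed` (if `u ∈ A₁ ∪ B₂`, `u ∉ B₁ ∩ A₂`,
`v ∈ B₁ ∩ A₂`, `v ∉ A₁ ∪ B₂`: if `u ∉ B₁` use the first separation, otherwise `u ∉ A₂`, `u ∈ B₂`, use the second) and `x`.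
The orders: `S = (A₁ ∪ B₂) ∩ (B₁ ∩ A₂)`, `T = (A₂ ∪ B₁) ∩ (B₂ ∩ A₁)` satisfy `S ∪ T ⊆ (A₁ ∩ B₁) ∪ (A₂ ∩ B₂)` and
`S ∩ T ⊆ (A₁ ∩ B₁) ∩ (A₂ ∩ B₂)`, so `|S| + |T| ≤ |A₁ ∩ B₁| + |A₂ ∩ B₂| < 2 nc - 1` (`Set.ncard_union_add_ncard_inter`) and one
of the two is less than `nc`. -/
def SpecUNX : Prop :=
  ∀ (nc : ℕ) (V : Type) [Finite V] (G : SimpleGraph V) (x : V) (A₁ B₁ A₂ B₂ : Set V),
    Sp nc G x A₁ B₁ → Sp nc G x A₂ B₂ →
    Sp nc G x (A₁ ∪ B₂) (B₁ ∩ A₂) ∨ Sp nc G x (A₂ ∪ B₁) (B₂ ∩ A₁)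

/-- FAM (from UNX; 150 lines).  The uncrossed family.

PROOF.  Call a finite set `F` of pairs `(A, B)` of subsets of `V` admissible if all its members satisfy `Sp` and every clique
`W` with `nc` vertices, `x ∉ W`, is contained in `B` for some `(A, B) ∈ F`.  The set of all pairs with `Sp` is admissible
(`Set V × Set V` is finite).  Choose an admissible `F` for which `∑ (A, B) ∈ F, φ (A, B)`, `φ (A, B) = |B| + |Aᶜ| + 1`, is
least.  Let `p = (A₁, B₁)`, `q = (A₂, B₂)` be different members with `¬ B₁ ⊆ A₂` or `¬ B₂ ⊆ A₁`.  By UNX and symmetry (the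
hypothesis is symmetric in `p`, `q`) let `q' = (A₂ ∪ B₁, B₂ ∩ A₁)` satisfy `Sp`.  `F' = insert q' (F.erase q)` is
admissible: a clique `W ⊆ B₂` has no edge between `A₁ \ B₁` and `B₁ \ A₁`, so `W ⊆ B₁` (`p ∈ F'`) or `W ⊆ A₁`, that is
`W ⊆ B₂ ∩ A₁`.  `φ q' < φ q`: `B₂ ∩ A₁ ⊆ B₂` and `(A₂ ∪ B₁)ᶜ ⊆ A₂ᶜ`, and one of the inclusions is strict (a point of
`B₁ \ A₂`, or a point of `B₂ \ A₁`).  So the sum decreases, contradiction. -/
def SpecFAM : Prop :=
  ∀ (nc : ℕ) (V : Type) [Finite V] (G : SimpleGraph V) (x : V),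
    (∀ W : Finset V, Clq G nc W → x ∉ W → ∃ A B : Set V, Sp nc G x A B ∧ ∀ w ∈ W, w ∈ B) →
    ∃ F : Finset (Set V × Set V), (∀ p ∈ F, Sp nc G x p.1 p.2) ∧
      (∀ p ∈ F, ∀ q ∈ F, p ≠ q → p.2 ⊆ q.1) ∧
      ∀ W : Finset V, Clq G nc W → x ∉ W → ∃ p ∈ F, ∀ w ∈ W, w ∈ p.2

/-- STB (60 lines).  A stable set in the far side.

PROOF.  `|f(A ∩ B)| ≤ |A ∩ B| < nc`, so some colour `j` does not occur on `A ∩ B`.  `I = {v ∈ B | f v = j}`; `I ∩ A = ∅`.
`I` is stable (`B ⊆ {x}ᶜ`).  A clique `W ⊆ B` with `nc` vertices has all `nc` colours, so it has a vertex with colour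
`j`. -/
def SpecSTB : Prop :=
  ∀ (nc : ℕ) (V : Type) [Finite V] (G : SimpleGraph V) (x : V) (A B : Set V) (f : V → Fin nc),
    Sp nc G x A B → IsCol G {x}ᶜ f →
    ∃ I : Set V, I ⊆ B \ A ∧ (∀ u ∈ I, ∀ v ∈ I, ¬ G.Adj u v) ∧
      ∀ W : Finset V, Clq G nc W → (∀ w ∈ W, w ∈ B) → ∃ w ∈ W, w ∈ I

/-- COR (from ONE, FAM, STB; 130 lines).  The core.

PROOF.  Suppose `¬ TK nc G`.  For every clique `W` with `nc` vertices, `x ∉ W`, ONE (with `u = x`) gives `S`, `|S| < nc`,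
`x ∉ S`.  Let `D = {v | (res G Sᶜ).Reachable x v}`, `A = D ∪ S`, `B = Dᶜ`: this is a separation (`Sp`), `A ∩ B = S`
(`D ∩ S = ∅`), and `W ⊆ B` (a `w ∈ W \ S` is not reachable, a `w ∈ S` is not in `D`).  FAM gives `F`, STB for every `p ∈ F`
a set `I_p ⊆ p.2 \ p.1`.  `I = ⋃ I_p` is stable: let `u ∈ I_p`, `v ∈ I_q`, `p ≠ q`: `v ∈ q.2 ⊆ p.1`, `v ∉ q.1 ⊇ p.2`,
`u ∈ p.2 \ p.1`: not adjacent by `ed` for `p`.  `x ∉ I`, and no vertex of `I` is adjacent to `x` (`x ∈ p.1 \ p.2`).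
`A' = {x}ᶜ \ I` contains no clique with `nc` vertices, so by `Lev` it has a colouring `g` with `nc - 1` colours.  Colour
`G`: `I ∪ {x}` with one new colour (`nc = (nc - 1) + 1`), the rest by `g` (`Fin.castSucc`, or the colours `< nc - 1` of
`Fin nc`).  So `Col nc G`, contradiction. -/
def SpecCOR : Prop :=
  ∀ (nc : ℕ) (V : Type) [Finite V] (G : SimpleGraph V) (x : V) (f : V → Fin nc), 1 ≤ nc →
    Lev nc G {x}ᶜ → IsCol G {x}ᶜ f → ¬ Col nc G → TK nc G

/-- PEF (from MIV, COR; 80 lines).  Theorem 4.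

PROOF.  Suppose `¬ TK nc G`; MIV gives `U`, `G' = res G U` with `Cr nc G'`, `¬ TK nc G'`.  `Lev nc G' {x}ᶜ`: let
`A' ⊆ {x}ᶜ` contain no clique of `G'` with `nc` vertices; `A' ∩ U` contains no clique of `G` with `nc` vertices (such a
clique is inside `U`, so a clique of `G'`), so there is a colouring `g` with `IsCol G (A' ∩ U) g`, and `IsCol G' A' g`.
(1) `x` is not isolated in `G'`: by criticality there is `f` with `IsCol G' {x}ᶜ f`, COR.
(2) `x` is isolated in `G'`: `Col nc G'` fails and `nc ≥ 1`, so there is an edge `x' w'` of `G'`; by criticality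
`IsCol G' {x'}ᶜ f`; `Lev nc G' {x'}ᶜ`: for `A' ⊆ {x'}ᶜ` without clique use `Lev nc G' {x}ᶜ` for `A' \ {x}`; the colouring is
also a colouring of `A'` as `x` is isolated.  COR for `x'`. -/
def SpecPEF : Prop :=
  ∀ (nc : ℕ) (V : Type) [Finite V] (G : SimpleGraph V) (x : V), 2 ≤ nc →
    Lev nc G {x}ᶜ → ¬ Col nc G → TK nc G

end Pool.Agent.Lib.MPc67b86.Q.OC
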