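import Pool.Agent.Lib.MP_c67b86_co.OC.Spec

/-!
# MP_c67b86_co, OC: module TKS

A subdivision from a set of branch vertices and disjoint connections.
-/

set_option autoImplicit false

namespace Pool.Agent.Lib.MPc67b86.Q.OC

open Pool.Agent.Lib.MPc67b86

namespace TKSM

theorem lk_comm {V : Type} {G : SimpleGraph V} {x y : V} {I : Set V} (h : Lk G x y I) :
    Lk G y x I := by
  unfold Lk at h ⊢
  rw [Set.insert_comm]
  exact h.symm

theorem lk_adj {V : Type} {G : SimpleGraph V} {x y : V} {I : Set V} (h : G.Adj x y) :
    Lk G x y I := by
  unfold Lk
  refine SimpleGraph.Adj.reachable ?_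
  exact ⟨h, Set.mem_insert _ _, Set.mem_insert_of_mem _ (Set.mem_insert _ _)⟩

end TKSM

open TKSM in
theorem specTKS : SpecTKS := by
  classical
  intro nc V G R ι a b J hc hR hJ hL hA
  let e : R ≃ Fin (nc + 1) := R.equivFinOfCardEq hc
  let f : Fin (nc + 1) → V := fun i => (e.symm i : V)
  have hf : Function.Injective f := fun i j h => e.symm.injective (Subtype.ext h)
  have hfm : ∀ i, f i ∈ R := fun i => (e.symm i).2
  let Q : Fin (nc + 1) → Fin (nc + 1) → ι → Prop := fun i k j =>
    (a j = f i ∧ b j = f k) ∨ (a j = f k ∧ b j = f i)
  let I : Fin (nc + 1) → Fin (nc + 1) → Set V := fun i k =>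
    if h : ∃ j, Q i k j then J (Classical.choose h) else ∅
  refine ⟨f, I, hf, ?_, ?_, ?_⟩
  · intro i j k _ hk
    by_cases h : ∃ m, Q i j m
    · have hI : I i j = J (Classical.choose h) := dif_pos h
      rw [hI] at hk
      exact hR _ _ (hfm k) hk
    · have hI : I i j = ∅ := dif_neg h
      rw [hI] at hk
      exact hk
  · intro i j i' j' hij hij' hne
    by_cases h : ∃ m, Q i j m
    · by_cases h' : ∃ m, Q i' j' m
      · have hI : I i j = J (Classical.choose h) := dif_pos h
        have hI' : I i' j' = J (Classical.choose h') := dif_pos h'
        rw [hI, hI']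
        apply hJ
        intro he
        have q1 : Q i j (Classical.choose h) := Classical.choose_spec h
        have q2 : Q i' j' (Classical.choose h') := Classical.choose_spec h'
        rw [← he] at q2
        rcases q1 with ⟨h1, h2⟩ | ⟨h1, h2⟩ <;> rcases q2 with ⟨h3, h4⟩ | ⟨h3, h4⟩
        · have e1 : i = i' := hf (h1.symm.trans h3)
          have e2 : j = j' := hf (h2.symm.trans h4)
          rcases hne with hne | hne
          · exact hne e1
          · exact hne e2
        · have e1 : i = j' := hf (h1.symm.trans h3)
          have e2 : j = i' := hf (h2.symm.trans h4)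
          subst e1
          subst e2
          exact absurd hij (lt_asymm hij')
        · have e1 : j = i' := hf (h1.symm.trans h3)
          have e2 : i = j' := hf (h2.symm.trans h4)
          subst e1
          subst e2
          exact absurd hij (lt_asymm hij')
        · have e1 : j = j' := hf (h1.symm.trans h3)
          have e2 : i = i' := hf (h2.symm.trans h4)
          rcases hne with hne | hne
          · exact hne e2
          · exact hne e1
      · have hI' : I i' j' = ∅ := dif_neg h'
        rw [hI']
        exact Set.disjoint_empty _
    · have hI : I i j = ∅ := dif_neg h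
      rw [hI]
      exact Set.empty_disjoint _
  · intro i j hij
    by_cases h : ∃ m, Q i j m
    · have hI : I i j = J (Classical.choose h) := dif_pos h
      rw [hI]
      have q1 : Q i j (Classical.choose h) := Classical.choose_spec h
      have hl := hL (Classical.choose h)
      rcases q1 with ⟨h1, h2⟩ | ⟨h1, h2⟩
      · rw [h1, h2] at hl
        exact hl
      · rw [h1, h2] at hl
        exact lk_comm hl
    · have hne : f i ≠ f j := fun he => (ne_of_lt hij) (hf he)
      rcases hA (f i) (hfm i) (f j) (hfm j) hne with h1 | h1
      · exact lk_adj h1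
      · exact absurd h1 h

end Pool.Agent.Lib.MPc67b86.Q.OC
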